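import Pool.Agent.H288Z.MG.Alg

set_option autoImplicit false
set_option linter.unusedSectionVars false
set_option linter.style.haveILetI false

/-!
An abelian group carrying a family of subgroups with the countable intersection property that is
cofinal among the proper subgroups is countable.
-/

namespace Pool.Agent.H288Z.MG

variable {X : Type} [AddCommGroup X]

theorem exists_uncountable_fibre {I T : Type} [Uncountable I] [Countable T] (f : I → T) :
    ∃ t, ¬ {i | f i = t}.Countable := by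
  by_contra hcon
  push Not at hcon
  refine Set.not_countable_univ (α := I) (Set.Countable.mono ?_ (Set.countable_iUnion hcon))
  intro i _
  exact Set.mem_iUnion.mpr ⟨f i, rfl⟩

theorem exists_countable_preimage {α β : Type} {f : α → β} {s : Set α} {t : Set β}
    (h : t ⊆ f '' s) (ht : t.Countable) : ∃ u ⊆ s, u.Countable ∧ t = f '' u := by
  haveI : Countable t := ht.to_subtype
  choose g hg using fun y : t => h y.2
  refine ⟨Set.range g, ?_, Set.countable_range g, ?_⟩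
  · rintro _ ⟨y, rfl⟩
    exact (hg y).1
  · ext y
    constructor
    · exact fun hy => ⟨g ⟨y, hy⟩, ⟨_, rfl⟩, (hg _).2⟩
    · rintro ⟨_, ⟨z, rfl⟩, rfl⟩
      rw [(hg z).2]
      exact z.2

theorem false_of_surj {I E : Type} [Uncountable I] [AddCommGroup E] (N : ℕ → Submodule ℤ E)
    (hN : ∀ n, N n ≠ ⊤) (hN' : ∀ M : Submodule ℤ E, M ≠ ⊤ → ∃ n, M ≤ N n)
    (π : X →ₗ[ℤ] (I →₀ E)) (hπ : Function.Surjective π) (𝓛 : Set (Submodule ℤ X)) (hCT : CT 𝓛)
    (hES : ∀ Y : Submodule ℤ X, Y ≠ ⊤ → ∃ k ∈ 𝓛, k ≠ ⊤ ∧ Y ≤ k) : False := by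
  classical
  have hne : ∀ n, ∃ e, e ∉ N n := fun n => by
    by_contra hcon
    push Not at hcon
    exact hN n (eq_top_iff.mpr fun e _ => hcon e)
  let P : I → X →ₗ[ℤ] E := fun i => (Finsupp.lapply i).comp π
  have h1 : ∀ i, LinearMap.ker (P i) ≠ ⊤ := by
    intro i h
    obtain ⟨e, he⟩ := hne 0
    obtain ⟨x, hx⟩ := hπ (Finsupp.single i e)
    have h2 : π x i = 0 := (h ▸ Submodule.mem_top : x ∈ LinearMap.ker (P i))
    rw [hx, Finsupp.single_eq_same] at h2
    exact he (h2 ▸ (N 0).zero_mem)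
  choose k hk using fun i => hES _ (h1 i)
  have h2 : ∀ i, (k i).map (P i) ≠ ⊤ := by
    intro i h
    refine (hk i).2.1 (eq_top_iff.mpr fun x _ => ?_)
    obtain ⟨y, hy, hyx⟩ : P i x ∈ (k i).map (P i) := h ▸ Submodule.mem_top
    have h3 : x - y ∈ k i := (hk i).2.2 (by rw [LinearMap.mem_ker, map_sub, hyx, sub_self])
    simpa using (k i).add_mem h3 hy
  choose n hn using fun i => hN' _ (h2 i)
  obtain ⟨m, hm⟩ := exists_uncountable_fibre n
  let s : (I →₀ E) →ₗ[ℤ] E := Finsupp.lsum ℕ fun i => if n i = m then LinearMap.id else 0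
  have hs : ∀ j e, n j = m → s (Finsupp.single j e) = e := by
    intro j e hj
    simp only [s, Finsupp.lsum_single, if_pos hj, LinearMap.id_apply]
  have h3 : (N m).comap (s.comp π) ≠ ⊤ := by
    intro h
    obtain ⟨e, he⟩ := hne m
    obtain ⟨j, hj⟩ : {i | n i = m}.Nonempty := by
      by_contra hcon
      rw [Set.not_nonempty_iff_eq_empty] at hcon
      exact hm (hcon ▸ Set.countable_empty)
    obtain ⟨x, hx⟩ := hπ (Finsupp.single j e)
    have h4 : s (π x) ∈ N m := (h ▸ Submodule.mem_top : x ∈ (N m).comap (s.comp π))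
    rw [hx, hs j e hj] at h4
    exact he h4
  obtain ⟨k₀, hk1, hk2, hk3⟩ := hES _ h3
  obtain ⟨B₀, hB1, hB2, hB3⟩ := hCT (k '' {i | n i = m})
    (by rintro _ ⟨i, -, rfl⟩; exact (hk i).1) k₀ hk1 (by
      refine le_trans (fun x hx => ?_) hk3
      show s (π x) ∈ N m
      rw [Finsupp.lsum_apply]
      refine Submodule.sum_mem _ fun i _ => ?_
      beta_reduce
      by_cases hi : n i = m
      · rw [if_pos hi, ← hi]
        exact hn i ⟨x, Submodule.mem_sInf.mp hx _ ⟨i, hi, rfl⟩, rfl⟩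
      · rw [if_neg hi]
        exact (N m).zero_mem)
  obtain ⟨S, -, hS2, rfl⟩ := exists_countable_preimage hB1 hB2
  obtain ⟨j, hj1, hj2⟩ : ∃ j, n j = m ∧ j ∉ S := by
    by_contra hcon
    push Not at hcon
    exact hm (hS2.mono hcon)
  refine hk2 (eq_top_iff.mpr fun y _ => ?_)
  obtain ⟨y', hy'⟩ := hπ (Finsupp.single j (s (π y)))
  have h4 : y - y' ∈ k₀ := hk3 (by
    show s (π (y - y')) ∈ N m
    rw [map_sub, map_sub, hy', hs j _ hj1, sub_self]
    exact (N m).zero_mem)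
  have h5 : y' ∈ k₀ := hB3 (Submodule.mem_sInf.mpr (by
    rintro _ ⟨i, hi, rfl⟩
    refine (hk i).2.2 ?_
    show π y' i = 0
    rw [hy', Finsupp.single_eq_of_ne]
    rintro rfl
    exact hj2 hi))
  simpa using k₀.add_mem h4 h5

theorem exists_prufer (p : ℕ) [hp : Fact p.Prime] : ∃ (E : Type) (_ : AddCommGroup E) (ζ : E),
    (∀ n : ℤ, n ≠ 0 → ∀ q : E, ∃ q', n • q' = q) ∧ (p : ℤ) • ζ = 0 ∧
    (∀ e : E, (p : ℤ) • e = 0 → ∃ m : ℤ, e = m • ζ) ∧
    (∀ e : E, ∃ n : ℕ, ((p : ℤ) ^ n) • e = 0) ∧ (∀ n : ℕ, ∃ e : E, ((p : ℤ) ^ n) • e ≠ 0) ∧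
    ∀ M : Submodule ℤ E, M ≠ ⊤ → ∃ n : ℕ, ∀ e ∈ M, ((p : ℤ) ^ n) • e = 0 := by
  let Z : Submodule ℤ ℚ_[p] :=
    { carrier := {x | ‖x‖ ≤ 1}
      add_mem' := fun {a b} ha hb => (Padic.nonarchimedean a b).trans (max_le ha hb)
      zero_mem' := by simp
      smul_mem' := fun c x hx => by
        show ‖c • x‖ ≤ 1
        rw [zsmul_eq_mul, norm_mul]
        exact mul_le_one₀ (Padic.norm_int_le_one c) (norm_nonneg _) hx }
  have hp0 : (0 : ℝ) < p := by exact_mod_cast hp.out.pos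
  have hp1 : (1 : ℝ) < p := by exact_mod_cast hp.out.one_lt
  have hz : ∀ (n : ℕ) (x : ℚ_[p]), ((p : ℤ) ^ n) • Z.mkQ x = 0 ↔ ‖x‖ ≤ (p : ℝ) ^ n := by
    intro n x
    rw [← map_zsmul, Submodule.mkQ_apply, Submodule.Quotient.mk_eq_zero]
    show ‖((p : ℤ) ^ n) • x‖ ≤ 1 ↔ _
    rw [zsmul_eq_mul, norm_mul]
    push_cast
    rw [norm_pow, Padic.norm_p, inv_pow, inv_mul_le_iff₀ (pow_pos hp0 n), mul_one]
  have hkey : ∀ x y : ℚ_[p], ‖y‖ ≤ ‖x‖ → ∃ m : ℤ, Z.mkQ y = m • Z.mkQ x := by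
    intro x y hxy
    by_cases hx : x = 0
    · rw [hx, norm_zero, norm_le_zero_iff] at hxy
      exact ⟨0, by rw [hxy, map_zero, zero_smul]⟩
    have hx' : 0 < ‖x‖ := norm_pos_iff.mpr hx
    have h1 : ‖y / x‖ ≤ 1 := by rwa [norm_div, div_le_one hx']
    obtain ⟨m, hm⟩ := PadicInt.denseRange_intCast.exists_dist_lt (⟨y / x, h1⟩ : ℤ_[p])
      (inv_pos.mpr hx')
    refine ⟨m, ?_⟩
    rw [← map_zsmul, Submodule.mkQ_apply, Submodule.mkQ_apply, Submodule.Quotient.eq]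
    show ‖y - m • x‖ ≤ 1
    have h2 : ‖y / x - m‖ < ‖x‖⁻¹ := by
      rw [dist_eq_norm, PadicInt.norm_def, PadicInt.coe_sub, PadicInt.coe_intCast] at hm
      exact hm
    have h3 : y - m • x = (y / x - m) * x := by
      rw [zsmul_eq_mul, sub_mul, div_mul_cancel₀ _ hx]
    rw [h3, norm_mul]
    exact ((lt_inv_mul_iff₀ hx').mp (by rwa [mul_one]) |>.trans_eq' (mul_comm _ _)).le
  have hn : ∀ n : ℕ, ‖((p : ℚ_[p]) ^ n)⁻¹‖ = (p : ℝ) ^ n := fun n => by
    rw [norm_inv, norm_pow, Padic.norm_p, inv_pow, inv_inv]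
  have htor : ∀ x : ℚ_[p], ∃ n : ℕ, ‖x‖ ≤ (p : ℝ) ^ n := fun x =>
    (pow_unbounded_of_one_lt ‖x‖ hp1).imp fun n hn => hn.le
  refine ⟨ℚ_[p] ⧸ Z, inferInstance, Z.mkQ ((p : ℚ_[p]) ^ 1)⁻¹, fun n hn0 q => ?_, ?_,
    fun e he => ?_, fun e => ?_, fun n => ⟨Z.mkQ ((p : ℚ_[p]) ^ (n + 1))⁻¹, fun h => ?_⟩,
    fun M hM => ?_⟩
  · obtain ⟨x, rfl⟩ := Z.mkQ_surjective q
    refine ⟨Z.mkQ (x / n), ?_⟩
    rw [← map_zsmul, zsmul_eq_mul, mul_div_cancel₀ _ (Int.cast_ne_zero.mpr hn0)]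
  · have := (hz 1 _).mpr (hn 1).le
    rwa [pow_one (p : ℤ)] at this
  · obtain ⟨x, rfl⟩ := Z.mkQ_surjective e
    apply hkey
    rw [hn, ← hz, pow_one]
    exact he
  · obtain ⟨x, rfl⟩ := Z.mkQ_surjective e
    exact (htor x).imp fun n hn => (hz n x).mpr hn
  · rw [hz, hn] at h
    exact absurd h (not_le.mpr (pow_lt_pow_right₀ hp1 (Nat.lt_succ_self n)))
  · obtain ⟨y, hy⟩ : ∃ y, y ∉ M := by
      by_contra hcon
      push Not at hcon
      exact hM (eq_top_iff.mpr fun e _ => hcon e)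
    obtain ⟨y, rfl⟩ := Z.mkQ_surjective y
    obtain ⟨n, hn⟩ := htor y
    refine ⟨n, fun e he => ?_⟩
    obtain ⟨x, rfl⟩ := Z.mkQ_surjective e
    rw [hz]
    by_contra hcon
    obtain ⟨m, hm⟩ := hkey x y (hn.trans (not_le.mp hcon).le)
    exact hy (hm ▸ M.smul_mem m he)

theorem exists_surj_prufer [Uncountable X]
    (hdiv : ∀ p : ℕ, p.Prime → ∀ x : X, ∃ y, (p : ℤ) • y = x) :
    ∃ (I E : Type) (_ : Uncountable I) (_ : AddCommGroup E) (N : ℕ → Submodule ℤ E)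
      (π : X →ₗ[ℤ] (I →₀ E)), (∀ n, N n ≠ ⊤) ∧ (∀ M : Submodule ℤ E, M ≠ ⊤ → ∃ n, M ≤ N n) ∧
      Function.Surjective π := by
  obtain ⟨I, hI, x, hx0, hind⟩ := exists_indep (X := X) (fun _ : Unit => LinearMap.id) ()
    fun _ => rfl
  have h1 : ∀ i, ∃ p : ℕ, p.Prime ∧ ∀ n : ℤ, n • x i = 0 → (p : ℤ) ∣ n := by
    intro i
    obtain ⟨p, hp, hpd⟩ := Nat.exists_prime_and_dvd
      (fun h => hx0 i (AddMonoid.addOrderOf_eq_one_iff.mp h))
    exact ⟨p, hp, fun n hn => (Int.natCast_dvd_natCast.mpr hpd).trans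
      (addOrderOf_dvd_iff_zsmul_eq_zero.mpr hn)⟩
  choose q hq using h1
  obtain ⟨p, hp⟩ := exists_uncountable_fibre q
  let T := {i | q i = p}
  haveI : Uncountable T := not_countable_iff.mp fun h => hp (Set.countable_coe_iff.mp h)
  obtain ⟨i₀⟩ : Nonempty T := inferInstance
  haveI : Fact p.Prime := ⟨i₀.2 ▸ (hq i₀.1).1⟩
  obtain ⟨E, _, ζ, e1, e2, e3, e4, e5, e6⟩ := exists_prufer p
  obtain ⟨π, hπ⟩ := exists_extension (Q := T →₀ E) (fun n hn v => by
      choose g hg using e1 n hn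
      refine ⟨v.sum fun i a => Finsupp.single i (g a), ?_⟩
      rw [Finsupp.smul_sum]
      simp only [Finsupp.smul_single, hg, Finsupp.sum_single]) _
    (hind.comp (Subtype.val_injective (p := fun i => q i = p))) (fun i => x i.1)
    (fun i => Submodule.subset_span ⟨(), rfl⟩) (fun i => Finsupp.single i ζ) (fun i n hn => by
      obtain ⟨c, rfl⟩ := (hq i.1).2 n hn
      rw [i.2, Finsupp.smul_single, mul_comm, mul_smul, e2, smul_zero, Finsupp.single_zero])
  have h2 : ∀ (n : ℕ) (v : T →₀ E), ((p : ℤ) ^ n) • v = 0 → v ∈ LinearMap.range π := by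
    have h3 : ∀ v : T →₀ E, (p : ℤ) • v = 0 → v ∈ LinearMap.range π := by
      intro v hv
      rw [← Finsupp.sum_single v]
      refine Submodule.sum_mem _ fun i _ => ?_
      obtain ⟨m, hm⟩ := e3 (v i) (DFunLike.congr_fun hv i)
      rw [hm, ← Finsupp.smul_single, ← hπ]
      exact Submodule.smul_mem _ _ ⟨_, rfl⟩
    intro n
    induction n with
    | zero =>
      intro v hv
      rw [pow_zero, one_smul] at hv
      rw [hv]
      exact Submodule.zero_mem _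
    | succ n ih =>
      intro v hv
      rw [pow_succ, mul_smul] at hv
      obtain ⟨y, hy⟩ := ih _ hv
      obtain ⟨z, rfl⟩ := hdiv p Fact.out y
      have h4 := h3 (v - π z) (by rw [smul_sub, ← hy, map_zsmul, sub_self])
      simpa using Submodule.add_mem _ h4 ⟨z, rfl⟩
  refine ⟨T, E, inferInstance, inferInstance,
    fun n => LinearMap.ker (((p : ℤ) ^ n) • (LinearMap.id : E →ₗ[ℤ] E)), π, fun n h => ?_,
    fun M hM => (e6 M hM).imp fun n hn e he => hn e he, fun v => ?_⟩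
  · obtain ⟨e, he⟩ := e5 n
    exact he (h.ge Submodule.mem_top)
  · show v ∈ LinearMap.range π
    rw [← Finsupp.sum_single v]
    refine Submodule.sum_mem _ fun i _ => ?_
    obtain ⟨n, hn⟩ := e4 (v i)
    exact h2 n _ (by rw [Finsupp.smul_single, hn, Finsupp.single_zero])

theorem countable_of_es (𝓛 : Set (Submodule ℤ X)) (hCT : CT 𝓛)
    (hES : ∀ Y : Submodule ℤ X, Y ≠ ⊤ → ∃ k ∈ 𝓛, k ≠ ⊤ ∧ Y ≤ k) : Countable X := by
  let R : ℕ → Submodule ℤ X := fun p => LinearMap.range ((p : ℤ) • LinearMap.id)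
  have h1 : ∀ p : Nat.Primes, Countable (X ⧸ R p) := by
    rintro ⟨p, hp⟩
    by_contra hcon
    haveI : Fact p.Prime := ⟨hp⟩
    letI : Module (ZMod p) (X ⧸ R p) := AddCommGroup.zmodModule fun v => by
      obtain ⟨x, rfl⟩ := (R p).mkQ_surjective v
      rw [← map_nsmul, Submodule.mkQ_apply, Submodule.Quotient.mk_eq_zero]
      exact ⟨x, natCast_zsmul x p⟩
    let b := Module.Basis.ofVectorSpace (ZMod p) (X ⧸ R p)
    haveI : Uncountable (Module.Basis.ofVectorSpaceIndex (ZMod p) (X ⧸ R p)) :=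
      not_countable_iff.mp fun h => hcon b.repr.injective.countable
    refine false_of_surj (E := ZMod p) (fun _ => ⊥) (fun _ => bot_ne_top) (fun M hM => ⟨0, ?_⟩)
      (b.repr.toAddEquiv.toAddMonoidHom.toIntLinearMap.comp (R p).mkQ)
      (b.repr.surjective.comp (R p).mkQ_surjective) 𝓛 hCT hES
    intro a ha
    by_contra ha0
    refine hM (eq_top_iff.mpr fun c _ => ?_)
    have h2 : c = ((c * a⁻¹).val : ℤ) • a := by
      rw [natCast_zsmul, nsmul_eq_mul, ZMod.natCast_zmod_val, inv_mul_cancel_right₀ ha0]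
    rw [h2]
    exact M.smul_mem _ ha
  let C : Submodule ℤ X := Submodule.span ℤ
    (⋃ p : Nat.Primes, Set.range (Function.surjInv (R p).mkQ_surjective))
  have hC : (C : Set X).Countable :=
    countable_span (Set.countable_iUnion fun p => Set.countable_range _)
  have h2 : Countable (X ⧸ C) := by
    by_contra hcon
    haveI : Uncountable (X ⧸ C) := not_countable_iff.mp hcon
    obtain ⟨I, E, _, _, N, π, k1, k2, k3⟩ := exists_surj_prufer (X := X ⧸ C) fun p hp v => by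
      obtain ⟨x, rfl⟩ := C.mkQ_surjective v
      have h3 := Function.surjInv_eq (R p).mkQ_surjective ((R p).mkQ x)
      rw [Submodule.mkQ_apply, Submodule.mkQ_apply, eq_comm, Submodule.Quotient.eq] at h3
      obtain ⟨y, hy⟩ := h3
      refine ⟨C.mkQ y, ?_⟩
      rw [← map_zsmul, Submodule.mkQ_apply, Submodule.mkQ_apply, eq_comm, Submodule.Quotient.eq]
      have h4 : (p : ℤ) • y = _ := hy
      rw [h4, sub_sub_cancel]
      exact Submodule.subset_span (Set.mem_iUnion.mpr ⟨⟨p, hp⟩, _, rfl⟩)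
    exact false_of_surj N k1 k2 (π.comp C.mkQ) (k3.comp C.mkQ_surjective) 𝓛 hCT hES
  rw [← Set.countable_univ_iff]
  refine Set.Countable.mono ?_ (countable_of_fibres C.mkQ Set.countable_univ (hC.mono ?_))
  · exact fun _ _ => trivial
  · exact fun x hx => (Submodule.Quotient.mk_eq_zero _).mp hx

end Pool.Agent.H288Z.MG
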