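import Pool.Agent.H288Z.MG.HM
import Pool.Agent.H288Z.MG.Alg2
import Pool.Agent.Helper69.CC

set_option autoImplicit false
set_option linter.unusedSectionVars false
set_option linter.style.haveILetI false

/-!
Characters of compact abelian groups, and subgroups of countable tightness.
-/

namespace Pool.Agent.H288Z.MG

open Filter Topology

/-- Every point of `L` in the closure of a subset of `L` is in the closure of a countable part. -/
def Tight {K : Type} [TopologicalSpace K] (L : Set K) : Prop :=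
  ∀ B ⊆ L, ∀ x ∈ L, x ∈ closure B → ∃ B₀ ⊆ B, B₀.Countable ∧ x ∈ closure B₀

variable {Γ : Type} [CommGroup Γ] [TopologicalSpace Γ] [IsTopologicalGroup Γ] [CompactSpace Γ]
  [T2Space Γ]

theorem exists_char {x : Γ} (hx : x ≠ 1) : ∃ χ : Γ →ₜ* Circle, χ x ≠ 1 := by
  obtain ⟨ι, _, _, ρ, hρ, hρx⟩ := Pool.LatH472.PW Γ x hx
  let T := Matrix.toEuclideanCLM (n := ι) (𝕜 := ℂ)
  have hT : Continuous T := by
    let T' : Matrix ι ι ℂ →ₗ[ℂ] (EuclideanSpace ℂ ι →L[ℂ] EuclideanSpace ℂ ι) :=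
      { toFun := T
        map_add' := map_add T
        map_smul' := fun c M => map_smul T c M }
    exact T'.continuous_of_finiteDimensional
  let σ : Γ →* (EuclideanSpace ℂ ι →L[ℂ] EuclideanSpace ℂ ι) :=
    { toFun := fun g => T (ρ g).1
      map_one' := by rw [map_one]; exact map_one T
      map_mul' := fun g h => by rw [map_mul]; exact map_mul T _ _ }
  obtain ⟨J, -, χ, hχc, hχ⟩ := exists_chars mul_comm σ
    ⟨hT.comp (continuous_subtype_val.comp hρ), fun g => by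
      show T (ρ g).1 ∈ _
      rw [Unitary.mem_iff, ← map_star, ← map_mul, ← map_mul, (Unitary.mem_iff.mp (ρ g).2).1,
        (Unitary.mem_iff.mp (ρ g).2).2, map_one]
      exact ⟨rfl, rfl⟩⟩
  by_contra hcon
  push Not at hcon
  have h3 : T (ρ x).1 = 1 := (hχ x).mpr fun j => hcon ⟨χ j, hχc j⟩
  exact hρx (Subtype.ext (T.injective (h3.trans (map_one T).symm)))

theorem exists_char_closed (H : Subgroup Γ) (hH : IsClosed (H : Set Γ)) {x : Γ} (hx : x ∉ H) :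
    ∃ χ : Γ →ₜ* Circle, (∀ h ∈ H, χ h = 1) ∧ χ x ≠ 1 := by
  obtain ⟨χ, hχ⟩ := exists_char (Γ := Γ ⧸ H) (x := x)
    fun h => hx ((QuotientGroup.eq_one_iff x).mp h)
  refine ⟨χ.comp ⟨QuotientGroup.mk' H, QuotientGroup.continuous_mk⟩, fun h hh => ?_, hχ⟩
  show χ (h : Γ ⧸ H) = 1
  rw [(QuotientGroup.eq_one_iff h).mpr hh, map_one]

/-- The common kernel of a group of characters. -/
noncomputable def perp (Y : Subgroup (Γ →ₜ* Circle)) : Subgroup Γ := ⨅ ψ : Y, (ψ.1 : Γ →* Circle).ker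

theorem mem_perp {Y : Subgroup (Γ →ₜ* Circle)} {a : Γ} : a ∈ perp Y ↔ ∀ ψ ∈ Y, ψ a = 1 := by
  simp [perp, Subgroup.mem_iInf, MonoidHom.mem_ker]

theorem perp_closed (Y : Subgroup (Γ →ₜ* Circle)) : IsClosed (perp Y : Set Γ) := by
  simp only [perp, Subgroup.coe_iInf]
  exact isClosed_iInter fun ψ => ker_closed _ ψ.1.continuous_toFun

theorem mem_of_perp (Y : Subgroup (Γ →ₜ* Circle)) (χ : Γ →ₜ* Circle)
    (h : ∀ a ∈ perp Y, χ a = 1) : χ ∈ Y := by
  haveI := perp_closed Y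
  have hl : ∀ ψ : Γ →ₜ* Circle, (∀ a ∈ perp Y, ψ a = 1) →
      ∃ ψ' : (Γ ⧸ perp Y) →ₜ* Circle, ∀ a : Γ, ψ' a = ψ a := by
    intro ψ hψ
    refine ⟨⟨QuotientGroup.lift (perp Y) (ψ : Γ →* Circle) hψ, ?_⟩, fun a => rfl⟩
    exact (QuotientGroup.isQuotientMap_mk (perp Y)).continuous_iff.mpr ψ.continuous_toFun
  let c : ((Γ ⧸ perp Y) →ₜ* Circle) →* (Γ →ₜ* Circle) :=
    { toFun := fun ψ => ψ.comp ⟨QuotientGroup.mk' _, QuotientGroup.continuous_mk⟩
      map_one' := rfl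
      map_mul' := fun _ _ => rfl }
  obtain ⟨χ', hχ'⟩ := hl χ h
  have h1 : χ' ∈ Y.comap c := by
    refine Pool.Agent.Helper69.CC.mem_of_separates _ (fun x y hxy => ?_) χ'
    obtain ⟨a, rfl⟩ := QuotientGroup.mk_surjective x
    obtain ⟨b, rfl⟩ := QuotientGroup.mk_surjective y
    have h2 : ¬ ∀ ψ ∈ Y, ψ (a⁻¹ * b) = 1 := fun h2 =>
      hxy (QuotientGroup.eq.mpr (mem_perp.mpr h2))
    push Not at h2
    obtain ⟨ψ, hψ1, hψ2⟩ := h2
    obtain ⟨ψ', hψ'⟩ := hl ψ fun a ha => mem_perp.mp ha ψ hψ1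
    refine ⟨ψ', ?_, fun h3 => hψ2 ?_⟩
    · have h4 : c ψ' = ψ := ContinuousMonoidHom.ext hψ'
      rw [Subgroup.mem_comap, h4]
      exact hψ1
    · rw [hψ', hψ'] at h3
      rw [map_mul, map_inv, h3, inv_mul_cancel]
  have h4 : c χ' = χ := ContinuousMonoidHom.ext hχ'
  rwa [Subgroup.mem_comap, h4] at h1

theorem char_closure (χ : Γ →ₜ* Circle) {B : Set Γ} (h : ∀ b ∈ B, χ b = 1) {x : Γ}
    (hx : x ∈ closure B) : χ x = 1 :=
  (isClosed_eq χ.continuous_toFun continuous_const).closure_subset_iff.mpr h hx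

theorem ct_zero {L : Subgroup Γ} (hT : Tight (L : Set Γ)) {B : Set Γ} (hB : B ⊆ L) {x : Γ}
    (hx : x ∈ L) (h : ∀ χ : Γ →ₜ* Circle, (∀ b ∈ B, χ b = 1) → χ x = 1) :
    ∃ B₀ ⊆ B, B₀.Countable ∧ ∀ χ : Γ →ₜ* Circle, (∀ b ∈ B₀, χ b = 1) → χ x = 1 := by
  have h1 : x ∈ (Subgroup.closure B).topologicalClosure := by
    by_contra hcon
    obtain ⟨χ, hχ1, hχ2⟩ := exists_char_closed _ (Subgroup.isClosed_topologicalClosure _) hcon
    exact hχ2 (h χ fun b hb =>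
      hχ1 b (Subgroup.le_topologicalClosure _ (Subgroup.subset_closure hb)))
  obtain ⟨B₁, hB1, hB2, hB3⟩ := hT _ ((Subgroup.closure_le L).mpr hB) x hx h1
  have h2 : ∀ y ∈ Subgroup.closure B, ∃ t ⊆ B, t.Countable ∧
      ∀ χ : Γ →ₜ* Circle, (∀ b ∈ t, χ b = 1) → χ y = 1 := by
    intro y hy
    induction hy using Subgroup.closure_induction with
    | mem y hy =>
      exact ⟨{y}, Set.singleton_subset_iff.mpr hy, Set.countable_singleton y,
        fun χ hχ => hχ y rfl⟩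
    | one => exact ⟨∅, Set.empty_subset _, Set.countable_empty, fun χ _ => map_one χ⟩
    | mul y z _ _ hy hz =>
      obtain ⟨s, hs1, hs2, hs3⟩ := hy
      obtain ⟨t, ht1, ht2, ht3⟩ := hz
      refine ⟨s ∪ t, Set.union_subset hs1 ht1, hs2.union ht2, fun χ hχ => ?_⟩
      rw [map_mul, hs3 χ fun b hb => hχ b (Or.inl hb), ht3 χ fun b hb => hχ b (Or.inr hb), one_mul]
    | inv y _ hy =>
      obtain ⟨s, hs1, hs2, hs3⟩ := hy
      exact ⟨s, hs1, hs2, fun χ hχ => by rw [map_inv, hs3 χ hχ, inv_one]⟩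
  choose! t ht using h2
  refine ⟨⋃ y ∈ B₁, t y, Set.iUnion₂_subset fun y hy => (ht y (hB1 hy)).1,
    hB2.biUnion fun y hy => (ht y (hB1 hy)).2.1, fun χ hχ => char_closure χ (fun y hy => ?_) hB3⟩
  exact (ht y (hB1 hy)).2.2 χ fun b hb => hχ b (Set.mem_biUnion hy hb)

/-- The characters in `X₀` that kill `a`. -/
noncomputable def kerAt (X₀ : Subgroup (Γ →ₜ* Circle)) (a : Γ) : Submodule ℤ (Additive X₀) :=
  AddSubgroup.toIntSubmodule (Subgroup.toAddSubgroup (MonoidHom.ker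
    ({ toFun := fun χ => χ.1 a, map_one' := rfl, map_mul' := fun _ _ => rfl } : X₀ →* Circle)))

theorem mem_kerAt {X₀ : Subgroup (Γ →ₜ* Circle)} {a : Γ} {χ : Additive X₀} :
    χ ∈ kerAt X₀ a ↔ χ.toMul.1 a = 1 := Iff.rfl

theorem ct_kerAt {L : Subgroup Γ} (hT : Tight (L : Set Γ)) (X₀ : Subgroup (Γ →ₜ* Circle))
    (hM : ∀ χ : Γ →ₜ* Circle, (∀ l ∈ L, l ∈ perp X₀ → χ l = 1) → χ ∈ X₀) :
    CT (kerAt X₀ '' L) := by
  rintro B hBL _ ⟨x, hx, rfl⟩ hB
  obtain ⟨B₀, h1, h2, h3⟩ := ct_zero hT (B := {l ∈ L | kerAt X₀ l ∈ B ∨ l ∈ perp X₀})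
    (fun l hl => hl.1) hx fun χ hχ => by
      have h4 : χ ∈ X₀ := hM χ fun l hl hl' => hχ l ⟨hl, Or.inr hl'⟩
      refine mem_kerAt.mp (hB (x := Additive.ofMul ⟨χ, h4⟩) (Submodule.mem_sInf.mpr fun k hk => ?_))
      obtain ⟨l, hl, rfl⟩ := hBL hk
      exact hχ l ⟨hl, Or.inl hk⟩
  refine ⟨B ∩ kerAt X₀ '' B₀, Set.inter_subset_left, (h2.image _).mono Set.inter_subset_right,
    fun χ hχ => h3 _ fun b hb => ?_⟩
  rcases (h1 hb).2 with h | h
  · exact Submodule.mem_sInf.mp hχ _ ⟨h, b, hb, rfl⟩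
  · exact mem_perp.mp h _ χ.toMul.2

/-- A subgroup of `X₀`, as a group of characters. -/
noncomputable def toChars {X₀ : Subgroup (Γ →ₜ* Circle)} (Y : Submodule ℤ (Additive X₀)) :
    Subgroup (Γ →ₜ* Circle) :=
  (Subgroup.toAddSubgroup.symm Y.toAddSubgroup).map X₀.subtype

theorem mem_toChars {X₀ : Subgroup (Γ →ₜ* Circle)} {Y : Submodule ℤ (Additive X₀)}
    {χ : Γ →ₜ* Circle} : χ ∈ toChars Y ↔ ∃ y ∈ Y, y.toMul.1 = χ :=
  ⟨fun ⟨y, hy, h⟩ => ⟨Additive.ofMul y, hy, h⟩, fun ⟨y, hy, h⟩ => ⟨y.toMul, hy, h⟩⟩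

theorem mem_of_toChars {X₀ : Subgroup (Γ →ₜ* Circle)} {Y : Submodule ℤ (Additive X₀)}
    {χ : Additive X₀} (h : χ.toMul.1 ∈ toChars Y) : χ ∈ Y := by
  obtain ⟨y, hy, hy'⟩ := mem_toChars.mp h
  have : y = χ := Additive.toMul.injective (Subtype.ext hy')
  exact this ▸ hy

theorem secondCountable_of_dual [Countable (Γ →ₜ* Circle)] : SecondCountableTopology Γ := by
  let e : Γ → ((Γ →ₜ* Circle) → Circle) := fun a χ => χ a
  have he : Continuous e := continuous_pi fun χ => χ.continuous_toFun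
  have hinj : Function.Injective e := by
    intro a b hab
    by_contra hne
    obtain ⟨χ, hχ⟩ := exists_char (x := a⁻¹ * b) fun h => hne (inv_mul_eq_one.mp h)
    have h1 : χ a = χ b := congrFun hab χ
    exact hχ (by rw [map_mul, map_inv, h1, inv_mul_cancel])
  exact (he.isClosedEmbedding hinj).isEmbedding.secondCountableTopology

/-- A compact abelian group with an essential subgroup of countable tightness is second
countable. -/
theorem secondCountable_of_ess_tight {L : Subgroup Γ} (hT : Tight (L : Set Γ))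
    (hE : ∀ H : Subgroup Γ, IsClosed (H : Set Γ) → H ≠ ⊥ → ∃ l ∈ L, l ∈ H ∧ l ≠ 1) :
    SecondCountableTopology Γ := by
  have h1 := countable_of_es _ (ct_kerAt hT ⊤ fun _ _ => Subgroup.mem_top _) fun Y hY => by
    obtain ⟨l, hl1, hl2, hl3⟩ := hE _ (perp_closed (toChars Y)) fun h =>
      hY (eq_top_iff.mpr fun χ _ => mem_of_toChars (mem_of_perp _ _ fun a ha => by
        rw [h] at ha
        rw [Subgroup.mem_bot.mp ha, map_one]))
    refine ⟨_, ⟨l, hl1, rfl⟩, fun h => ?_,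
      fun y hy => mem_perp.mp hl2 _ (mem_toChars.mpr ⟨y, hy, rfl⟩)⟩
    obtain ⟨χ, hχ⟩ := exists_char hl3
    have h2 : Additive.ofMul ⟨χ, Subgroup.mem_top χ⟩ ∈ kerAt ⊤ l := h.ge Submodule.mem_top
    exact hχ h2
  haveI : Countable (Γ →ₜ* Circle) :=
    Function.Surjective.countable (f := fun y : Additive (⊤ : Subgroup (Γ →ₜ* Circle)) => y.toMul.1)
      fun χ => ⟨Additive.ofMul ⟨χ, trivial⟩, rfl⟩
  exact secondCountable_of_dual

end Pool.Agent.H288Z.MG
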