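import Pool.Agent.H288Z.MG.Basic

set_option autoImplicit false
set_option linter.unusedSectionVars false
set_option linter.style.haveILetI false

/-!
Closed subgroups of the circle, and elements all of whose character values have finite order.
-/

namespace Pool.Agent.H288Z.MG

open Filter Topology

theorem circle_roots_finite {m : ℕ} (hm : 0 < m) : {z : Circle | z ^ m = 1}.Finite := by
  classical
  have h1 : ((Polynomial.nthRoots m (1 : ℂ)).toFinset : Set ℂ).Finite := Finset.finite_toSet _
  refine (h1.preimage Circle.coe_injective.injOn).subset fun z hz => ?_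
  simp only [Set.mem_preimage, Finset.mem_coe, Multiset.mem_toFinset,
    Polynomial.mem_nthRoots hm]
  have h2 : z ^ m = 1 := hz
  exact congrArg (fun w : Circle => (w : ℂ)) h2

theorem circle_subgroup (L : Subgroup Circle) (hc : IsClosed (L : Set Circle))
    (hinf : (L : Set Circle).Infinite) : L = ⊤ := by
  let L' : AddSubgroup ℝ :=
    { carrier := {x | Circle.exp x ∈ L}
      add_mem' := fun {a b} ha hb => by
        show Circle.exp (a + b) ∈ L
        rw [Circle.exp_add]; exact L.mul_mem ha hb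
      zero_mem' := by
        show Circle.exp 0 ∈ L
        rw [Circle.exp_zero]; exact L.one_mem
      neg_mem' := fun {a} ha => by
        show Circle.exp (-a) ∈ L
        rw [Circle.exp_neg]; exact L.inv_mem ha }
  have hc' : IsClosed (L' : Set ℝ) := hc.preimage Circle.exp.continuous
  rcases L'.dense_or_cyclic with h | ⟨a, ha⟩
  · rw [eq_top_iff]
    intro z _
    obtain ⟨x, rfl⟩ := Circle.exp_surjective z
    have : x ∈ closure (L' : Set ℝ) := h x
    rw [hc'.closure_eq] at this
    exact this
  · exfalso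
    apply hinf
    have h2 : (2 * Real.pi) ∈ L' := by
      show Circle.exp (2 * Real.pi) ∈ L
      rw [Circle.exp_two_pi]; exact L.one_mem
    rw [ha, AddSubgroup.mem_closure_singleton] at h2
    obtain ⟨k, hk⟩ := h2
    have hk0 : k ≠ 0 := by
      rintro rfl
      rw [zero_smul] at hk
      have := Real.pi_pos
      linarith
    refine (circle_roots_finite (m := k.natAbs) (Int.natAbs_pos.mpr hk0)).subset fun z hz => ?_
    obtain ⟨x, rfl⟩ := Circle.exp_surjective z
    have h3 : x ∈ L' := hz
    rw [ha, AddSubgroup.mem_closure_singleton] at h3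
    obtain ⟨j, rfl⟩ := h3
    have h4 : Circle.exp (j • a) ^ k = 1 := by
      rw [← Circle.exp_zsmul, smul_comm, hk, Circle.exp_zsmul, Circle.exp_two_pi, one_zpow]
    show Circle.exp (j • a) ^ k.natAbs = 1
    rcases Int.natAbs_eq k with h5 | h5
    · rw [h5, zpow_natCast] at h4; exact h4
    · rw [h5, zpow_neg, zpow_natCast, inv_eq_one] at h4; exact h4

theorem circle_exists_order {p : ℕ} (hp : p.Prime) : ∃ z : Circle, orderOf z = p := by
  haveI : Fact p.Prime := ⟨hp⟩
  have hp0 : (p : ℝ) ≠ 0 := by exact_mod_cast hp.ne_zero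
  refine ⟨Circle.exp (2 * Real.pi / p), orderOf_eq_prime ?_ ?_⟩
  · rw [← Circle.exp_natCast_mul, mul_div_cancel₀ _ hp0, Circle.exp_two_pi]
  · intro h
    rw [Circle.exp_eq_one] at h
    obtain ⟨n, hn⟩ := h
    have hpi : (2 * Real.pi) ≠ 0 := by have := Real.pi_pos; positivity
    have h1 : (n : ℝ) * p = 1 := by
      field_simp at hn
      linarith
    have h2 : n * (p : ℤ) = 1 := by exact_mod_cast h1
    have h3 : (p : ℤ) ∣ 1 := ⟨n, by linarith⟩
    have h4 : p ∣ 1 := by exact_mod_cast h3
    exact hp.one_lt.ne' (Nat.dvd_one.mp h4)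

variable {K : Type} [Group K] [TopologicalSpace K] [IsTopologicalGroup K] [CompactSpace K]
  [T2Space K]

theorem map_closed {L : Type} [Group L] [TopologicalSpace L] [T2Space L] (φ : K →* L)
    (hφ : Continuous φ) (S : Subgroup K) (hS : IsClosed (S : Set K)) :
    IsClosed ((S.map φ : Subgroup L) : Set L) := by
  rw [Subgroup.coe_map]
  exact (hS.isCompact.image hφ).isClosed

theorem exists_locTors (ψ : K →* Circle) (hψ : Continuous ψ) (B : Subgroup K)
    (hB : IsClosed (B : Set K)) (z : Circle) (hz : z ∈ B.map ψ) (hz1 : z ≠ 1)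
    (hzf : IsOfFinOrder z) :
    ∃ x ∈ B, ψ x ≠ 1 ∧ ψ x ∈ Subgroup.zpowers z ∧
      ∀ φ : K →* Circle, Continuous φ → IsOfFinOrder (φ x) := by
  have hZ : ((Subgroup.zpowers z : Subgroup Circle) : Set Circle).Finite :=
    finite_zpowers.mpr hzf
  let B' : Subgroup K := B ⊓ (Subgroup.zpowers z).comap ψ
  have hB' : IsClosed (B' : Set K) := by
    simp only [B', Subgroup.coe_inf, Subgroup.coe_comap]
    exact hB.inter (hZ.isClosed.preimage hψ)
  let F : Set K := ψ ⁻¹' (((Subgroup.zpowers z : Subgroup Circle) : Set Circle) \ {1})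
  have hF : IsClosed F := (hZ.subset Set.sdiff_subset).isClosed.preimage hψ
  obtain ⟨S, hS1, hS2, -, hS4, hS5⟩ := exists_min_closed (K := K) ∅ {F}
    (by rintro F' rfl; exact hF) B' hB' (fun t ht => absurd ht (Set.notMem_empty t)) (by
      rintro F' rfl
      obtain ⟨x, hx, rfl⟩ := hz
      exact ⟨x, ⟨hx, Subgroup.mem_zpowers _⟩, Subgroup.mem_zpowers _, hz1⟩)
  obtain ⟨s, hs, hsF⟩ := hS4 F rfl
  refine ⟨s, (hS1 hs).1, hsF.2, hsF.1, fun φ hφ => ?_⟩
  have hfin : ((S.map φ : Subgroup Circle) : Set Circle).Finite := by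
    by_contra hinf
    have hi : ψ.ker.relIndex S ≠ 0 := by
      rw [Subgroup.relIndex_ker]
      have h1 : ((S.map ψ : Subgroup Circle) : Set Circle).Finite := by
        refine hZ.subset ?_
        rintro _ ⟨x, hx, rfl⟩
        exact (hS1 hx).2
      haveI : Finite (S.map ψ) := h1.to_subtype
      exact (Nat.card_pos (α := S.map ψ)).ne'
    have hi2 : ((ψ.ker ⊓ S).map φ).relIndex (S.map φ) ≠ 0 := by
      intro h0
      rw [← Subgroup.relIndex_comap] at h0
      have h2 : (ψ.ker ⊓ S).relIndex S ≠ 0 := by rwa [Subgroup.inf_relIndex_right]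
      have h1 := Subgroup.relIndex_dvd_of_le_left S (Subgroup.le_comap_map φ (ψ.ker ⊓ S))
      rw [h0] at h1
      exact h2 (Nat.eq_zero_of_zero_dvd h1)
    have h3 := infinite_inf_of_relIndex hi2 hinf
    have hker : IsClosed (ψ.ker : Set K) := by
      rw [MonoidHom.coe_ker]
      exact isClosed_singleton.preimage hψ
    have h4 : (ψ.ker ⊓ S).map φ = ⊤ := by
      refine circle_subgroup _ (map_closed φ hφ _ ?_) (h3.mono inf_le_left)
      rw [Subgroup.coe_inf]; exact hker.inter hS2
    have h5 : φ s ∈ (ψ.ker ⊓ S).map φ := h4 ▸ Subgroup.mem_top _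
    obtain ⟨s1, hs1, hs1'⟩ := h5
    have h6 : φ.ker ⊓ S = S := by
      refine hS5 _ inf_le_right ?_ (fun t ht => absurd ht (Set.notMem_empty t)) ?_
      · rw [Subgroup.coe_inf, MonoidHom.coe_ker]
        exact (isClosed_singleton.preimage hφ).inter hS2
      · rintro F' rfl
        refine ⟨s * s1⁻¹, ⟨?_, S.mul_mem hs (S.inv_mem hs1.2)⟩, ?_⟩
        · show φ (s * s1⁻¹) = 1
          rw [map_mul, map_inv, hs1', mul_inv_cancel]
        · have k1 : ψ s1 = 1 := hs1.1
          have k2 : ψ (s * s1⁻¹) = ψ s := by rw [map_mul, map_inv, k1, inv_one, mul_one]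
          simp only [F, Set.mem_preimage] at hsF ⊢
          rw [k2]
          exact hsF
    apply hinf
    refine (Set.finite_singleton 1).subset ?_
    rintro _ ⟨x, hx, rfl⟩
    have : x ∈ φ.ker ⊓ S := h6.symm ▸ hx
    exact this.1
  haveI : Finite (S.map φ) := hfin.to_subtype
  have h7 : IsOfFinOrder (⟨φ s, s, hs, rfl⟩ : S.map φ) := isOfFinOrder_of_finite _
  exact (S.map φ).subtype.isOfFinOrder h7

end Pool.Agent.H288Z.MG
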