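import Pool.Agent.H288Z.MG.Basic

set_option autoImplicit false
set_option linter.unusedSectionVars false
set_option linter.style.haveILetI false
set_option linter.deprecated false

/-!
A unitary representation of a commutative group on a finite dimensional space has the same kernel
as a finite family of characters.
-/

namespace Pool.Agent.H288Z.MG

open Filter Topology Module Module.End
open scoped InnerProductSpace

variable {E : Type} [NormedAddCommGroup E] [InnerProductSpace ℂ E] [FiniteDimensional ℂ E]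
  [CompleteSpace E]

/-- A continuous unitary representation. -/
def IsRep {L : Type} [Group L] [TopologicalSpace L] (ρ : L →* (E →L[ℂ] E)) : Prop :=
  Continuous ρ ∧ ∀ g, ρ g ∈ unitary (E →L[ℂ] E)

theorem inner_unitary {U : E →L[ℂ] E} (hU : U ∈ unitary (E →L[ℂ] E)) (x y : E) :
    ⟪U x, U y⟫_ℂ = ⟪x, y⟫_ℂ := by
  have h := (Unitary.mem_iff.mp hU).1
  rw [← ContinuousLinearMap.adjoint_inner_right, ← ContinuousLinearMap.star_eq_adjoint,
    ← ContinuousLinearMap.mul_apply, h, ContinuousLinearMap.one_apply]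

theorem eig_two {U : End ℂ E} (hU : ∀ x y, ⟪U x, U y⟫_ℂ = ⟪x, y⟫_ℂ) (μ : ℂ) (v : E)
    (h : (U - μ • (1 : End ℂ E)) ((U - μ • (1 : End ℂ E)) v) = 0) :
    (U - μ • (1 : End ℂ E)) v = 0 := by
  set w := (U - μ • (1 : End ℂ E)) v with hw
  have h1 : U w = μ • w := by
    have : U w - μ • w = 0 := by simpa using h
    exact sub_eq_zero.mp this
  have h2 : w = U v - μ • v := by simp [hw]
  have h3 := hU w v
  have h4 := hU w w
  rw [h1, inner_smul_left] at h3
  rw [h1, inner_smul_left, inner_smul_right] at h4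
  have h5 : ⟪w, w⟫_ℂ = ⟪w, U v⟫_ℂ - μ * ⟪w, v⟫_ℂ := by
    conv_lhs => rw [h2, inner_sub_right, inner_smul_right, ← h2]
  by_contra hne
  have h6 : ⟪w, w⟫_ℂ ≠ 0 := fun h0 => hne (inner_self_eq_zero.mp h0)
  have h7 : (starRingEnd ℂ) μ * μ = 1 := by
    have : ((starRingEnd ℂ) μ * μ) * ⟪w, w⟫_ℂ = 1 * ⟪w, w⟫_ℂ := by
      rw [one_mul, mul_assoc]; exact h4
    exact mul_right_cancel₀ h6 this
  apply h6
  rw [h5, ← h3]
  linear_combination (-⟪w, U v⟫_ℂ) * h7

theorem eig_pow {U : End ℂ E} (hU : ∀ x y, ⟪U x, U y⟫_ℂ = ⟪x, y⟫_ℂ) (μ : ℂ) (k : ℕ) :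
    ∀ v : E, ((U - μ • (1 : End ℂ E)) ^ k) v = 0 → (U - μ • (1 : End ℂ E)) v = 0 := by
  induction k with
  | zero =>
    intro v hv
    have : v = 0 := by simpa using hv
    rw [this, map_zero]
  | succ k ih =>
    intro v hv
    rw [pow_succ, Module.End.mul_apply] at hv
    exact eig_two hU μ v (ih _ hv)

theorem exists_chars {L : Type} [Group L] [TopologicalSpace L] (hc : ∀ a b : L, a * b = b * a)
    (ρ : L →* (E →L[ℂ] E)) (hρ : IsRep ρ) :
    ∃ (J : Type) (_ : Finite J) (χ : J → (L →* Circle)), (∀ j, Continuous (χ j)) ∧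
      ∀ a, ρ a = 1 ↔ ∀ j, χ j a = 1 := by
  let f : L → End ℂ E := fun a => ((ρ a : E →L[ℂ] E) : E →ₗ[ℂ] E)
  have hf : ∀ a v, f a v = ρ a v := fun _ _ => rfl
  have hcomm : ∀ a b, Commute (f a) (f b) := by
    intro a b
    ext v
    show ρ a (ρ b v) = ρ b (ρ a v)
    rw [← ContinuousLinearMap.mul_apply, ← ContinuousLinearMap.mul_apply, ← map_mul, ← map_mul,
      hc]
  have hU : ∀ a x y, ⟪f a x, f a y⟫_ℂ = ⟪x, y⟫_ℂ := fun a => inner_unitary (hρ.2 a)
  let W : (L → ℂ) → Submodule ℂ E := fun χ => ⨅ a, (f a).maxGenEigenspace (χ a)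
  have hW : ∀ χ, ∀ v ∈ W χ, ∀ a, ρ a v = χ a • v := by
    intro χ v hv a
    obtain ⟨k, hk⟩ := (mem_iInf_maxGenEigenspace_iff f χ v).mp hv a
    have := eig_pow (hU a) (χ a) k v hk
    have h2 : f a v - χ a • v = 0 := by simpa using this
    exact sub_eq_zero.mp h2
  have htop : ⨆ χ, W χ = ⊤ :=
    iSup_iInf_maxGenEigenspace_eq_top_of_iSup_maxGenEigenspace_eq_top_of_commute f
      (fun a b _ => hcomm a b) (fun a => iSup_maxGenEigenspace_eq_top (f a))
  have hind : iSupIndep W :=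
    independent_iInf_maxGenEigenspace_of_forall_mapsTo f
      (fun a b φ => mapsTo_maxGenEigenspace_of_comm (hcomm b a) φ)
  have hfin : {χ | W χ ≠ ⊥}.Finite := WellFoundedGT.finite_ne_bot_of_iSupIndep hind
  let J := {χ : L → ℂ // W χ ≠ ⊥}
  haveI : Finite J := hfin.to_subtype
  choose v hv hv0 using fun j : J => (Submodule.ne_bot_iff _).mp j.2
  have hsm : ∀ (j : J) (c d : ℂ), c • v j = d • v j → c = d := fun j c d h =>
    smul_left_injective ℂ (hv0 j) h
  have hnorm : ∀ (j : J) a, ‖j.1 a‖ = 1 := by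
    intro j a
    have h1 := hU a (v j) (v j)
    rw [hf, hW _ _ (hv j), inner_smul_left, inner_smul_right, ← mul_assoc] at h1
    have h6 : ⟪v j, v j⟫_ℂ ≠ 0 := fun h0 => hv0 j (inner_self_eq_zero.mp h0)
    have h7 : (starRingEnd ℂ) (j.1 a) * j.1 a = 1 := by
      have : ((starRingEnd ℂ) (j.1 a) * j.1 a) * ⟪v j, v j⟫_ℂ = 1 * ⟪v j, v j⟫_ℂ := by
        rw [one_mul]; exact h1
      exact mul_right_cancel₀ h6 this
    have h8 := congrArg norm h7
    rw [norm_mul, Complex.norm_conj, norm_one] at h8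
    have h9 := norm_nonneg (j.1 a)
    nlinarith
  let χ : J → (L →* Circle) := fun j =>
    { toFun := fun a => ⟨j.1 a, mem_sphere_zero_iff_norm.mpr (hnorm j a)⟩
      map_one' := by
        apply Circle.ext
        show j.1 1 = 1
        apply hsm j
        rw [← hW _ _ (hv j), map_one, one_smul, ContinuousLinearMap.one_apply]
      map_mul' := fun a b => by
        apply Circle.ext
        show j.1 (a * b) = j.1 a * j.1 b
        apply hsm j
        rw [← hW _ _ (hv j), map_mul, ContinuousLinearMap.mul_apply, hW _ _ (hv j) b, map_smul,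
          hW _ _ (hv j) a, smul_smul, mul_comm] }
  have hχ : ∀ j a, ((χ j a : Circle) : ℂ) = j.1 a := fun _ _ => rfl
  refine ⟨J, inferInstance, χ, fun j => ?_, fun a => ⟨fun h j => ?_, fun h => ?_⟩⟩
  · apply Continuous.subtype_mk
    have h6 : ⟪v j, v j⟫_ℂ ≠ 0 := fun h0 => hv0 j (inner_self_eq_zero.mp h0)
    have h1 : j.1 = fun a => ⟪v j, ρ a (v j)⟫_ℂ / ⟪v j, v j⟫_ℂ := by
      funext a
      rw [hW _ _ (hv j), inner_smul_right, mul_div_assoc, div_self h6, mul_one]
    rw [h1]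
    have h2 : Continuous fun a => ρ a (v j) := hρ.1.clm_apply continuous_const
    exact (continuous_const.inner h2).div_const _
  · apply Circle.ext
    rw [hχ, Circle.coe_one]
    apply hsm j
    rw [← hW _ _ (hv j), h, one_smul, ContinuousLinearMap.one_apply]
  · have h1 : ∀ ψ, W ψ ≤ LinearMap.ker (f a - 1) := by
      intro ψ x hx
      by_cases h0 : W ψ = ⊥
      · rw [h0, Submodule.mem_bot] at hx
        rw [hx]; exact zero_mem _
      · have h2 : ψ a = 1 := by
          have := congrArg (fun z : Circle => (z : ℂ)) (h ⟨ψ, h0⟩)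
          exact this
        rw [LinearMap.mem_ker, LinearMap.sub_apply, hf, hW _ _ hx, h2, one_smul]
        simp
    have h2 : LinearMap.ker (f a - 1) = ⊤ := by
      rw [eq_top_iff, ← htop]
      exact iSup_le h1
    ext x
    have h3 : x ∈ LinearMap.ker (f a - 1) := h2 ▸ Submodule.mem_top
    rw [LinearMap.mem_ker, LinearMap.sub_apply, hf, sub_eq_zero] at h3
    rw [h3]
    rfl

end Pool.Agent.H288Z.MG
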