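import Pool.Agent.H288Z.MG.Rad
import Pool.Agent.H288Z.MG.Circ
import Pool.Agent.H288Z.MG.Diag

set_option autoImplicit false
set_option linter.unusedSectionVars false
set_option linter.style.haveILetI false

/-!
The case of an infinite abelian closed normal subgroup.
-/

namespace Pool.Agent.H288Z.MG

open Filter Topology

variable {K : Type} [Group K] [TopologicalSpace K] [IsTopologicalGroup K] [CompactSpace K]
  [T2Space K]
variable {E : Type} [NormedAddCommGroup E] [InnerProductSpace ℂ E] [FiniteDimensional ℂ E]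
  [CompleteSpace E]

/-- Continuous unitary representations on `E` separate the points of `K`. -/
def Sep (K : Type) [Group K] [TopologicalSpace K] (E : Type) [NormedAddCommGroup E]
    [InnerProductSpace ℂ E] [FiniteDimensional ℂ E] [CompleteSpace E] : Prop :=
  ∀ x : K, x ≠ 1 → ∃ ρ : K →* (E →L[ℂ] E), IsRep ρ ∧ ρ x ≠ 1

theorem ker_closed {L M : Type} [Group L] [TopologicalSpace L] [Monoid M] [TopologicalSpace M]
    [T1Space M] (ρ : L →* M) (hρ : Continuous ρ) : IsClosed (ρ.ker : Set L) := by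
  have : (ρ.ker : Set L) = ρ ⁻¹' {1} := by
    ext x; simp [MonoidHom.mem_ker]
  rw [this]
  exact isClosed_singleton.preimage hρ

theorem exists_chars_sub (A : Subgroup K) (hc : ∀ a ∈ A, ∀ b ∈ A, a * b = b * a)
    (ρ : K →* (E →L[ℂ] E)) (hρ : IsRep ρ) :
    ∃ (J : Type) (_ : Finite J) (χ : J → (A →* Circle)), (∀ j, Continuous (χ j)) ∧
      ∀ a : A, ρ a = 1 ↔ ∀ j, χ j a = 1 :=
  exists_chars (L := A) (fun a b => Subtype.ext (hc a a.2 b b.2)) (ρ.comp A.subtype)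
    ⟨hρ.1.comp continuous_subtype_val, fun g => hρ.2 g⟩

/-- The elements of `A` whose image under each representation `ρ` is killed by `m ρ`. -/
def Tm (A : Subgroup K) (hc : ∀ a ∈ A, ∀ b ∈ A, a * b = b * a)
    (m : (K →* (E →L[ℂ] E)) → ℕ) : Subgroup K where
  carrier := {y | y ∈ A ∧ ∀ ρ : K →* (E →L[ℂ] E), IsRep ρ → ρ (y ^ m ρ) = 1}
  mul_mem' := by
    rintro a b ⟨ha, ha'⟩ ⟨hb, hb'⟩
    refine ⟨A.mul_mem ha hb, fun ρ hρ => ?_⟩
    have h : Commute a b := hc a ha b hb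
    rw [h.mul_pow, map_mul, ha' ρ hρ, hb' ρ hρ, one_mul]
  one_mem' := ⟨A.one_mem, fun ρ _ => by rw [one_pow, map_one]⟩
  inv_mem' := by
    rintro a ⟨ha, ha'⟩
    refine ⟨A.inv_mem ha, fun ρ hρ => ?_⟩
    have h1 : a ^ m ρ ∈ ρ.ker := ha' ρ hρ
    rw [inv_pow]
    exact ρ.ker.inv_mem h1

theorem Tm_normal {A : Subgroup K} (hn : A.Normal) (hc : ∀ a ∈ A, ∀ b ∈ A, a * b = b * a)
    (m : (K →* (E →L[ℂ] E)) → ℕ) : (Tm A hc m).Normal := by
  refine ⟨?_⟩
  rintro a ⟨ha, ha'⟩ g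
  refine ⟨hn.conj_mem a ha g, fun ρ hρ => ?_⟩
  have h1 : a ^ m ρ ∈ ρ.ker := ha' ρ hρ
  rw [conj_pow]
  exact (MonoidHom.normal_ker ρ).conj_mem _ h1 g

theorem Tm_closed {A : Subgroup K} (hA : IsClosed (A : Set K))
    (hc : ∀ a ∈ A, ∀ b ∈ A, a * b = b * a)
    (m : (K →* (E →L[ℂ] E)) → ℕ) : IsClosed (Tm A hc m : Set K) := by
  have : (Tm A hc m : Set K) =
      (A : Set K) ∩ ⋂ ρ : K →* (E →L[ℂ] E), ⋂ _ : IsRep ρ, {y | ρ (y ^ m ρ) = 1} := by
    ext y
    simp only [Set.mem_inter_iff, Set.mem_iInter, SetLike.mem_coe]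
    rfl
  rw [this]
  refine hA.inter (isClosed_iInter fun ρ => isClosed_iInter fun hρ => ?_)
  exact isClosed_eq (hρ.1.comp (continuous_pow _)) continuous_const

theorem Tm_finite {G A : Subgroup K} (hE : Ess G) (hS : Sep K E) (hG : ¬ Good G) (hn : A.Normal)
    (hA : IsClosed (A : Set K)) (hc : ∀ a ∈ A, ∀ b ∈ A, a * b = b * a)
    (m : (K →* (E →L[ℂ] E)) → ℕ) (hm : ∀ ρ, 0 < m ρ) : (Tm A hc m : Set K).Finite := by
  by_contra hinf
  refine hG (good_of_resFin hE (Tm_normal hn hc m) (Tm_closed hA hc m) hinf ?_)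
  intro x hx hx1
  obtain ⟨ρ, hρ, hρx⟩ := hS x hx1
  refine ⟨ρ.ker, MonoidHom.normal_ker ρ, ker_closed ρ hρ.1, hρx, ?_⟩
  obtain ⟨J, hJ, χ, -, hχ⟩ := exists_chars_sub A hc ρ hρ
  have hle : Tm A hc m ≤ A := fun y hy => hy.1
  have hker : ρ.ker.subgroupOf A = (MonoidHom.pi χ).ker := by
    ext a
    rw [Subgroup.mem_subgroupOf, MonoidHom.mem_ker, MonoidHom.mem_ker, hχ, funext_iff]
    rfl
  rw [← Subgroup.relIndex_subgroupOf hle, hker, Subgroup.relIndex_ker]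
  have hfin : ((((Tm A hc m).subgroupOf A).map (MonoidHom.pi χ) : Subgroup (J → Circle)) :
      Set (J → Circle)).Finite := by
    refine (Set.Finite.pi' (fun _ : J => circle_roots_finite (hm ρ))).subset ?_
    rintro _ ⟨a, ha, rfl⟩ j
    have h1 : ρ ((a ^ m ρ : A) : K) = 1 := ha.2 ρ hρ
    have h2 := (hχ _).mp h1 j
    rw [map_pow] at h2
    exact h2
  haveI := hfin.to_subtype
  exact (Nat.card_pos (α := (((Tm A hc m).subgroupOf A).map (MonoidHom.pi χ)))).ne'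

theorem finOrder_of_locTors {G A : Subgroup K} (hE : Ess G) (hS : Sep K E) (hG : ¬ Good G)
    (hn : A.Normal) (hA : IsClosed (A : Set K)) (hc : ∀ a ∈ A, ∀ b ∈ A, a * b = b * a)
    (x : A) (hx : ∀ φ : A →* Circle, Continuous φ → IsOfFinOrder (φ x)) :
    IsOfFinOrder (x : K) := by
  have h1 : ∀ ρ : K →* (E →L[ℂ] E), ∃ n : ℕ, 0 < n ∧ (IsRep ρ → ρ ((x : K) ^ n) = 1) := by
    intro ρ
    by_cases hρ : IsRep ρ
    · obtain ⟨J, hJ, χ, hχc, hχ⟩ := exists_chars_sub A hc ρ hρ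
      have h2 : IsOfFinOrder (MonoidHom.pi χ x) := IsOfFinOrder.pi fun j => hx _ (hχc j)
      obtain ⟨n, hn0, hn1⟩ := isOfFinOrder_iff_pow_eq_one.mp h2
      refine ⟨n, hn0, fun _ => (hχ (x ^ n)).mpr fun j => ?_⟩
      rw [map_pow]
      exact congrFun hn1 j
    · exact ⟨1, one_pos, fun h => absurd h hρ⟩
  choose m hm using h1
  have h2 := Tm_finite hE hS hG hn hA hc m fun ρ => (hm ρ).1
  haveI : Finite (Tm A hc m) := h2.to_subtype
  have h3 : IsOfFinOrder (⟨x, x.2, fun ρ => (hm ρ).2⟩ : Tm A hc m) := isOfFinOrder_of_finite _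
  exact (Tm A hc m).subtype.isOfFinOrder h3

theorem exists_tors {G A : Subgroup K} (hE : Ess G) (hS : Sep K E) (hG : ¬ Good G)
    (hn : A.Normal) (hA : IsClosed (A : Set K)) (hc : ∀ a ∈ A, ∀ b ∈ A, a * b = b * a)
    (B : Subgroup K) (hB : IsClosed (B : Set K)) (hBA : B ≤ A) (hne : B ≠ ⊥) :
    ∃ x ∈ B, x ≠ 1 ∧ IsOfFinOrder x := by
  haveI : CompactSpace A := isCompact_iff_compactSpace.mp hA.isCompact
  obtain ⟨b, hb, hb1⟩ := (Subgroup.bot_or_exists_ne_one B).resolve_left hne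
  obtain ⟨ρ, hρ, hρb⟩ := hS b hb1
  obtain ⟨J, hJ, χ, hχc, hχ⟩ := exists_chars_sub A hc ρ hρ
  have h1 : ∃ j, χ j ⟨b, hBA hb⟩ ≠ 1 := by
    by_contra hcon
    push Not at hcon
    exact hρb ((hχ ⟨b, hBA hb⟩).mpr hcon)
  obtain ⟨j, hj⟩ := h1
  have hB' : IsClosed ((B.subgroupOf A : Subgroup A) : Set A) :=
    hB.preimage continuous_subtype_val
  have h2 : ∃ z ∈ (B.subgroupOf A).map (χ j), z ≠ 1 ∧ IsOfFinOrder z := by
    by_cases hfin : (((B.subgroupOf A).map (χ j) : Subgroup Circle) : Set Circle).Finite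
    · haveI : Finite ((B.subgroupOf A).map (χ j)) := hfin.to_subtype
      have hmem : χ j ⟨b, hBA hb⟩ ∈ (B.subgroupOf A).map (χ j) := ⟨⟨b, hBA hb⟩, hb, rfl⟩
      have h3 : IsOfFinOrder (⟨_, hmem⟩ : (B.subgroupOf A).map (χ j)) := isOfFinOrder_of_finite _
      exact ⟨_, hmem, hj, ((B.subgroupOf A).map (χ j)).subtype.isOfFinOrder h3⟩
    · rw [circle_subgroup _ (map_closed (χ j) (hχc j) _ hB') hfin]
      obtain ⟨z, hz⟩ := circle_exists_order Nat.prime_two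
      refine ⟨z, Subgroup.mem_top _, ?_, orderOf_pos_iff.mp (by omega)⟩
      rintro rfl
      rw [orderOf_one] at hz
      omega
  obtain ⟨z, hz, hz1, hzf⟩ := h2
  obtain ⟨x, hx, hx1, -, hx3⟩ := exists_locTors (χ j) (hχc j) _ hB' z hz hz1 hzf
  refine ⟨x, hx, ?_, finOrder_of_locTors hE hS hG hn hA hc x hx3⟩
  intro h0
  apply hx1
  have : x = 1 := Subtype.ext h0
  rw [this, map_one]

theorem exists_sep_chars {G A : Subgroup K} (hE : Ess G) (hS : Sep K E) (hG : ¬ Good G)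
    (hn : A.Normal) (hA : IsClosed (A : Set K)) (hc : ∀ a ∈ A, ∀ b ∈ A, a * b = b * a) :
    ∃ (J : Type) (_ : Finite J) (χ : J → (A →* Circle)), (∀ j, Continuous (χ j)) ∧
      ∀ a : A, (∀ j, χ j a = 1) → a = 1 := by
  have hcount : {y : K | y ∈ A ∧ IsOfFinOrder y}.Countable := by
    have h1 : (⋃ n : ℕ, (Tm (E := E) A hc (fun _ => n + 1) : Set K)).Countable :=
      Set.countable_iUnion fun n =>
        (Tm_finite hE hS hG hn hA hc _ fun _ => Nat.succ_pos n).countable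
    refine h1.mono ?_
    rintro y ⟨hy, hyf⟩
    obtain ⟨n, hn0, hn1⟩ := isOfFinOrder_iff_pow_eq_one.mp hyf
    refine Set.mem_iUnion.mpr ⟨n - 1, hy, fun ρ _ => ?_⟩
    rw [Nat.sub_add_cancel hn0, hn1, map_one]
  obtain ⟨f, hf⟩ := hcount.exists_eq_range ⟨1, A.one_mem, IsOfFinOrder.one⟩
  have h2 : ∀ i, ∃ ρ : K →* (E →L[ℂ] E), IsRep ρ ∧ (f i ≠ 1 → ρ (f i) ≠ 1) := by
    intro i
    by_cases h : f i = 1
    · exact ⟨1, ⟨continuous_const, fun _ => one_mem _⟩, fun h' => absurd h h'⟩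
    · obtain ⟨ρ, h1, h2⟩ := hS _ h
      exact ⟨ρ, h1, fun _ => h2⟩
  choose ρ hρ using h2
  let B : ℕ → Subgroup K := fun j => A ⊓ ⨅ i : Fin j, (ρ i).ker
  have hBmem : ∀ j x, x ∈ B j ↔ x ∈ A ∧ ∀ i : Fin j, ρ i x = 1 := by
    intro j x
    simp [B, Subgroup.mem_iInf, MonoidHom.mem_ker]
  have h3 : ∃ j, B j = ⊥ := by
    by_contra hcon
    push Not at hcon
    refine hG (good_of_chain hE B (fun j => ⟨fun x hx g => ?_⟩) (fun j => ?_) ?_ hcon ?_)
    · rw [hBmem] at hx ⊢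
      exact ⟨hn.conj_mem x hx.1 g, fun i => (MonoidHom.normal_ker (ρ i)).conj_mem x (hx.2 i) g⟩
    · simp only [B, Subgroup.coe_inf, Subgroup.coe_iInf]
      exact hA.inter (isClosed_iInter fun i => ker_closed _ (hρ i).1.1)
    · intro i j hij x hx
      rw [hBmem] at hx ⊢
      exact ⟨hx.1, fun k => hx.2 ⟨k, lt_of_lt_of_le k.2 hij⟩⟩
    · intro x hx
      by_contra hx1
      have hC : IsClosed ((A ⊓ ⨅ i : ℕ, (ρ i).ker : Subgroup K) : Set K) := by
        simp only [Subgroup.coe_inf, Subgroup.coe_iInf]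
        exact hA.inter (isClosed_iInter fun i => ker_closed _ (hρ i).1.1)
      have hxC : x ∈ (A ⊓ ⨅ i : ℕ, (ρ i).ker : Subgroup K) := by
        refine ⟨((hBmem 0 x).mp (hx 0)).1, ?_⟩
        show x ∈ (⨅ i : ℕ, (ρ i).ker : Subgroup K)
        rw [Subgroup.mem_iInf]
        exact fun i => ((hBmem (i + 1) x).mp (hx (i + 1))).2 ⟨i, Nat.lt_succ_self i⟩
      obtain ⟨y, hy, hy1, hyf⟩ := exists_tors hE hS hG hn hA hc _ hC inf_le_left
        (fun h0 => hx1 (by rw [h0] at hxC; exact Subgroup.mem_bot.mp hxC))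
      have hy2 : y ∈ Set.range f := hf ▸ (⟨hy.1, hyf⟩ : y ∈ {y : K | y ∈ A ∧ IsOfFinOrder y})
      obtain ⟨i, rfl⟩ := hy2
      have hy3 : f i ∈ (⨅ i : ℕ, (ρ i).ker : Subgroup K) := hy.2
      exact (hρ i).2 hy1 (Subgroup.mem_iInf.mp hy3 i)
  obtain ⟨j, hj⟩ := h3
  choose J hJ χ hχc hχ using fun i : Fin j => exists_chars_sub A hc (ρ i) (hρ i).1
  refine ⟨Σ i, J i, inferInstance, fun p => χ p.1 p.2, fun p => hχc p.1 p.2, fun a ha => ?_⟩
  have h4 : (a : K) ∈ B j := (hBmem j a).mpr ⟨a.2, fun i => (hχ i a).mpr fun k => ha ⟨i, k⟩⟩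
  rw [hj] at h4
  exact Subtype.ext (Subgroup.mem_bot.mp h4)

theorem good_of_abelian {G A : Subgroup K} (hE : Ess G) (hS : Sep K E)
    (hn : A.Normal) (hA : IsClosed (A : Set K)) (hc : ∀ a ∈ A, ∀ b ∈ A, a * b = b * a)
    (hinf : (A : Set K).Infinite) : Good G := by
  by_contra hG
  haveI : CompactSpace A := isCompact_iff_compactSpace.mp hA.isCompact
  obtain ⟨J, hJ, χ, hχc, hχ⟩ := exists_sep_chars hE hS hG hn hA hc
  have hinj : Function.Injective (MonoidHom.pi χ) := by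
    rw [injective_iff_map_eq_one]
    intro a ha
    exact hχ a fun j => congrFun ha j
  refine hG (good_of_firstCountable A hA (MonoidHom.pi χ) (continuous_pi hχc) hinj ?_)
  intro hfin
  haveI : Finite (G ⊓ A : Subgroup K) := hfin.to_subtype
  obtain ⟨p, hp1, hp⟩ := Nat.exists_infinite_primes (Nat.card (G ⊓ A : Subgroup K) + 1)
  haveI : Fact p.Prime := ⟨hp⟩
  have h1 : Tm (E := E) A hc (fun _ => p) = ⊥ := by
    by_contra hne
    obtain ⟨g, hg1, hg2, hg3⟩ := hE _ (Tm_normal hn hc _) (Tm_closed hA hc _) hne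
    have h2 : g ^ p = 1 := by
      by_contra h3
      obtain ⟨ρ, hρ, hρ'⟩ := hS _ h3
      exact hρ' (hg2.2 ρ hρ)
    have h4 : orderOf g = p := orderOf_eq_prime h2 hg3
    have h5 := (G ⊓ A).orderOf_dvd_natCard (x := g) ⟨hg1, hg2.1⟩
    rw [h4] at h5
    have h6 := Nat.le_of_dvd Nat.card_pos h5
    omega
  have h2 : ∃ j, (((⊤ : Subgroup A).map (χ j) : Subgroup Circle) : Set Circle).Infinite := by
    by_contra hcon
    push Not at hcon
    apply hinf
    have h3 : (Set.univ : Set A).Finite := by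
      refine Set.Finite.of_finite_image (f := MonoidHom.pi χ) ?_ hinj.injOn
      refine (Set.Finite.pi' hcon).subset ?_
      rintro _ ⟨a, -, rfl⟩ j
      exact ⟨a, Subgroup.mem_top _, rfl⟩
    haveI : Finite A := Set.finite_univ_iff.mp h3
    exact Set.toFinite _
  obtain ⟨j, hj⟩ := h2
  have h3 := circle_subgroup _ (map_closed (χ j) (hχc j) ⊤ (by simp)) hj
  obtain ⟨z, hz⟩ := circle_exists_order hp
  have hz1 : z ≠ 1 := by
    rintro rfl
    rw [orderOf_one] at hz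
    exact hp.one_lt.ne hz
  obtain ⟨x, -, hx1, hx2, hx3⟩ := exists_locTors (χ j) (hχc j) ⊤ (by simp) z
    (h3 ▸ Subgroup.mem_top _) hz1 (orderOf_pos_iff.mp (hz ▸ hp.pos))
  have h4 : IsOfFinOrder (x : K) := finOrder_of_locTors hE hS hG hn hA hc x hx3
  have h5 : orderOf (χ j x) = p := by
    apply orderOf_eq_prime _ hx1
    apply orderOf_dvd_iff_pow_eq_one.mp
    rw [← hz]
    exact orderOf_dvd_of_mem_zpowers hx2
  have h6 : p ∣ orderOf (x : K) := by
    rw [Subgroup.orderOf_coe, ← h5]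
    exact orderOf_map_dvd _ _
  have h7 : orderOf ((x : K) ^ (orderOf (x : K) / p)) = p :=
    orderOf_pow_orderOf_div h4.orderOf_pos.ne' h6
  have h8 : (x : K) ^ (orderOf (x : K) / p) ∈ Tm (E := E) A hc (fun _ => p) := by
    refine ⟨A.pow_mem x.2 _, fun ρ _ => ?_⟩
    have := pow_orderOf_eq_one ((x : K) ^ (orderOf (x : K) / p))
    rw [h7] at this
    rw [this, map_one]
  rw [h1, Subgroup.mem_bot] at h8
  rw [h8, orderOf_one] at h7
  exact hp.one_lt.ne h7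

end Pool.Agent.H288Z.MG
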