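import Mathlib

set_option autoImplicit false
set_option linter.unusedSectionVars false
set_option linter.style.haveILetI false

/-!
Uncountable abelian groups contain uncountable independent families; two algebraic consequences
for families of subgroups with a countable intersection property.
-/

namespace Pool.Agent.H288Z.MG

variable {X : Type} [AddCommGroup X]

theorem countable_span {s : Set X} (hs : s.Countable) :
    ((Submodule.span ℤ s : Submodule ℤ X) : Set X).Countable := by
  haveI : Countable s := hs.to_subtype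
  have h : Countable (Submodule.span ℤ (Set.range (Subtype.val : s → X))) := inferInstance
  rw [Subtype.range_coe] at h
  exact Set.countable_coe_iff.mp h

theorem countable_of_fibres {T : Type} [AddCommGroup T] (φ : X →ₗ[ℤ] T) {s : Set T}
    (hs : s.Countable) (hk : {x | φ x = 0}.Countable) : (φ ⁻¹' s).Countable := by
  have h1 : φ ⁻¹' s = ⋃ t ∈ s, {x | φ x = t} := by
    ext x; simp
  rw [h1]
  refine hs.biUnion fun t _ => ?_
  rcases Set.eq_empty_or_nonempty {x | φ x = t} with h | ⟨x₀, hx₀⟩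
  · rw [h]; exact Set.countable_empty
  · refine Set.Countable.mono ?_ (hk.image fun x => x + x₀)
    intro x hx
    refine ⟨x - x₀, ?_, sub_add_cancel _ _⟩
    show φ (x - x₀) = 0
    rw [map_sub, hx, hx₀, sub_self]

theorem countable_of_essential {F : Type} [Fintype F] (σ : F → X →ₗ[ℤ] X) (S : Submodule ℤ X)
    (hS : (S : Set X).Countable)
    (hE : ∀ x : X, x ≠ 0 → ¬ Disjoint (Submodule.span ℤ (Set.range fun f => σ f x)) S) :
    Countable X := by
  let act : (F → ℤ) → X →ₗ[ℤ] X := fun r => ∑ f, r f • σ f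
  have hact : ∀ r x, act r x = Fintype.linearCombination ℤ (fun f => σ f x) r := by
    intro r x
    simp [act, Fintype.linearCombination_apply]
  have key : ∀ J : Submodule ℤ (F → ℤ), {x : X | ∀ r ∈ J, act r x ∈ S}.Countable := by
    intro J
    induction J using WellFoundedGT.induction with
    | ind J ih =>
      obtain ⟨n, g, hg⟩ := Submodule.fg_iff_exists_fin_generating_family.mp
        (IsNoetherian.noetherian J)
      let φ : X →ₗ[ℤ] (Fin n → X) := LinearMap.pi fun j => act (g j)
      have h1 : {x | φ x = 0}.Countable := by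
        have h2 : ({0} ∪ ⋃ r : {r // r ∉ J},
            {x : X | ∀ r' ∈ J ⊔ Submodule.span ℤ {r.1}, act r' x ∈ S}).Countable := by
          refine (Set.countable_singleton _).union (Set.countable_iUnion fun r => ih _ ?_)
          refine lt_of_le_of_ne le_sup_left fun h => r.2 ?_
          exact h.ge (Submodule.mem_sup_right (Submodule.mem_span_singleton_self _))
        refine h2.mono fun x hx => ?_
        by_cases hx0 : x = 0
        · exact Or.inl hx0
        have h3 : J ≤ LinearMap.ker (Fintype.linearCombination ℤ fun f => σ f x) := by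
          rw [← hg, Submodule.span_le]
          rintro _ ⟨j, rfl⟩
          have h4 : act (g j) x = 0 := congrFun hx j
          rwa [hact] at h4
        have h4 := hE x hx0
        rw [Submodule.disjoint_def] at h4
        push Not at h4
        obtain ⟨y, hy1, hy2, hy3⟩ := h4
        rw [← Fintype.range_linearCombination] at hy1
        obtain ⟨r, rfl⟩ := hy1
        refine Or.inr (Set.mem_iUnion.mpr ⟨⟨r, fun h => hy3 (h3 h)⟩, fun r' hr' => ?_⟩)
        have h5 : J ⊔ Submodule.span ℤ {r} ≤
            S.comap (Fintype.linearCombination ℤ fun f => σ f x) := by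
          refine sup_le (fun a ha => ?_) ((Submodule.span_singleton_le_iff_mem _ _).mpr hy2)
          have h6 : Fintype.linearCombination ℤ (fun f => σ f x) a = 0 := h3 ha
          show Fintype.linearCombination ℤ (fun f => σ f x) a ∈ S
          rw [h6]
          exact S.zero_mem
        rw [hact]
        exact h5 hr'
      refine (countable_of_fibres φ (Set.countable_pi (fun _ : Fin n => hS)) h1).mono ?_
      intro x hx j
      exact hx _ (hg ▸ Submodule.subset_span ⟨j, rfl⟩)
  have h := key ⊥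
  rw [← Set.countable_univ_iff]
  refine Set.Countable.mono ?_ h
  intro x _ r hr
  rw [(Submodule.mem_bot _).mp hr, hact, map_zero]
  exact S.zero_mem

theorem exists_indep [Uncountable X] {F : Type} [Fintype F] (σ : F → X →ₗ[ℤ] X) (f₀ : F)
    (h₀ : ∀ x, σ f₀ x = x) :
    ∃ (I : Type) (_ : Uncountable I) (x : I → X), (∀ i, x i ≠ 0) ∧
      iSupIndep fun i => Submodule.span ℤ (Set.range fun f => σ f (x i)) := by
  let Y : X → Submodule ℤ X := fun x => Submodule.span ℤ (Set.range fun f => σ f x)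
  have hz := zorn_subset
    (S := {s : Set (Submodule ℤ X) | sSupIndep s ∧ ∀ a ∈ s, ∃ x, x ≠ 0 ∧ Y x = a})
    fun c hc1 hc2 => ⟨⋃₀ c, ⟨iSupIndep_sUnion_of_directed hc2.directedOn fun s hs => (hc1 hs).1,
      fun a ⟨s, sc, as⟩ => (hc1 sc).2 a as⟩, fun _ => Set.subset_sUnion_of_mem⟩
  simp_rw [maximal_subset_iff] at hz
  obtain ⟨s, ⟨hs1, hs2⟩, hs3⟩ := hz
  choose x hx using fun a : s => hs2 a.1 a.2
  refine ⟨s, ?_, x, fun i => (hx i).1, ?_⟩
  · rw [← not_countable_iff]
    intro hc
    refine not_countable (α := X) (countable_of_essential σ (sSup s) ?_ fun y hy hdis => ?_)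
    · have h1 : (⋃ a : s, Set.range fun f => σ f (x a)).Countable :=
        Set.countable_iUnion fun a => Set.countable_range _
      refine (countable_span h1).mono ?_
      show sSup s ≤ Submodule.span ℤ _
      refine sSup_le fun a ha => ?_
      refine (hx ⟨a, ha⟩).2.ge.trans ?_
      exact Submodule.span_mono (Set.subset_iUnion (fun a : s => Set.range fun f => σ f (x a)) _)
    · have h1 : s = s ∪ {Y y} := by
        refine hs3 ⟨fun a ha => ?_, fun a ha => ?_⟩ Set.subset_union_left
        · rw [Set.mem_union, Set.mem_singleton_iff] at ha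
          obtain rfl | hne := eq_or_ne a (Y y)
          · simp only [Set.mem_singleton, Set.insert_sdiff_of_mem, Set.union_singleton]
            exact hdis.mono_right (sSup_le_sSup Set.sdiff_subset)
          · have h : (s ∪ {Y y}) \ {a} = s \ {a} ∪ {Y y} := by
              simp only [Set.union_singleton]
              rw [Set.insert_sdiff_of_notMem]
              rw [Set.mem_singleton_iff]
              exact Ne.symm hne
            rw [h, sSup_union, sSup_singleton]
            apply (hs1 (ha.resolve_right hne)).disjoint_sup_right_of_disjoint_sup_left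
              (hdis.mono_right _).symm
            rw [← sSup_insert, Set.insert_sdiff_singleton,
              Set.insert_eq_of_mem (ha.resolve_right hne)]
        · rcases ha with ha | ha
          · exact hs2 a ha
          · exact ⟨y, hy, ha.symm⟩
      have h2 : Y y ∈ s := by
        rw [h1]
        exact Or.inr rfl
      have h3 : y ∈ Y y := Submodule.subset_span ⟨f₀, h₀ y⟩
      exact hy (Submodule.disjoint_def.mp hdis y h3 (le_sSup h2 h3))
  · have h1 : (fun i : s => Submodule.span ℤ (Set.range fun f => σ f (x i))) = Subtype.val :=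
      funext fun i => (hx i).2
    rw [h1]
    exact (sSupIndep_iff s).mp hs1

theorem exists_extension {I Q : Type} [AddCommGroup Q]
    (hQ : ∀ n : ℤ, n ≠ 0 → ∀ q : Q, ∃ q', n • q' = q) (Y : I → Submodule ℤ X) (hY : iSupIndep Y)
    (x : I → X) (hx : ∀ i, x i ∈ Y i) (e : I → Q) (he : ∀ i (n : ℤ), n • x i = 0 → n • e i = 0) :
    ∃ h : X →ₗ[ℤ] Q, ∀ i, h (x i) = e i := by
  letI : DivisibleBy Q ℤ := divisibleByOfSMulRightSurj Q ℤ fun {n} hn q => hQ n hn q
  let φ := Finsupp.linearCombination ℤ x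
  let ψ := Finsupp.linearCombination ℤ e
  have hker : LinearMap.ker φ ≤ LinearMap.ker ψ := by
    intro c hc
    have h1 := (iSupIndep_iff_finsetSum_eq_zero_imp_eq_zero Y).mp hY c.support
      (fun i => c i • x i) (fun i _ => (Y i).smul_mem _ (hx i)) hc
    exact Finset.sum_eq_zero fun i hi => he i _ (h1 i hi)
  obtain ⟨h, hh⟩ := (Module.Baer.of_divisible Q).extension_property
    ((LinearMap.ker φ).liftQ φ le_rfl)
    (LinearMap.ker_eq_bot.mp (Submodule.ker_liftQ_eq_bot _ _ _ le_rfl))
    ((LinearMap.ker φ).liftQ ψ hker)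
  refine ⟨h, fun i => ?_⟩
  have h1 := LinearMap.congr_fun hh (Submodule.Quotient.mk (Finsupp.single i 1))
  simpa [φ, ψ] using h1

/-- Every member of `𝓛` that contains an intersection of members of `𝓛` contains an intersection
of countably many of them. -/
def CT (𝓛 : Set (Submodule ℤ X)) : Prop :=
  ∀ B ⊆ 𝓛, ∀ k ∈ 𝓛, sInf B ≤ k → ∃ B₀ ⊆ B, B₀.Countable ∧ sInf B₀ ≤ k

theorem countable_of_td {F : Type} [Fintype F] (σ : F → X →ₗ[ℤ] X) (f₀ : F)
    (h₀ : ∀ x, σ f₀ x = x) (hσ : ∀ f g, ∃ h, ∀ x, σ f (σ g x) = σ h x)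
    (𝓛 : Set (Submodule ℤ X)) (hCT : CT 𝓛)
    (hTD : ∀ Y : Submodule ℤ X, (∀ f, ∀ y ∈ Y, σ f y ∈ Y) → ∀ x, x ∉ Y →
      ∃ k ∈ 𝓛, Y ≤ k ∧ x ∉ k) : Countable X := by
  by_contra hX
  haveI : Uncountable X := not_countable_iff.mp hX
  obtain ⟨I, hI, x, hx0, hind⟩ := exists_indep σ f₀ h₀
  let Y : I → Submodule ℤ X := fun i => Submodule.span ℤ (Set.range fun f => σ f (x i))
  have hxY : ∀ i, x i ∈ Y i := fun i => Submodule.subset_span ⟨f₀, h₀ _⟩
  have hYinv : ∀ i f, Y i ≤ (Y i).comap (σ f) := by
    intro i f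
    refine Submodule.span_le.mpr ?_
    rintro _ ⟨g, rfl⟩
    obtain ⟨h, hh⟩ := hσ f g
    exact Submodule.subset_span ⟨h, (hh _).symm⟩
  have h1 : ∀ k ∈ 𝓛, {i | ¬ Y i ≤ k}.Countable := by
    intro k hk
    obtain ⟨B₀, hB1, hB2, hB3⟩ := hCT {k ∈ 𝓛 | {i | ¬ Y i ≤ k}.Countable} (fun _ h => h.1) k hk (by
      intro y hy
      by_cases hy0 : y = 0
      · rw [hy0]; exact k.zero_mem
      exfalso
      have h2 : ∃ S : Set I, S.Countable ∧ y ∉ ⨆ i ∈ Sᶜ, Y i := by
        by_cases h3 : y ∈ ⨆ i, Y i
        · obtain ⟨S, hS⟩ := Submodule.exists_finset_of_mem_iSup Y h3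
          exact ⟨S, S.countable_toSet, fun h4 => hy0 (Submodule.disjoint_def.mp
            (hind.disjoint_biSup_biSup (disjoint_compl_right (a := (S : Set I)))) y hS h4)⟩
        · exact ⟨∅, Set.countable_empty, fun h4 => h3 ((iSup₂_le fun i _ => le_iSup Y i :
            ⨆ i ∈ (∅ : Set I)ᶜ, Y i ≤ ⨆ i, Y i) h4)⟩
      obtain ⟨S, hS1, hS2⟩ := h2
      obtain ⟨k', hk1, hk2, hk3⟩ := hTD _ (fun f => iSup₂_le (a := (⨆ i ∈ Sᶜ, Y i).comap (σ f))
        fun i hi => (hYinv i f).trans (Submodule.comap_mono (le_iSup₂_of_le i hi le_rfl))) y hS2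
      refine hk3 (Submodule.mem_sInf.mp hy k' ⟨hk1, Set.Countable.mono (fun i hi => ?_) hS1⟩)
      by_contra hiS
      exact hi ((le_iSup₂_of_le i hiS le_rfl).trans hk2))
    refine (hB2.biUnion fun b hb => (hB1 hb).2).mono fun i hi => ?_
    by_contra hcon
    refine hi ((le_sInf fun b hb => ?_).trans hB3)
    by_contra h4
    exact hcon (Set.mem_biUnion hb h4)
  choose c hc using fun i => CharacterModule.exists_character_apply_ne_zero_of_ne_zero (hx0 i)
  obtain ⟨d, hd⟩ := exists_extension (Q := AddCircle (1 : ℚ))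
    (fun n hn q => ⟨DivisibleBy.div q n, DivisibleBy.div_cancel q hn⟩) Y hind x hxY
    (fun i => c i (x i)) fun i n hn => by rw [← map_zsmul, hn, map_zero]
  let D : X →ₗ[ℤ] (F → AddCircle (1 : ℚ)) := LinearMap.pi fun f => d.comp (σ f)
  have hDinv : ∀ f, ∀ y ∈ LinearMap.ker D, σ f y ∈ LinearMap.ker D := by
    intro f y hy
    refine funext fun g => ?_
    obtain ⟨h, hh⟩ := hσ g f
    show d (σ g (σ f y)) = 0
    rw [hh]
    exact congrFun hy h
  let T := {t : F → AddCircle (1 : ℚ) // t ≠ 0 ∧ ∃ y, D y = t}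
  have h2 : ∀ t : T, ∃ k ∈ 𝓛, LinearMap.ker D ≤ k ∧ ∀ y, D y = t.1 → y ∉ k := by
    rintro ⟨t, ht0, y, rfl⟩
    obtain ⟨k, hk1, hk2, hk3⟩ := hTD _ hDinv y ht0
    refine ⟨k, hk1, hk2, fun z hz hzk => hk3 ?_⟩
    have h3 : y - z ∈ k := hk2 (by rw [LinearMap.mem_ker, map_sub, hz, sub_self])
    simpa using k.add_mem h3 hzk
  choose k hk using h2
  haveI : Countable (AddCircle (1 : ℚ)) := QuotientAddGroup.mk_surjective.countable
  have h3 : (⋃ t : T, {i | ¬ Y i ≤ k t}).Countable :=
    Set.countable_iUnion fun t => h1 _ (hk t).1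
  have h4 : ∃ i, i ∉ ⋃ t : T, {i | ¬ Y i ≤ k t} := by
    by_contra hcon
    push Not at hcon
    exact Set.not_countable_univ (h3.mono fun i _ => hcon i)
  obtain ⟨i, hi⟩ := h4
  have h5 : D (x i) ≠ 0 := by
    intro h
    have h6 : d (σ f₀ (x i)) = 0 := congrFun h f₀
    rw [h₀, hd] at h6
    exact hc i h6
  refine hi (Set.mem_iUnion.mpr ⟨⟨_, h5, x i, rfl⟩, fun h6 => ?_⟩)
  exact (hk ⟨_, h5, x i, rfl⟩).2.2 (x i) rfl (h6 (hxY i))

end Pool.Agent.H288Z.MG
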