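import Mathlib

set_option autoImplicit false
set_option linter.unusedSectionVars false

/-!
Basic tools for finding a non-trivial sequence converging to the identity inside an essential
subgroup of a compact group.
-/

namespace Pool.Agent.H288Z.MG

open Filter Topology

variable {K : Type} [Group K] [TopologicalSpace K] [IsTopologicalGroup K] [CompactSpace K]
  [T2Space K]

/-- `G` contains a sequence of non-identity elements converging to the identity. -/
def Good (G : Subgroup K) : Prop :=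
  ∃ u : ℕ → K, (∀ n, u n ∈ G) ∧ (∀ n, u n ≠ 1) ∧ Tendsto u atTop (𝓝 1)

/-- `G` meets every non-trivial closed normal subgroup non-trivially. -/
def Ess (G : Subgroup K) : Prop :=
  ∀ N : Subgroup K, N.Normal → IsClosed (N : Set K) → N ≠ ⊥ → ∃ g, g ∈ G ∧ g ∈ N ∧ g ≠ 1

theorem good_of_chain {G : Subgroup K} (hE : Ess G) (N : ℕ → Subgroup K)
    (hn : ∀ i, (N i).Normal) (hc : ∀ i, IsClosed (N i : Set K)) (hanti : Antitone N)
    (hne : ∀ i, N i ≠ ⊥) (hinf : ∀ x, (∀ i, x ∈ N i) → x = 1) : Good G := by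
  choose u hu using fun i => hE (N i) (hn i) (hc i) (hne i)
  refine ⟨u, fun n => (hu n).1, fun n => (hu n).2.2, ?_⟩
  apply isCompact_univ.tendsto_nhds_of_unique_mapClusterPt (Eventually.of_forall fun _ => trivial)
  intro x _ hx
  apply hinf
  intro i
  have h1 : ∀ᶠ n in atTop, u n ∈ (N i : Set K) := by
    filter_upwards [eventually_ge_atTop i] with n hn'
    exact hanti hn' (hu n).2.1
  exact (hc i).mem_of_mapClusterPt hx h1

theorem tendsto_one_of_sep {ι : Type} {Y : Type} [TopologicalSpace Y] [T2Space Y] (y : Y)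
    (e : ι → K → Y) (he : ∀ i, Continuous (e i)) (hsep : ∀ x, (∀ i, e i x = y) → x = 1)
    (u : ℕ → K) (hu : ∀ i, Tendsto (fun n => e i (u n)) atTop (𝓝 y)) :
    Tendsto u atTop (𝓝 1) := by
  apply isCompact_univ.tendsto_nhds_of_unique_mapClusterPt (Eventually.of_forall fun _ => trivial)
  intro x _ hx
  apply hsep
  intro i
  have h1 : MapClusterPt (e i x) atTop (e i ∘ u) := hx.continuousAt_comp (he i).continuousAt
  exact eq_of_nhds_neBot (h1.clusterPt.mono (hu i))

theorem good_of_firstCountable {G : Subgroup K} (A : Subgroup K) (hA : IsClosed (A : Set K))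
    {Y : Type} [TopologicalSpace Y] [T2Space Y] [FirstCountableTopology Y] (e : A → Y)
    (he : Continuous e) (hinj : Function.Injective e)
    (hinf : ((G ⊓ A : Subgroup K) : Set K).Infinite) : Good G := by
  haveI : CompactSpace A := isCompact_iff_compactSpace.mp hA.isCompact
  haveI : FirstCountableTopology A :=
    (he.isClosedEmbedding hinj).isEmbedding.isInducing.firstCountableTopology
  let g0 : ℕ ↪ ((G ⊓ A : Subgroup K) : Set K) := hinf.natEmbedding
  let g : ℕ → A := fun n => ⟨(g0 n : K), (g0 n).2.2⟩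
  have hginj : Function.Injective g := by
    intro m n h
    apply g0.injective
    exact Subtype.ext (congrArg (fun z : A => (z : K)) h)
  obtain ⟨a, φ, hφ, hlim⟩ := CompactSpace.tendsto_subseq g
  have hlim' : Tendsto (fun n => ((g (φ n) : A) : K)) atTop (𝓝 (a : K)) :=
    (continuous_subtype_val.tendsto a).comp hlim
  refine ⟨fun n => ((g (φ n) : A) : K)⁻¹ * ((g (φ (n + 1)) : A) : K), fun n => ?_, fun n => ?_, ?_⟩
  · exact G.mul_mem (G.inv_mem (g0 _).2.1) (g0 _).2.1
  · intro h
    have h1 : g (φ n) = g (φ (n + 1)) := Subtype.ext (inv_mul_eq_one.mp h)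
    have h2 := hφ.injective (hginj h1)
    omega
  · have h2 := hlim'.inv.mul (hlim'.comp (tendsto_add_atTop_nat 1))
    rw [inv_mul_cancel] at h2
    exact h2

theorem exists_min_closed (T : Set K) (𝓕 : Set (Set K)) (hF : ∀ F ∈ 𝓕, IsClosed F)
    (B : Subgroup K) (hB : IsClosed (B : Set K)) (hT : ∀ t ∈ T, ∀ x ∈ B, t * x * t⁻¹ ∈ B)
    (hm : ∀ F ∈ 𝓕, ∃ x ∈ B, x ∈ F) :
    ∃ S : Subgroup K, S ≤ B ∧ IsClosed (S : Set K) ∧ (∀ t ∈ T, ∀ x ∈ S, t * x * t⁻¹ ∈ S) ∧
      (∀ F ∈ 𝓕, ∃ x ∈ S, x ∈ F) ∧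
      ∀ S' : Subgroup K, S' ≤ S → IsClosed (S' : Set K) →
        (∀ t ∈ T, ∀ x ∈ S', t * x * t⁻¹ ∈ S') → (∀ F ∈ 𝓕, ∃ x ∈ S', x ∈ F) → S' = S := by
  let P : Set (Subgroup K)ᵒᵈ := {S | IsClosed ((OrderDual.ofDual S : Subgroup K) : Set K) ∧
    (∀ t ∈ T, ∀ x ∈ (OrderDual.ofDual S : Subgroup K),
      t * x * t⁻¹ ∈ (OrderDual.ofDual S : Subgroup K)) ∧
    (∀ F ∈ 𝓕, ∃ x ∈ (OrderDual.ofDual S : Subgroup K), x ∈ F)}
  have hz := zorn_le_nonempty₀ P ?_ (OrderDual.toDual B) ⟨hB, hT, hm⟩
  · obtain ⟨m, hm1, hm2⟩ := hz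
    refine ⟨OrderDual.ofDual m, hm1, hm2.1.1, hm2.1.2.1, hm2.1.2.2, ?_⟩
    intro S' h1 h2 h3 h4
    have h5 : OrderDual.toDual S' ∈ P := ⟨h2, h3, h4⟩
    exact le_antisymm h1 (hm2.2 h5 h1)
  · intro c hcP hc y hy
    refine ⟨OrderDual.toDual (⨅ S : c, (OrderDual.ofDual S.1 : Subgroup K)), ⟨?_, ?_, ?_⟩, ?_⟩
    · simp only [OrderDual.ofDual_toDual, Subgroup.coe_iInf]
      exact isClosed_iInter fun S => (hcP S.2).1
    · intro t ht x hx
      simp only [OrderDual.ofDual_toDual, Subgroup.mem_iInf] at hx ⊢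
      exact fun S => (hcP S.2).2.1 t ht x (hx S)
    · intro F hFm
      haveI : Nonempty c := ⟨⟨y, hy⟩⟩
      have h1 : (⋂ S : c, (((OrderDual.ofDual S.1 : Subgroup K) : Set K) ∩ F)).Nonempty := by
        apply IsCompact.nonempty_iInter_of_directed_nonempty_isCompact_isClosed
        · intro S1 S2
          rcases hc.total S1.2 S2.2 with h | h
          · exact ⟨S2, Set.inter_subset_inter_left _ h, subset_rfl⟩
          · exact ⟨S1, subset_rfl, Set.inter_subset_inter_left _ h⟩
        · intro S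
          obtain ⟨x, hx1, hx2⟩ := (hcP S.2).2.2 F hFm
          exact ⟨x, hx1, hx2⟩
        · intro S
          exact ((hcP S.2).1.inter (hF F hFm)).isCompact
        · intro S
          exact (hcP S.2).1.inter (hF F hFm)
      obtain ⟨x, hx⟩ := h1
      rw [Set.mem_iInter] at hx
      refine ⟨x, ?_, (hx ⟨y, hy⟩).2⟩
      simp only [OrderDual.ofDual_toDual, Subgroup.mem_iInf]
      exact fun S => (hx S).1
    · intro z hz
      show (⨅ S : c, (OrderDual.ofDual S.1 : Subgroup K)) ≤ OrderDual.ofDual z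
      exact iInf_le (fun S : c => (OrderDual.ofDual S.1 : Subgroup K)) ⟨z, hz⟩

theorem infinite_inf_of_relIndex {L : Type} [Group L] {H N : Subgroup L} (h : H.relIndex N ≠ 0)
    (hN : (N : Set L).Infinite) : ((H ⊓ N : Subgroup L) : Set L).Infinite := by
  intro hfin
  have h1 : Nat.card N = 0 := by
    haveI : Infinite N := hN.to_subtype
    exact Nat.card_eq_zero_of_infinite
  have h2 := (H.subgroupOf N).card_mul_index
  rw [h1] at h2
  rcases Nat.mul_eq_zero.mp h2 with h3 | h3
  · haveI : Finite (H ⊓ N : Subgroup L) := hfin.to_subtype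
    haveI : Finite (H.subgroupOf N) := by
      let f : H.subgroupOf N → (H ⊓ N : Subgroup L) := fun x => ⟨x.1.1, x.2, x.1.2⟩
      refine Finite.of_injective f ?_
      intro x y hxy
      exact Subtype.ext (Subtype.ext (congrArg (fun z : (H ⊓ N : Subgroup L) => (z : L)) hxy))
    exact (Nat.card_pos (α := H.subgroupOf N)).ne' h3
  · exact h h3

theorem ne_bot_of_infinite {L : Type} [Group L] {N : Subgroup L} (hN : (N : Set L).Infinite) :
    N ≠ ⊥ := by
  rintro rfl
  exact hN (by simp)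

theorem centralizer_index {L : Type} [Group L] (F : Subgroup L) [hF : F.Normal]
    (hfin : (F : Set L).Finite) : (Subgroup.centralizer (F : Set L)).index ≠ 0 := by
  haveI : Finite F := hfin.to_subtype
  have h1 : (MulAut.conjNormal : L →* MulAut F).ker ≤ Subgroup.centralizer (F : Set L) := by
    intro x hx
    rw [Subgroup.mem_centralizer_iff]
    intro f hf
    have h2 : MulAut.conjNormal x (⟨f, hf⟩ : F) = ⟨f, hf⟩ := by
      rw [MonoidHom.mem_ker.mp hx]; rfl
    have h3 : x * f * x⁻¹ = f := by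
      have := congrArg Subtype.val h2
      rwa [MulAut.conjNormal_apply] at this
    calc f * x = x * f * x⁻¹ * x := by rw [h3]
      _ = x * f := by group
  have h2 : (MulAut.conjNormal : L →* MulAut F).ker.index ≠ 0 := by
    rw [Subgroup.index_ker]
    exact (Nat.card_pos (α := (MulAut.conjNormal : L →* MulAut F).range)).ne'
  intro h3
  exact h2 (Nat.eq_zero_of_zero_dvd (h3 ▸ Subgroup.index_dvd_of_le h1))

theorem infinite_centralizer_inf {L : Type} [Group L] (F N : Subgroup L) [hF : F.Normal]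
    (hfin : (F : Set L).Finite) (hN : (N : Set L).Infinite) :
    ((Subgroup.centralizer (F : Set L) ⊓ N : Subgroup L) : Set L).Infinite := by
  apply infinite_inf_of_relIndex _ hN
  intro h
  have h1 := Subgroup.relIndex_dvd_index_of_normal (Subgroup.centralizer (F : Set L)) N
  rw [h] at h1
  exact centralizer_index F hfin (Nat.eq_zero_of_zero_dvd h1)

theorem isClosed_centralizer (s : Set K) :
    IsClosed ((Subgroup.centralizer s : Subgroup K) : Set K) := by
  have : ((Subgroup.centralizer s : Subgroup K) : Set K) = ⋂ a ∈ s, {x | a * x = x * a} := by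
    ext x
    simp [Subgroup.mem_centralizer_iff]
  rw [this]
  exact isClosed_biInter fun a _ => isClosed_eq (by fun_prop) (by fun_prop)

end Pool.Agent.H288Z.MG
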