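import Pool.Agent.H288Z.MG.Core

set_option autoImplicit false
set_option linter.unusedSectionVars false
set_option linter.style.haveILetI false

/-!
Precompact groups embed densely in compact groups; minimal ones are essential there.
-/

namespace Pool.Agent.H288Z.MG

open Filter Topology

variable {G : Type} [Group G] [t : TopologicalSpace G] [IsTopologicalGroup G]

/-- `G` is covered by finitely many left translates of any neighbourhood of the identity. -/
def Precompact (G : Type) [Group G] [TopologicalSpace G] : Prop :=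
  ∀ U ∈ 𝓝 (1 : G), ∃ F : Set G, F.Finite ∧ ∀ g : G, ∃ f ∈ F, f⁻¹ * g ∈ U

theorem precompact_of_cluster (h : ∀ u : ℕ → G, ∃ x : G, MapClusterPt x atTop u) :
    Precompact G := by
  intro U hU
  by_contra hcon
  push Not at hcon
  obtain ⟨u, hu⟩ := Set.seq_of_forall_finite_exists
    (P := fun (c : G) (s : Set G) => ∀ f ∈ s, f⁻¹ * c ∉ U) hcon
  obtain ⟨x, hx⟩ := h u
  have h1 : ∀ᶠ p : G × G in 𝓝 (x, x), p.1⁻¹ * p.2 ∈ U := by
    have h2 : Continuous fun p : G × G => p.1⁻¹ * p.2 := by fun_prop
    apply h2.continuousAt.eventually_mem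
    simpa using hU
  rw [nhds_prod_eq, eventually_prod_iff] at h1
  obtain ⟨p, hp, q, hq, hpq⟩ := h1
  obtain ⟨i, hi⟩ := (mapClusterPt_iff_frequently.mp hx _ hp).exists
  obtain ⟨j, hj1, hj2⟩ := ((mapClusterPt_iff_frequently.mp hx _ hq).and_eventually
    (eventually_gt_atTop i)).exists
  exact hu j (u i) ⟨i, hj2, rfl⟩ (hpq hi hj1)

theorem conj_nhds_of_precompact (h : Precompact G) {U : Set G} (hU : U ∈ 𝓝 (1 : G)) :
    {v : G | ∀ g : G, g * v * g⁻¹ ∈ U} ∈ 𝓝 (1 : G) := by
  have h1 : ∀ᶠ p : G × G in 𝓝 (1, 1), p.1⁻¹ * p.2 * p.1 ∈ U := by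
    have h2 : Continuous fun p : G × G => p.1⁻¹ * p.2 * p.1 := by fun_prop
    apply h2.continuousAt.eventually_mem
    simpa using hU
  rw [nhds_prod_eq, eventually_prod_iff] at h1
  obtain ⟨p, hp, q, hq, hpq⟩ := h1
  obtain ⟨F, hF, hF'⟩ := h _ hp
  have h3 : ∀ᶠ v in 𝓝 (1 : G), ∀ f ∈ F, q (f⁻¹ * v * f) := by
    rw [hF.eventually_all]
    intro f _
    have h2 : Continuous fun v : G => f⁻¹ * v * f := by fun_prop
    apply h2.continuousAt.eventually
    simpa using hq
  filter_upwards [h3] with v hv g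
  obtain ⟨f, hf, hf'⟩ := hF' g⁻¹
  have h4 := hpq hf' (hv f hf)
  have h5 : (f⁻¹ * g⁻¹)⁻¹ * (f⁻¹ * v * f) * (f⁻¹ * g⁻¹) = g * v * g⁻¹ := by group
  rwa [h5] at h4

theorem exists_compactification [T2Space G] (h : Precompact G) :
    ∃ (K : Type) (_ : Group K) (_ : TopologicalSpace K) (_ : IsTopologicalGroup K)
      (_ : CompactSpace K) (_ : T2Space K) (ι : G →* K), IsInducing ι ∧ DenseRange ι ∧
        Function.Injective ι := by
  letI u : UniformSpace G := IsTopologicalGroup.rightUniformSpace G
  haveI : IsRightUniformGroup G := ⟨rfl⟩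
  haveI : IsLeftUniformGroup G := by
    refine ⟨?_⟩
    rw [uniformity_eq_comap_nhds_one' G]
    apply le_antisymm
    · rw [← tendsto_iff_comap]
      intro U hU
      refine mem_map.mpr (mem_of_superset (preimage_mem_comap (conj_nhds_of_precompact h hU)) ?_)
      intro p hp
      have h1 := hp p.1⁻¹
      have h2 : p.1⁻¹ * (p.2 * p.1⁻¹) * p.1⁻¹⁻¹ = p.1⁻¹ * p.2 := by group
      rwa [h2] at h1
    · rw [← tendsto_iff_comap]
      intro U hU
      refine mem_map.mpr (mem_of_superset (preimage_mem_comap (conj_nhds_of_precompact h hU)) ?_)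
      intro p hp
      have h1 := hp p.1
      have h2 : p.1 * (p.1⁻¹ * p.2) * p.1⁻¹ = p.2 * p.1⁻¹ := by group
      rwa [h2] at h1
  haveI : IsUniformGroup G := IsUniformGroup.of_left_right
  have htb : TotallyBounded (Set.univ : Set G) := by
    intro d hd
    rw [uniformity_eq_comap_inv_mul_nhds_one_swapped G] at hd
    obtain ⟨U, hU, hUd⟩ := mem_comap.mp hd
    obtain ⟨F, hF, hF'⟩ := h U hU
    refine ⟨F, hF, fun g _ => ?_⟩
    obtain ⟨f, hf, hf'⟩ := hF' g
    exact Set.mem_iUnion₂.mpr ⟨f, hf, hUd hf'⟩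
  haveI : IsUniformAddGroup (Additive G) := ⟨uniformContinuous_div (α := G)⟩
  let C := UniformSpace.Completion (Additive G)
  haveI : CompactSpace C := by
    refine ⟨isCompact_iff_totallyBounded_isComplete.mpr ⟨?_, isComplete_univ⟩⟩
    have h1 : TotallyBounded (Set.range ((↑) : Additive G → C)) := by
      rw [← Set.image_univ]
      exact TotallyBounded.image (s := (Set.univ : Set (Additive G))) htb
        (UniformSpace.Completion.uniformContinuous_coe _)
    have h2 := h1.closure
    rwa [UniformSpace.Completion.denseRange_coe.closure_range] at h2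
  let ι : G →* Multiplicative C :=
    AddMonoidHom.toMultiplicativeRight (UniformSpace.Completion.toCompl : Additive G →+ C)
  refine ⟨Multiplicative C, inferInstance, inferInstance, inferInstance,
    inferInstanceAs (CompactSpace C), inferInstanceAs (T2Space C), ι, ?_, ?_, ?_⟩
  · exact (UniformSpace.Completion.isDenseInducing_toCompl (Additive G)).isInducing
  · exact (UniformSpace.Completion.isDenseInducing_toCompl (Additive G)).dense
  · haveI : T0Space (Additive G) := inferInstanceAs (T0Space G)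
    exact UniformSpace.Completion.coe_injective (Additive G)

theorem ess_of_minimal {K : Type} [Group K] [TopologicalSpace K] [IsTopologicalGroup K]
    [CompactSpace K] [T2Space K] (ι : G →* K) (hc : Continuous ι) (hd : DenseRange ι)
    (hi : Function.Injective ι)
    (hmin : ∀ τ' : TopologicalSpace G, @IsTopologicalGroup G τ' _ → @T2Space G τ' →
      t ≤ τ' → τ' = t) : Ess ι.range := by
  intro N hn hcl hne
  by_contra hcon
  push Not at hcon
  let q : G →* K ⧸ N := (QuotientGroup.mk' N).comp ι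
  have hqc : Continuous q := QuotientGroup.continuous_mk.comp hc
  have hqi : Function.Injective q := by
    rw [injective_iff_map_eq_one]
    intro g hg
    have h1 : ι g ∈ N := (QuotientGroup.eq_one_iff _).mp hg
    have h2 := hcon (ι g) ⟨g, rfl⟩ h1
    exact hi (h2.trans (map_one ι).symm)
  have h1 : TopologicalSpace.induced q inferInstance = t := by
    refine hmin _ (topologicalGroup_induced q) ?_ (continuous_iff_le_induced.mp hqc)
    letI : TopologicalSpace G := TopologicalSpace.induced q inferInstance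
    exact T2Space.of_injective_continuous hqi continuous_induced_dom
  have hq : IsInducing q := ⟨h1.symm⟩
  obtain ⟨x, hx, hx1⟩ := (Subgroup.bot_or_exists_ne_one N).resolve_left hne
  haveI : (comap ι (𝓝 x)).NeBot := by
    rw [comap_neBot_iff]
    intro s hs
    exact hd.mem_nhds hs
  have h2 : Tendsto ι (comap ι (𝓝 x)) (𝓝 x) := tendsto_comap
  have h3 : Tendsto q (comap ι (𝓝 x)) (𝓝 (q 1)) := by
    have h4 := (QuotientGroup.continuous_mk (N := N)).continuousAt.tendsto.comp h2
    rw [(QuotientGroup.eq_one_iff x).mpr hx] at h4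
    rw [map_one]
    exact h4
  have h5 : Tendsto id (comap ι (𝓝 x)) (𝓝 (1 : G)) := hq.tendsto_nhds_iff.mpr h3
  have h6 : Tendsto ι (comap ι (𝓝 x)) (𝓝 (ι 1)) := hc.continuousAt.tendsto.comp h5
  rw [map_one] at h6
  exact hx1 (tendsto_nhds_unique h2 h6)

theorem exists_injective_seq [T2Space G] (u : ℕ → G) (h1 : ∀ n, u n ≠ 1)
    (h2 : Tendsto u atTop (𝓝 1)) :
    ∃ v : ℕ → G, Function.Injective v ∧ Tendsto v atTop (𝓝 1) := by
  have h3 : ∀ s : Set ℕ, s.Finite → ∃ c : ℕ, ∀ j ∈ s, j < c ∧ u j ≠ u c := by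
    intro s hs
    have h4 : ∀ᶠ c in atTop, ∀ j ∈ s, j < c ∧ u j ≠ u c := by
      rw [hs.eventually_all]
      intro j _
      exact (eventually_gt_atTop j).and (h2.eventually (eventually_ne_nhds (h1 j).symm)
        |>.mono fun c hc => hc.symm)
    exact h4.exists
  obtain ⟨φ, hφ⟩ := Set.seq_of_forall_finite_exists
    (P := fun (c : ℕ) (s : Set ℕ) => ∀ j ∈ s, j < c ∧ u j ≠ u c) h3
  have hmono : StrictMono φ := fun i j hij => (hφ j (φ i) ⟨i, hij, rfl⟩).1
  refine ⟨u ∘ φ, ?_, h2.comp hmono.tendsto_atTop⟩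
  intro i j hij
  by_contra hne
  rcases lt_or_gt_of_ne hne with h | h
  · exact (hφ j (φ i) ⟨i, h, rfl⟩).2 hij
  · exact (hφ i (φ j) ⟨j, h, rfl⟩).2 hij.symm

/-- Every infinite precompact minimal group contains a non-trivial convergent sequence. -/
theorem main [T2Space G] [Infinite G] (h : Precompact G)
    (hmin : ∀ τ' : TopologicalSpace G, @IsTopologicalGroup G τ' _ → @T2Space G τ' →
      t ≤ τ' → τ' = t) :
    ∃ v : ℕ → G, Function.Injective v ∧ Tendsto v atTop (𝓝 1) := by
  obtain ⟨K, _, _, _, _, _, ι, hι, hd, hi⟩ := exists_compactification h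
  have hE := ess_of_minimal ι hι.continuous hd hi hmin
  obtain ⟨u, hu1, hu2, hu3⟩ := good_of_compact hE hd (Set.infinite_range_of_injective hi)
  choose g hg using hu1
  refine exists_injective_seq g (fun n h0 => hu2 n ?_) ?_
  · rw [← hg n, h0, map_one]
  · rw [hι.tendsto_nhds_iff, map_one]
    exact hu3.congr fun n => (hg n).symm

end Pool.Agent.H288Z.MG
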