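import Pool.Agent.H288Z.MG.Prime
import Pool.Agent.Helper472.Lat_PW

set_option autoImplicit false
set_option linter.unusedSectionVars false
set_option linter.style.haveILetI false

/-!
An infinite dense essential subgroup of a compact group contains a non-trivial sequence converging
to the identity.
-/

namespace Pool.Agent.H288Z.MG

open Filter Topology

variable {K : Type} [Group K] [TopologicalSpace K] [IsTopologicalGroup K] [CompactSpace K]
  [T2Space K]

section

variable {E : Type} [NormedAddCommGroup E] [InnerProductSpace ℂ E] [FiniteDimensional ℂ E]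
  [CompleteSpace E]

theorem sep_finite (hS : Sep K E) (F : Set K) (hF : F.Finite) :
    ∃ (I : Type) (_ : Finite I) (ρ : I → (K →* (E →L[ℂ] E))), (∀ i, IsRep (ρ i)) ∧
      ∀ x ∈ F, (∀ i, ρ i x = 1) → x = 1 := by
  let I := {x : K // x ∈ F ∧ x ≠ 1}
  haveI : Finite I := (hF.subset fun x (hx : x ∈ F ∧ x ≠ 1) => hx.1).to_subtype
  choose ρ hρ using fun x : I => hS x.1 x.2.2
  refine ⟨I, inferInstance, ρ, fun i => (hρ i).1, fun x hx h => ?_⟩
  by_contra hx1
  exact (hρ ⟨x, hx, hx1⟩).2 (h _)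

theorem exists_max_abelian : ∃ A : Subgroup K, A.Normal ∧ (∀ a ∈ A, ∀ b ∈ A, a * b = b * a) ∧
    ∀ A' : Subgroup K, A'.Normal → (∀ a ∈ A', ∀ b ∈ A', a * b = b * a) → A ≤ A' → A' ≤ A := by
  have hz := zorn_le_nonempty₀
    {A : Subgroup K | A.Normal ∧ (∀ a ∈ A, ∀ b ∈ A, a * b = b * a)} ?_ ⊥
    ⟨inferInstance, fun a ha b hb => by
      rw [Subgroup.mem_bot] at ha hb; rw [ha, hb]⟩
  · obtain ⟨A, -, hA⟩ := hz
    exact ⟨A, hA.1.1, hA.1.2, fun A' h1 h2 h3 => hA.2 ⟨h1, h2⟩ h3⟩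
  · intro c hc1 hc2 y hy
    have hmem : ∀ x, x ∈ sSup c ↔ ∃ A ∈ c, x ∈ A := fun x =>
      Subgroup.mem_sSup_of_directedOn ⟨y, hy⟩ hc2.directedOn
    refine ⟨sSup c, ⟨⟨fun x hx g => ?_⟩, fun a ha b hb => ?_⟩, fun z hz => le_sSup hz⟩
    · obtain ⟨A, hA, hxA⟩ := (hmem x).mp hx
      exact (hmem _).mpr ⟨A, hA, (hc1 hA).1.conj_mem x hxA g⟩
    · obtain ⟨A, hA, haA⟩ := (hmem a).mp ha
      obtain ⟨B, hB, hbB⟩ := (hmem b).mp hb
      rcases hc2.total hA hB with h | h
      · exact (hc1 hB).2 a (h haA) b hbB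
      · exact (hc1 hA).2 a haA b (h hbB)

theorem good_of_sep {G : Subgroup K} (hE : Ess G) (hD : Dense (G : Set K)) (hS : Sep K E)
    (hinf : (G : Set K).Infinite) : Good G := by
  obtain ⟨A, hAn, hAc, hAm⟩ := exists_max_abelian (K := K)
  have hcl : IsClosed (A : Set K) := by
    have h1 : A.topologicalClosure ≤ A := by
      refine hAm _ (Subgroup.is_normal_topologicalClosure A) ?_ A.le_topologicalClosure
      have h2 : ∀ a ∈ A, ∀ b ∈ A.topologicalClosure, a * b = b * a := by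
        intro a ha b hb
        have h3 : IsClosed {b : K | a * b = b * a} := isClosed_eq (by fun_prop) (by fun_prop)
        exact h3.closure_subset_iff.mpr (fun b hb => hAc a ha b hb) hb
      intro a ha b hb
      have h3 : IsClosed {a : K | a * b = b * a} := isClosed_eq (by fun_prop) (by fun_prop)
      exact h3.closure_subset_iff.mpr (fun a ha => h2 a ha b hb) ha
    rw [← le_antisymm h1 A.le_topologicalClosure]
    exact A.isClosed_topologicalClosure
  by_cases hfin : (A : Set K).Finite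
  swap
  · exact good_of_abelian hE hS hAn hcl hAc hfin
  obtain ⟨I, hI, ρ, hρ, hρs⟩ := sep_finite hS _ hfin
  let N₀ : Subgroup K := ⨅ i, (ρ i).ker
  have hN₀ : ∀ x, x ∈ N₀ ↔ ∀ i, ρ i x = 1 := by
    intro x
    simp [N₀, Subgroup.mem_iInf, MonoidHom.mem_ker]
  have hN₀n : N₀.Normal := ⟨fun x hx g => (hN₀ _).mpr fun i =>
    (MonoidHom.normal_ker (ρ i)).conj_mem x ((hN₀ x).mp hx i) g⟩
  have hN₀c : IsClosed (N₀ : Set K) := by
    simp only [N₀, Subgroup.coe_iInf]
    exact isClosed_iInter fun i => ker_closed _ (hρ i).1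
  by_cases hfin2 : (N₀ : Set K).Finite
  · obtain ⟨I', hI', ρ', hρ', hρs'⟩ := sep_finite hS _ hfin2
    let σ : I ⊕ I' → (K →* (E →L[ℂ] E)) := Sum.elim ρ ρ'
    refine good_of_firstCountable (G := G) ⊤ (by simp) (Y := I ⊕ I' → (E →L[ℂ] E))
      (fun x i => σ i x.1) ?_ ?_ (by rwa [inf_top_eq])
    · refine continuous_pi fun i => Continuous.comp ?_ continuous_subtype_val
      rcases i with i | i
      · exact (hρ i).1
      · exact (hρ' i).1
    · intro x y hxy
      have h1 : ∀ i, σ i (x.1⁻¹ * y.1) = 1 := by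
        intro i
        have h2 : σ i x.1 = σ i y.1 := congrFun hxy i
        rw [map_mul, ← h2, ← map_mul, inv_mul_cancel, map_one]
      have h2 : x.1⁻¹ * y.1 ∈ N₀ := (hN₀ _).mpr fun i => h1 (Sum.inl i)
      have h3 := hρs' _ h2 fun i => h1 (Sum.inr i)
      exact Subtype.ext (inv_mul_eq_one.mp h3)
  refine good_of_semiprime hE hD hS hN₀n hN₀c hfin2 fun a ha ha1 => ?_
  by_contra hcon
  push Not at hcon
  let Q : Subgroup K := Subgroup.centralizer {z | ∃ t : K, z = t * a * t⁻¹}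
  have hQn : Q.Normal := by
    refine ⟨fun x hx g => ?_⟩
    rw [Subgroup.mem_centralizer_iff] at hx ⊢
    rintro _ ⟨t, rfl⟩
    have := hx _ ⟨g⁻¹ * t, rfl⟩
    calc t * a * t⁻¹ * (g * x * g⁻¹)
        = g * (g⁻¹ * t * a * (g⁻¹ * t)⁻¹ * x) * g⁻¹ := by group
      _ = g * (x * (g⁻¹ * t * a * (g⁻¹ * t)⁻¹)) * g⁻¹ := by rw [this]
      _ = g * x * g⁻¹ * (t * a * t⁻¹) := by group
  let A' : Subgroup K := (Subgroup.centralizer (Q : Set K) ⊓ Q) ⊓ N₀
  have hA'n : A'.Normal := inf_normal (inf_normal inferInstance hQn) hN₀n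
  have hA'c : ∀ x ∈ A', ∀ y ∈ A', x * y = y * x := by
    intro x hx y hy
    have h6 : x ∈ Subgroup.centralizer (Q : Set K) := hx.1.1
    exact (Subgroup.mem_centralizer_iff.mp h6 y hy.1.2).symm
  have haA' : a ∈ A' := by
    refine ⟨⟨?_, ?_⟩, ha⟩
    · show a ∈ Subgroup.centralizer _
      rw [Subgroup.mem_centralizer_iff]
      intro q hq
      have h6 : q ∈ Subgroup.centralizer {z | ∃ t : K, z = t * a * t⁻¹} := hq
      exact (Subgroup.mem_centralizer_iff.mp h6 a ⟨1, by group⟩).symm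
    · show a ∈ Subgroup.centralizer _
      rw [Subgroup.mem_centralizer_iff]
      rintro _ ⟨t, rfl⟩
      exact (hcon t).symm
  have hdisj : Disjoint A A' := by
    rw [disjoint_iff, eq_bot_iff]
    intro x hx
    exact hρs x hx.1 ((hN₀ x).mp hx.2.2)
  have hAA' : ∀ x ∈ A, ∀ y ∈ A', x * y = y * x := fun x hx y hy =>
    Subgroup.commute_of_normal_of_disjoint A A' hAn hA'n hdisj x y hx hy
  have hle : A ⊔ A' ≤ A := by
    refine hAm _ (Subgroup.sup_normal A A') ?_ le_sup_left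
    intro x hx y hy
    obtain ⟨x1, hx1, x2, hx2, rfl⟩ := mem_sup_normal hA'n hx
    obtain ⟨y1, hy1, y2, hy2, rfl⟩ := mem_sup_normal hA'n hy
    have k1 : Commute x1 y1 := hAc _ hx1 _ hy1
    have k2 : Commute x1 y2 := hAA' _ hx1 _ hy2
    have k3 : Commute x2 y1 := (hAA' _ hy1 _ hx2).symm
    have k4 : Commute x2 y2 := hA'c _ hx2 _ hy2
    exact (k1.mul_right k2).mul_left (k3.mul_right k4)
  exact ha1 (hρs a (hle (Subgroup.mem_sup_right haA')) ((hN₀ a).mp ha))

end

theorem exists_pad (ι κ : Type) [Fintype ι] [DecidableEq ι] [Fintype κ] [DecidableEq κ]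
    (h : Fintype.card ι ≤ Fintype.card κ) :
    ∃ φ : Matrix.unitaryGroup ι ℂ →* Matrix.unitaryGroup κ ℂ, Continuous φ ∧
      ∀ M, φ M = 1 → M = 1 := by
  let e : ι ⊕ Fin (Fintype.card κ - Fintype.card ι) ≃ κ :=
    Fintype.equivOfCardEq (by rw [Fintype.card_sum, Fintype.card_fin]; omega)
  let F : Matrix ι ι ℂ → Matrix κ κ ℂ := fun M =>
    (Matrix.fromBlocks M 0 0 (1 : Matrix (Fin (Fintype.card κ - Fintype.card ι)) _ ℂ)).submatrix
      e.symm e.symm
  have hmul : ∀ M N, F (M * N) = F M * F N := by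
    intro M N
    simp only [F]
    rw [Matrix.submatrix_mul_equiv, Matrix.fromBlocks_multiply]
    simp
  have hone : F 1 = 1 := by
    simp only [F]
    rw [Matrix.fromBlocks_one, Matrix.submatrix_one_equiv]
  have hstar : ∀ M, star (F M) = F (star M) := by
    intro M
    simp only [F, Matrix.star_eq_conjTranspose]
    rw [Matrix.conjTranspose_submatrix, Matrix.fromBlocks_conjTranspose]
    simp
  have hmem : ∀ M : Matrix.unitaryGroup ι ℂ, F M.1 ∈ Matrix.unitaryGroup κ ℂ := by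
    intro M
    rw [Matrix.mem_unitaryGroup_iff, hstar, ← hmul, Matrix.mem_unitaryGroup_iff.mp M.2, hone]
  refine ⟨⟨⟨fun M => ⟨F M.1, hmem M⟩, Subtype.ext hone⟩, fun M N => Subtype.ext (hmul _ _)⟩,
    ?_, fun M hM => ?_⟩
  · apply Continuous.subtype_mk
    apply Continuous.matrix_submatrix
    exact Continuous.matrix_fromBlocks continuous_subtype_val continuous_const continuous_const
      continuous_const
  · have h1 : F M.1 = 1 := congrArg Subtype.val hM
    apply Subtype.ext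
    ext i j
    have h2 := congrFun (congrFun h1 (e (Sum.inl i))) (e (Sum.inl j))
    simp only [F, Matrix.submatrix_apply, Equiv.symm_apply_apply, Matrix.fromBlocks_apply₁₁] at h2
    rw [h2]
    simp [Matrix.one_apply]

theorem good_of_compact {G : Subgroup K} (hE : Ess G) (hD : Dense (G : Set K))
    (hinf : (G : Set K).Infinite) : Good G := by
  by_contra hG
  let N : ℕ → Subgroup K := fun n =>
    ⨅ ρ : {ρ : K →* Matrix.unitaryGroup (Fin n) ℂ // Continuous ρ}, ρ.1.ker
  have hN : ∀ n x, x ∈ N n ↔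
      ∀ ρ : K →* Matrix.unitaryGroup (Fin n) ℂ, Continuous ρ → ρ x = 1 := by
    intro n x
    simp [N, Subgroup.mem_iInf, MonoidHom.mem_ker]
  have h1 : ∃ n, N n = ⊥ := by
    by_contra hcon
    push Not at hcon
    refine hG (good_of_chain hE N (fun n => ⟨fun x hx g => (hN n _).mpr fun ρ hρ =>
      (MonoidHom.normal_ker ρ).conj_mem x ((hN n x).mp hx ρ hρ) g⟩) (fun n => ?_) ?_ hcon ?_)
    · simp only [N, Subgroup.coe_iInf]
      exact isClosed_iInter fun ρ => ker_closed _ ρ.2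
    · intro m n hmn x hx
      rw [hN] at hx ⊢
      intro ρ hρ
      obtain ⟨φ, hφ, hφ1⟩ := exists_pad (Fin m) (Fin n) (by simpa using hmn)
      exact hφ1 _ (hx (φ.comp ρ) (hφ.comp hρ))
    · intro x hx
      by_contra hx1
      obtain ⟨ι, _, _, ρ, hρ, hρx⟩ := Pool.LatH472.PW K x hx1
      obtain ⟨φ, hφ, hφ1⟩ := exists_pad ι (Fin (Fintype.card ι)) (by simp)
      exact hρx (hφ1 _ ((hN _ x).mp (hx _) (φ.comp ρ) (hφ.comp hρ)))
  obtain ⟨n, hn⟩ := h1
  refine hG (good_of_sep (E := EuclideanSpace ℂ (Fin n)) hE hD (fun x hx1 => ?_) hinf)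
  have h2 : ∃ ρ : K →* Matrix.unitaryGroup (Fin n) ℂ, Continuous ρ ∧ ρ x ≠ 1 := by
    by_contra hcon
    push Not at hcon
    have : x ∈ N n := (hN n x).mpr hcon
    rw [hn] at this
    exact hx1 (Subgroup.mem_bot.mp this)
  obtain ⟨ρ, hρ, hρx⟩ := h2
  let T := Matrix.toEuclideanCLM (n := Fin n) (𝕜 := ℂ)
  have hT : Continuous T := by
    let T' : Matrix (Fin n) (Fin n) ℂ →ₗ[ℂ]
        (EuclideanSpace ℂ (Fin n) →L[ℂ] EuclideanSpace ℂ (Fin n)) :=
      { toFun := T
        map_add' := map_add T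
        map_smul' := fun c M => map_smul T c M }
    exact T'.continuous_of_finiteDimensional
  let σ : K →* (EuclideanSpace ℂ (Fin n) →L[ℂ] EuclideanSpace ℂ (Fin n)) :=
    { toFun := fun g => T (ρ g).1
      map_one' := by rw [map_one]; exact map_one T
      map_mul' := fun g h => by rw [map_mul]; exact map_mul T _ _ }
  refine ⟨σ, ⟨hT.comp (continuous_subtype_val.comp hρ), fun g => ?_⟩, fun h => hρx ?_⟩
  · show T (ρ g).1 ∈ _
    rw [Unitary.mem_iff, ← map_star, ← map_mul, ← map_mul, (Unitary.mem_iff.mp (ρ g).2).1,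
      (Unitary.mem_iff.mp (ρ g).2).2, map_one]
    exact ⟨rfl, rfl⟩
  · apply Subtype.ext
    apply T.injective
    have h3 : T (ρ x).1 = 1 := h
    exact h3.trans (map_one T).symm

end Pool.Agent.H288Z.MG
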