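import Pool.Agent.H288Z.MG.Sep

set_option autoImplicit false
set_option linter.unusedSectionVars false
set_option linter.style.haveILetI false

/-!
Locally compact groups all of whose subgroups are minimal are metrizable.
-/

namespace Pool.Agent.H288Z.MG

open Filter Topology

theorem secondCountable_of_countable_ess {K : Type} [Group K] [TopologicalSpace K]
    [IsTopologicalGroup K] [CompactSpace K] [T2Space K] {H : Subgroup K}
    (hc : (H : Set K).Countable) (hE : Ess H) : SecondCountableTopology K := by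
  let I := {x : K // x ∈ H ∧ x ≠ 1}
  haveI : Countable I := (hc.mono fun x (hx : x ∈ H ∧ x ≠ 1) => hx.1).to_subtype
  choose ι i1 i2 ρ hρ hρx using fun x : I => Pool.LatH472.PW K x.1 x.2.2
  let N : Subgroup K := ⨅ x, (ρ x).ker
  have hN : ∀ y, y ∈ N ↔ ∀ x, ρ x y = 1 := by
    intro y
    simp [N, Subgroup.mem_iInf, MonoidHom.mem_ker]
  have hbot : N = ⊥ := by
    by_contra hne
    obtain ⟨g, hg1, hg2, hg3⟩ := hE N ⟨fun y hy g => (hN _).mpr fun x =>
      (MonoidHom.normal_ker (ρ x)).conj_mem y ((hN y).mp hy x) g⟩ (by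
        simp only [N, Subgroup.coe_iInf]
        exact isClosed_iInter fun x => ker_closed _ (hρ x)) hne
    exact hρx ⟨g, hg1, hg3⟩ ((hN g).mp hg2 _)
  haveI : ∀ x, SecondCountableTopology (Matrix (ι x) (ι x) ℂ) := fun x =>
    inferInstanceAs (SecondCountableTopology (ι x → ι x → ℂ))
  let e : K → (∀ x, Matrix (ι x) (ι x) ℂ) := fun y x => (ρ x y).1
  have he : Continuous e := continuous_pi fun x => continuous_subtype_val.comp (hρ x)
  have hinj : Function.Injective e := by
    intro y z hyz
    have h1 : y⁻¹ * z ∈ N := (hN _).mpr fun x => by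
      have h2 : ρ x y = ρ x z := Subtype.ext (congrFun hyz x)
      rw [map_mul, ← h2, ← map_mul, inv_mul_cancel, map_one]
    rw [hbot] at h1
    exact inv_mul_eq_one.mp (Subgroup.mem_bot.mp h1)
  exact (he.isClosedEmbedding hinj).isEmbedding.secondCountableTopology

theorem min_of_inducing {G Γ : Type} [Group G] [t : TopologicalSpace G] [Group Γ]
    [s : TopologicalSpace Γ] (j : Γ →* G) (hj : IsInducing j) (hi : Function.Injective j)
    (h : ∀ τ : TopologicalSpace j.range,
      TopologicalSpace.induced (Subtype.val : j.range → G) t ≤ τ →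
      @IsTopologicalGroup j.range τ _ → @T2Space j.range τ →
      τ = TopologicalSpace.induced (Subtype.val : j.range → G) t)
    (τ' : TopologicalSpace Γ) (h1 : @IsTopologicalGroup Γ τ' _) (h2 : @T2Space Γ τ')
    (h3 : s ≤ τ') : τ' = s := by
  have hj' : s = TopologicalSpace.induced j t := @IsInducing.eq_induced _ _ s t _ hj
  let e : Γ ≃* j.range := MonoidHom.ofInjective hi
  have he : (Subtype.val : j.range → G) ∘ e = j := rfl
  have he' : j ∘ e.symm = (Subtype.val : j.range → G) := by
    rw [← he]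
    ext x
    simp
  have h4 := h (TopologicalSpace.induced e.symm τ') (by
      rw [← he', ← induced_compose]
      exact induced_mono (hj'.symm.le.trans h3))
    (@topologicalGroup_induced _ _ τ' _ h1 _ _ _ _ e.symm)
    (@T2Space.of_injective_continuous _ _ (TopologicalSpace.induced e.symm τ') τ' h2 _
      e.symm.injective continuous_induced_dom)
  have h5 : TopologicalSpace.induced e (TopologicalSpace.induced e.symm τ') = τ' := by
    rw [induced_compose]
    have : (e.symm ∘ e : Γ → Γ) = id := funext e.symm_apply_apply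
    rw [this, induced_id]
  rw [← h5, h4, induced_compose, he]
  exact hj'.symm

theorem metrizable_of_compact_subgroups {G : Type} [Group G] [TopologicalSpace G]
    [IsTopologicalGroup G] [T2Space G] [LocallyCompactSpace G]
    (h : ∀ K : Subgroup G, IsCompact (K : Set G) → FirstCountableTopology K) :
    TopologicalSpace.MetrizableSpace G := by
  obtain ⟨C, hC, hC1⟩ := exists_compact_mem_nhds (1 : G)
  have h1 : ∀ U : {U : Set G // U ∈ 𝓝 (1 : G)}, ∃ V : {U : Set G // U ∈ 𝓝 (1 : G)},
      IsClosed V.1 ∧ (∀ x ∈ V.1, x⁻¹ ∈ V.1) ∧ ∀ x ∈ V.1, ∀ y ∈ V.1, x * y ∈ U.1 := by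
    intro U
    obtain ⟨V, hV1, hV2, hV3, hV4⟩ := exists_closed_nhds_one_inv_eq_mul_subset U.2
    refine ⟨⟨V, hV1⟩, hV2, fun x hx => ?_, fun x hx y hy => hV4 (Set.mul_mem_mul hx hy)⟩
    exact Set.mem_inv.mp (hV3.symm.subset hx)
  choose f hf using h1
  let V : ℕ → Set G := fun n => (f^[n + 1] ⟨C, hC1⟩).1
  have hV0 : ∀ n, V n ∈ 𝓝 (1 : G) := fun n => (f^[n + 1] ⟨C, hC1⟩).2
  have hV1 : ∀ n, IsClosed (V n) ∧ ∀ x ∈ V n, x⁻¹ ∈ V n := by
    intro n
    simp only [V, Function.iterate_succ_apply']
    exact ⟨(hf _).1, (hf _).2.1⟩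
  have hV2 : ∀ n, ∀ x ∈ V (n + 1), ∀ y ∈ V (n + 1), x * y ∈ V n := by
    intro n
    have : V (n + 1) = (f (f^[n + 1] ⟨C, hC1⟩)).1 := by
      simp only [V]
      rw [Function.iterate_succ_apply']
    rw [this]
    exact (hf _).2.2
  have hV3 : V 0 ⊆ C := by
    intro x hx
    have := (hf ⟨C, hC1⟩).2.2 x hx 1 (mem_of_mem_nhds (hV0 0))
    rwa [mul_one] at this
  let K : Subgroup G :=
    { carrier := ⋂ n, V n
      mul_mem' := fun {x y} hx hy => Set.mem_iInter.mpr fun n =>
        hV2 n x (Set.mem_iInter.mp hx _) y (Set.mem_iInter.mp hy _)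
      one_mem' := Set.mem_iInter.mpr fun n => mem_of_mem_nhds (hV0 n)
      inv_mem' := fun {x} hx => Set.mem_iInter.mpr fun n =>
        (hV1 n).2 x (Set.mem_iInter.mp hx n) }
  haveI := h K (hC.of_isClosed_subset (isClosed_iInter fun n => (hV1 n).1)
    ((Set.iInter_subset V 0).trans hV3))
  obtain ⟨O, hO⟩ := (𝓝 (1 : K)).exists_antitone_basis
  have h2 : ∀ n, ∃ D : Set G, D ∈ 𝓝 (1 : G) ∧ IsCompact D ∧ D ⊆ V n ∧
      ∀ x : K, x.1 ∈ D → x ∈ O n := by
    intro n
    obtain ⟨W, hW, hW'⟩ := mem_nhds_subtype _ _ _ |>.mp (hO.mem n)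
    obtain ⟨D, hD1, hD2, hD3⟩ := local_compact_nhds (inter_mem hW (hV0 n))
    exact ⟨D, hD1, hD3, fun x hx => (hD2 hx).2, fun x hx => hW' (hD2 hx).1⟩
  choose D hD using h2
  let E : ℕ → Set G := fun n => ⋂ m ≤ n, D m
  have hE1 : ∀ n, E n ∈ 𝓝 (1 : G) := fun n =>
    (biInter_mem (Set.finite_Iic n)).mpr fun m _ => (hD m).1
  have hE2 : ∀ n, IsCompact (E n) := fun n =>
    (hD 0).2.1.of_isClosed_subset (isClosed_biInter fun m _ => (hD m).2.1.isClosed)
      (Set.biInter_subset_of_mem (Nat.zero_le n))
  have hE3 : Antitone E := fun m n hmn =>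
    Set.biInter_subset_biInter_left fun k (hk : k ≤ m) => hk.trans hmn
  have hE4 : ∀ x ∈ ⋂ n, E n, x = 1 := by
    intro x hx
    have h3 : ∀ n, x ∈ D n := fun n =>
      Set.mem_iInter₂.mp (Set.mem_iInter.mp hx n) n le_rfl
    have h4 : x ∈ K := Set.mem_iInter.mpr fun n => (hD n).2.2.1 (h3 n)
    by_contra hx1
    have h5 : (⟨x, h4⟩ : K) ≠ 1 := fun h0 => hx1 (congrArg Subtype.val h0)
    obtain ⟨n, hn⟩ := hO.mem_iff.mp (compl_singleton_mem_nhds h5.symm)
    exact hn ((hD n).2.2.2 ⟨x, h4⟩ (h3 n)) rfl
  have hB : (𝓝 (1 : G)).HasBasis (fun _ : ℕ => True) E := by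
    refine ⟨fun U => ⟨fun hU => ?_, fun ⟨n, _, hn⟩ => mem_of_superset (hE1 n) hn⟩⟩
    obtain ⟨n, hn⟩ := exists_subset_nhds_of_isCompact hE3.directed_ge hE2 (U := U)
      fun x hx => by rwa [hE4 x hx]
    exact ⟨n, trivial, hn⟩
  haveI : (𝓝 (1 : G)).IsCountablyGenerated := hB.isCountablyGenerated
  letI : UniformSpace G := IsTopologicalGroup.rightUniformSpace G
  haveI : (uniformity G).IsCountablyGenerated :=
    comap.isCountablyGenerated (𝓝 (1 : G)) fun p : G × G => p.2 * p.1⁻¹
  exact UniformSpace.metrizableSpace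

/-- Every locally compact group all of whose subgroups are minimal is metrizable. -/
theorem metrizable_of_hm {G : Type} [Group G] [t : TopologicalSpace G]
    [IsTopologicalGroup G] [T2Space G] [LocallyCompactSpace G]
    (h : ∀ (H : Subgroup G) (τ : TopologicalSpace H),
      TopologicalSpace.induced (Subtype.val : H → G) t ≤ τ →
      @IsTopologicalGroup H τ _ → @T2Space H τ →
      τ = TopologicalSpace.induced (Subtype.val : H → G) t) :
    TopologicalSpace.MetrizableSpace G := by
  refine metrizable_of_compact_subgroups fun K hK => ?_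
  haveI : CompactSpace K := isCompact_iff_compactSpace.mp hK
  haveI : SecondCountableTopology K := by
    refine secondCountable_of_sep fun d => ?_
    let H := Subgroup.closure (Set.range d)
    haveI : Countable H := by
      have h1 : (H : Set K).Countable := by
        have h2 : H ≤ (FreeGroup.lift d).range := by
          rw [Subgroup.closure_le]
          rintro _ ⟨n, rfl⟩
          exact ⟨FreeGroup.of n, FreeGroup.lift_apply_of⟩
        exact (Set.countable_range (FreeGroup.lift d)).mono h2
      exact h1.to_subtype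
    haveI : CompactSpace H.topologicalClosure :=
      isCompact_iff_compactSpace.mp (Subgroup.isClosed_topologicalClosure _).isCompact
    let ι : H →* H.topologicalClosure := Subgroup.inclusion H.le_topologicalClosure
    refine secondCountable_of_countable_ess (H := ι.range) (Set.countable_range ι) ?_
    refine ess_of_minimal ι (continuous_inclusion H.le_topologicalClosure) ?_
      (Subgroup.inclusion_injective _) ?_
    · exact (denseRange_inclusion_iff H.le_topologicalClosure).mpr subset_rfl
    · exact min_of_inducing (K.subtype.comp H.subtype)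
        (IsInducing.subtypeVal.comp IsInducing.subtypeVal)
        (Subtype.val_injective.comp Subtype.val_injective) (h _)
  infer_instance

end Pool.Agent.H288Z.MG
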