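import Pool.Agent.H288Z.MG.Dual

set_option autoImplicit false
set_option linter.unusedSectionVars false
set_option linter.style.haveILetI false

/-!
Minimal precompact nilpotent groups of countable tightness are metrizable.
-/

namespace Pool.Agent.H288Z.MG

open Filter Topology
open scoped commutatorElement

theorem Tight.preimage {X Y : Type} [TopologicalSpace X] [TopologicalSpace Y] {f : X → Y}
    (hf : IsInducing f) {L : Set Y} (hL : Tight L) : Tight (f ⁻¹' L) := by
  intro B hB x hx hxB
  rw [hf.closure_eq_preimage_closure_image] at hxB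
  obtain ⟨B₀, h1, h2, h3⟩ := hL (f '' B) (Set.image_subset_iff.mpr hB) (f x) hx hxB
  obtain ⟨u, hu1, hu2, rfl⟩ := exists_countable_preimage h1 h2
  exact ⟨u, hu1, hu2, by rwa [hf.closure_eq_preimage_closure_image]⟩

theorem tight_range {X Y : Type} [TopologicalSpace X] [TopologicalSpace Y] {f : X → Y}
    (hf : IsInducing f)
    (h : ∀ (A : Set X) (x : X), x ∈ closure A → ∃ B ⊆ A, B.Countable ∧ x ∈ closure B) :
    Tight (Set.range f) := by
  rintro B hB _ ⟨x, rfl⟩ hxB
  obtain ⟨B₀, h1, h2, h3⟩ := h (f ⁻¹' B) x (by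
    rwa [hf.closure_eq_preimage_closure_image, Set.image_preimage_eq_of_subset hB])
  rw [hf.closure_eq_preimage_closure_image] at h3
  exact ⟨f '' B₀, Set.image_subset_iff.mpr h1, h2.image f, h3⟩

variable {K : Type} [Group K] [TopologicalSpace K] [IsTopologicalGroup K] [CompactSpace K]
  [T2Space K]

theorem commutator_closure_le (H₁ H₂ : Subgroup K) :
    ⁅H₁.topologicalClosure, H₂.topologicalClosure⁆ ≤ ⁅H₁, H₂⁆.topologicalClosure := by
  rw [Subgroup.commutator_le]
  intro x hx y hy
  have h1 : Continuous fun p : K × K => ⁅p.1, p.2⁆ := by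
    simp only [commutatorElement_def]
    fun_prop
  exact map_mem_closure₂ (f := fun x y => ⁅x, y⁆) h1 hx hy
    fun a ha b hb => Subgroup.commutator_mem_commutator ha hb

theorem closure_bot : (⊥ : Subgroup K).topologicalClosure = ⊥ :=
  le_bot_iff.mp (Subgroup.topologicalClosure_minimal _ le_rfl (by simp))

theorem secondCountable_of_sub (A : Subgroup K) [SecondCountableTopology A] {Y : Type} [Group Y]
    [TopologicalSpace Y] [T2Space Y] [SecondCountableTopology Y] (q : K →* Y) (hq : Continuous q)
    (h : ∀ N : Subgroup K, N.Normal → N ≤ q.ker → (∀ a ∈ A, a ∈ N → a = 1) → N = ⊥) :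
    SecondCountableTopology K := by
  choose ι i1 i2 ρ hρ hρx using fun x : {x : K // x ≠ 1} => Pool.LatH472.PW K x.1 x.2
  obtain ⟨T, hT1, hT2⟩ := TopologicalSpace.isOpen_iUnion_countable
    (fun x : {x : K // x ≠ 1} => {a : A | ρ x a ≠ 1})
    fun x => isOpen_ne_fun ((hρ x).comp continuous_subtype_val) continuous_const
  haveI : Countable T := hT1.to_subtype
  let N : Subgroup K := q.ker ⊓ ⨅ x : T, (ρ x).ker
  have hN : ∀ y, y ∈ N ↔ q y = 1 ∧ ∀ x : T, ρ x y = 1 := by
    intro y
    simp [N, Subgroup.mem_iInf, MonoidHom.mem_ker]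
  have hbot : N = ⊥ := by
    refine h N ⟨fun y hy g => (hN _).mpr ⟨q.normal_ker.conj_mem y ((hN y).mp hy).1 g, fun x =>
      (ρ x).normal_ker.conj_mem y (((hN y).mp hy).2 x) g⟩⟩ inf_le_left fun a ha haN => ?_
    by_contra ha1
    have h1 : (⟨a, ha⟩ : A) ∈ ⋃ x : {x : K // x ≠ 1}, {a : A | ρ x a ≠ 1} :=
      Set.mem_iUnion.mpr ⟨⟨a, ha1⟩, hρx _⟩
    rw [← hT2] at h1
    obtain ⟨x, hx, hx'⟩ := Set.mem_iUnion₂.mp h1
    exact hx' (((hN a).mp haN).2 ⟨x, hx⟩)
  haveI : ∀ x, SecondCountableTopology (Matrix (ι x) (ι x) ℂ) := fun x =>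
    inferInstanceAs (SecondCountableTopology (ι x → ι x → ℂ))
  let e : K → Y × (∀ x : T, Matrix (ι x) (ι x) ℂ) := fun y => (q y, fun x => (ρ x y).1)
  have he : Continuous e :=
    hq.prodMk (continuous_pi fun x => continuous_subtype_val.comp (hρ x))
  have hinj : Function.Injective e := by
    intro y z hyz
    have h1 : y⁻¹ * z ∈ N := (hN _).mpr ⟨by
      have h2 : q y = q z := congrArg Prod.fst hyz
      rw [map_mul, ← h2, ← map_mul, inv_mul_cancel, map_one], fun x => by
      have h2 : ρ x y = ρ x z := Subtype.ext (congrFun (congrArg Prod.snd hyz) x)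
      rw [map_mul, ← h2, ← map_mul, inv_mul_cancel, map_one]⟩
    rw [hbot] at h1
    exact inv_mul_eq_one.mp (Subgroup.mem_bot.mp h1)
  exact (he.isClosedEmbedding hinj).isEmbedding.secondCountableTopology

theorem secondCountable_of_nilpotent {G : Subgroup K} (hE : Ess G) (hD : Dense (G : Set K))
    (hT : Tight (G : Set K)) {n : ℕ} (hn : G.lowerCentralSeries n = ⊥) :
    SecondCountableTopology K := by
  have h0 : G.topologicalClosure = ⊤ := eq_top_iff.mpr fun x _ => hD x
  have h1 : ∀ m, (⊤ : Subgroup K).lowerCentralSeries m ≤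
      (G.lowerCentralSeries m).topologicalClosure := by
    intro m
    induction m with
    | zero => exact h0.ge
    | succ m ih => exact (Subgroup.commutator_mono ih h0.ge).trans (commutator_closure_le _ _)
  haveI : Group.IsNilpotent K := Subgroup.nilpotent_iff_lowerCentralSeries.mpr
    ⟨n, le_bot_iff.mp (by simpa only [hn, closure_bot] using h1 n)⟩
  have hZ : IsClosed (Subgroup.center K : Set K) := by
    rw [← Subgroup.centralizer_univ]
    exact isClosed_centralizer _
  haveI : CompactSpace (Subgroup.center K) := isCompact_iff_compactSpace.mp hZ.isCompact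
  letI : CommGroup (Subgroup.center K) :=
    { (inferInstance : Group (Subgroup.center K)) with
      mul_comm := fun a b => Subtype.ext (Subgroup.mem_center_iff.mp b.2 a) }
  haveI : SecondCountableTopology (Subgroup.center K) := by
    refine secondCountable_of_ess_tight (L := G.subgroupOf (Subgroup.center K))
      (hT.preimage IsInducing.subtypeVal) fun H hH hne => ?_
    obtain ⟨g, hg1, ⟨a, ha, rfl⟩, hg3⟩ := hE (H.map (Subgroup.center K).subtype) ⟨by
        rintro _ ⟨a, ha, rfl⟩ g
        refine ⟨a, ha, ?_⟩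
        show a.1 = g * a.1 * g⁻¹
        rw [Subgroup.mem_center_iff.mp a.2 g, mul_inv_cancel_right]⟩
      (map_closed _ continuous_subtype_val H hH)
      (fun h => hne ((Subgroup.map_eq_bot_iff_of_injective _ Subtype.val_injective).mp h))
    exact ⟨a, hg1, ha, fun h => hg3 (congrArg Subtype.val h)⟩
  refine secondCountable_of_sub (Subgroup.center K) (1 : K →* Unit) continuous_const
    fun N hN _ h => ?_
  have h2 : ∀ m, ∀ x ∈ Subgroup.upperCentralSeries K m, x ∈ N → x = 1 := by
    intro m
    induction m with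
    | zero => exact fun x hx _ => Subgroup.mem_bot.mp hx
    | succ m ih =>
      intro x hx hxN
      refine h x (Subgroup.mem_center_iff.mpr fun y => ?_) hxN
      have h3 : ⁅x, y⁆ ∈ N := by
        have h4 := N.mul_mem hxN (hN.conj_mem _ (N.inv_mem hxN) y)
        rwa [commutatorElement_def, mul_assoc, mul_assoc, ← mul_assoc y]
      exact (commutatorElement_eq_one_iff_mul_comm.mp
        (ih _ (Subgroup.mem_upperCentralSeries_succ_iff.mp hx y) h3)).symm
  obtain ⟨m, hm⟩ := Group.IsNilpotent.nilpotent K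
  exact eq_bot_iff.mpr fun x hx => h2 m x (hm ▸ Subgroup.mem_top x) hx

/-- Every minimal precompact nilpotent group of countable tightness is metrizable. -/
theorem metrizable_of_nilpotent {G : Type} [Group G] [t : TopologicalSpace G]
    [IsTopologicalGroup G] [T2Space G] (hN : Group.IsNilpotent G) (h : Precompact G)
    (hmin : ∀ τ' : TopologicalSpace G, @IsTopologicalGroup G τ' _ → @T2Space G τ' →
      t ≤ τ' → τ' = t)
    (hT : ∀ (A : Set G) (x : G), x ∈ closure A → ∃ B ⊆ A, B.Countable ∧ x ∈ closure B) :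
    TopologicalSpace.MetrizableSpace G := by
  obtain ⟨K, _, _, _, _, _, ι, hι, hd, hi⟩ := exists_compactification h
  obtain ⟨n, hn⟩ := Subgroup.nilpotent_iff_lowerCentralSeries.mp hN
  haveI := secondCountable_of_nilpotent (ess_of_minimal ι hι.continuous hd hi hmin) hd
    (tight_range hι hT) (n := n) (by
      rw [MonoidHom.range_eq_map, ← Subgroup.map_lowerCentralSeries, hn, Subgroup.map_bot])
  exact (IsEmbedding.mk hι hi).metrizableSpace

end Pool.Agent.H288Z.MG
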