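import Pool.Agent.H288Z.MG.Abel

set_option autoImplicit false
set_option linter.unusedSectionVars false
set_option linter.style.haveILetI false

/-!
The case of an infinite closed normal subgroup without non-trivial abelian normal subgroups.
-/

namespace Pool.Agent.H288Z.MG

open Filter Topology

variable {K : Type} [Group K] [TopologicalSpace K] [IsTopologicalGroup K] [CompactSpace K]
  [T2Space K]
variable {E : Type} [NormedAddCommGroup E] [InnerProductSpace ℂ E] [FiniteDimensional ℂ E]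
  [CompleteSpace E]

theorem norm_rep_le {ρ : K →* (E →L[ℂ] E)} (hρ : IsRep ρ) (g : K) : ‖ρ g‖ ≤ 1 := by
  have h := CStarRing.norm_mem_unitary_mul (1 : E →L[ℂ] E) (hρ.2 g)
  rw [mul_one] at h
  rw [h]
  exact ContinuousLinearMap.norm_id_le

theorem D_le_two {ρ : K →* (E →L[ℂ] E)} (hρ : IsRep ρ) (g : K) : ‖ρ g - 1‖ ≤ 2 := by
  have h1 := norm_sub_le (ρ g) 1
  have h2 := norm_rep_le hρ g
  have h3 : ‖(1 : E →L[ℂ] E)‖ ≤ 1 := ContinuousLinearMap.norm_id_le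
  linarith

theorem D_conj {ρ : K →* (E →L[ℂ] E)} (hρ : IsRep ρ) (t g : K) :
    ‖ρ (t * g * t⁻¹) - 1‖ = ‖ρ g - 1‖ := by
  have h : ρ (t * g * t⁻¹) - 1 = ρ t * (ρ g - 1) * ρ t⁻¹ := by
    rw [mul_sub, sub_mul, mul_one, ← map_mul, ← map_mul, ← map_mul, mul_inv_cancel, map_one]
  rw [h, CStarRing.norm_mul_mem_unitary _ (hρ.2 _), CStarRing.norm_mem_unitary_mul _ (hρ.2 _)]

theorem D_comm {ρ : K →* (E →L[ℂ] E)} (hρ : IsRep ρ) (x y : K) :
    ‖ρ (x * y * x⁻¹ * y⁻¹) - 1‖ ≤ 2 * ‖ρ x - 1‖ * ‖ρ y - 1‖ := by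
  have h : ρ (x * y * x⁻¹ * y⁻¹) - 1 =
      ((ρ x - 1) * (ρ y - 1) - (ρ y - 1) * (ρ x - 1)) * ρ (x⁻¹ * y⁻¹) := by
    have h1 : (ρ x - 1) * (ρ y - 1) - (ρ y - 1) * (ρ x - 1) = ρ x * ρ y - ρ y * ρ x := by
      noncomm_ring
    rw [h1, sub_mul, ← map_mul, ← map_mul, ← map_mul, ← map_mul]
    have h2 : y * x * (x⁻¹ * y⁻¹) = 1 := by group
    have h3 : x * y * (x⁻¹ * y⁻¹) = x * y * x⁻¹ * y⁻¹ := by group
    rw [h2, h3, map_one]
  rw [h, CStarRing.norm_mul_mem_unitary _ (hρ.2 _)]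
  have h1 := norm_sub_le ((ρ x - 1) * (ρ y - 1)) ((ρ y - 1) * (ρ x - 1))
  have h2 := norm_mul_le (ρ x - 1) (ρ y - 1)
  have h3 := norm_mul_le (ρ y - 1) (ρ x - 1)
  linarith

theorem D_inv_mul {ρ : K →* (E →L[ℂ] E)} (hρ : IsRep ρ) (g h : K) :
    ‖ρ (g⁻¹ * h) - 1‖ = ‖ρ h - ρ g‖ := by
  have h1 : ρ h - ρ g = ρ g * (ρ (g⁻¹ * h) - 1) := by
    rw [mul_sub, mul_one, ← map_mul, mul_inv_cancel_left]
  rw [h1, CStarRing.norm_mem_unitary_mul _ (hρ.2 _)]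

theorem exists_conj_mem {G : Subgroup K} (hD : Dense (G : Set K)) {a b : K}
    (h : ∃ t : K, a * (t * b * t⁻¹) ≠ (t * b * t⁻¹) * a) :
    ∃ t ∈ G, a * (t * b * t⁻¹) ≠ (t * b * t⁻¹) * a := by
  have h1 : IsOpen {t : K | a * (t * b * t⁻¹) ≠ (t * b * t⁻¹) * a} :=
    isOpen_ne_fun (by fun_prop) (by fun_prop)
  obtain ⟨t, ht1, ht2⟩ := hD.exists_mem_open h1 h
  exact ⟨t, ht1, ht2⟩

theorem good_of_reps {G : Subgroup K} (hS : Sep K E) (u : ℕ → K) (h1 : ∀ n, u n ∈ G)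
    (h2 : ∀ n, u n ≠ 1)
    (h3 : ∀ ρ : K →* (E →L[ℂ] E), IsRep ρ → Tendsto (fun n => ρ (u n)) atTop (𝓝 1)) :
    Good G := by
  refine ⟨u, h1, h2, tendsto_one_of_sep (ι := {ρ : K →* (E →L[ℂ] E) // IsRep ρ}) 1
    (fun ρ x => ρ.1 x) (fun ρ => ρ.2.1) (fun x hx => ?_) u fun ρ => h3 ρ.1 ρ.2⟩
  by_contra hx1
  obtain ⟨ρ, hρ, hρx⟩ := hS x hx1
  exact hρx (hx ⟨ρ, hρ⟩)

theorem small_of_op {W ι : Type} (D : ι → W → ℝ) (h0 : ∀ i w, 0 ≤ D i w) (h2 : ∀ i w, D i w ≤ 2)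
    (hop : ∀ a b : W, ∃ c : W, ∀ i, D i c ≤ 2 * D i a * D i b) (w₀ : W) (s : Finset W) :
    ∀ δ : ℝ, 0 < δ → ∃ c : W, ∀ i, (∃ h ∈ s, D i h ≤ 1 / 4) → D i c ≤ δ := by
  classical
  have hone : ∀ (a : W) (k : ℕ), ∃ c : W, ∀ i, D i a ≤ 1 / 4 → D i c ≤ (1 / 2) ^ k := by
    intro a k
    induction k with
    | zero => exact ⟨a, fun i hi => by rw [pow_zero]; linarith⟩
    | succ k ih =>
      obtain ⟨c, hc⟩ := ih
      obtain ⟨c', hc'⟩ := hop c a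
      refine ⟨c', fun i hi => (hc' i).trans ?_⟩
      have k1 := hc i hi
      have k2 := h0 i c
      have k3 := h0 i a
      rw [pow_succ]
      nlinarith
  induction s using Finset.induction_on with
  | empty => exact fun δ _ => ⟨w₀, fun i ⟨h, hh, _⟩ => absurd hh (Finset.notMem_empty h)⟩
  | insert a s _ ih =>
    intro δ hδ
    obtain ⟨c₁, hc₁⟩ := ih (δ / 4) (by positivity)
    obtain ⟨k, hk⟩ := exists_pow_lt_of_lt_one (show 0 < δ / 4 by positivity)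
      (show (1 / 2 : ℝ) < 1 by norm_num)
    obtain ⟨c₂, hc₂⟩ := hone a k
    obtain ⟨c, hc⟩ := hop c₁ c₂
    refine ⟨c, fun i ⟨h, hh, hh'⟩ => (hc i).trans ?_⟩
    have k1 := h0 i c₁
    have k2 := h0 i c₂
    have k3 := h2 i c₁
    have k4 := h2 i c₂
    rcases Finset.mem_insert.mp hh with rfl | hh
    · have k5 := hc₂ i hh'
      nlinarith
    · have k5 := hc₁ i ⟨h, hh, hh'⟩
      nlinarith

theorem good_of_prime {G N : Subgroup K} (hE : Ess G) (hD : Dense (G : Set K)) (hS : Sep K E)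
    (hn : N.Normal) (hc : IsClosed (N : Set K)) (hinf : (N : Set K).Infinite)
    (hp : ∀ a ∈ N, ∀ b ∈ N, a ≠ 1 → b ≠ 1 → ∃ t : K, a * (t * b * t⁻¹) ≠ (t * b * t⁻¹) * a) :
    Good G := by
  classical
  have hGN : ((G ⊓ N : Subgroup K) : Set K).Infinite := by
    intro hfin
    haveI : (G ⊓ N).Normal := by
      refine ⟨fun x hx t => ?_⟩
      have h1 : IsClosed {t : K | t * x * t⁻¹ ∈ ((G ⊓ N : Subgroup K) : Set K)} :=
        hfin.isClosed.preimage (f := fun t : K => t * x * t⁻¹) (by fun_prop)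
      have h2 : (G : Set K) ⊆ {t : K | t * x * t⁻¹ ∈ ((G ⊓ N : Subgroup K) : Set K)} :=
        fun t ht => ⟨G.mul_mem (G.mul_mem ht hx.1) (G.inv_mem ht), hn.conj_mem x hx.2 t⟩
      exact h1.closure_subset_iff.mpr h2 (hD t)
    obtain ⟨a, ha1, ha2, ha3⟩ := hE N hn hc (ne_bot_of_infinite hinf)
    obtain ⟨b, hb, hb1⟩ := (Subgroup.bot_or_exists_ne_one _).resolve_left
      (ne_bot_of_infinite (infinite_centralizer_inf (G ⊓ N) N hfin hinf))
    obtain ⟨t, ht⟩ := hp b hb.2 a ha2 hb1 ha3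
    have h3 : t * a * t⁻¹ ∈ G ⊓ N := this.conj_mem a ⟨ha1, ha2⟩ t
    exact ht (Subgroup.mem_centralizer_iff.mp hb.1 _ h3).symm
  let W := {g : K // g ∈ G ∧ g ∈ N ∧ g ≠ 1}
  let ι := {ρ : K →* (E →L[ℂ] E) // IsRep ρ}
  let D : ι → W → ℝ := fun ρ w => ‖ρ.1 w.1 - 1‖
  have hop : ∀ a b : W, ∃ c : W, ∀ i, D i c ≤ 2 * D i a * D i b := by
    intro a b
    obtain ⟨t, ht1, ht2⟩ := exists_conj_mem hD (hp a.1 a.2.2.1 b.1 b.2.2.1 a.2.2.2 b.2.2.2)
    have hG : t * b.1 * t⁻¹ ∈ G := G.mul_mem (G.mul_mem ht1 b.2.1) (G.inv_mem ht1)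
    have hN : t * b.1 * t⁻¹ ∈ N := hn.conj_mem _ b.2.2.1 t
    refine ⟨⟨a.1 * (t * b.1 * t⁻¹) * a.1⁻¹ * (t * b.1 * t⁻¹)⁻¹, ?_, ?_, ?_⟩, fun i => ?_⟩
    · exact G.mul_mem (G.mul_mem (G.mul_mem a.2.1 hG) (G.inv_mem a.2.1)) (G.inv_mem hG)
    · exact N.mul_mem (N.mul_mem (N.mul_mem a.2.2.1 hN) (N.inv_mem a.2.2.1)) (N.inv_mem hN)
    · intro h
      apply ht2
      rw [mul_inv_eq_one, mul_inv_eq_iff_eq_mul] at h
      exact h
    · have := D_comm i.2 a.1 (t * b.1 * t⁻¹)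
      rw [D_conj i.2] at this
      exact this
  haveI : ProperSpace (E →L[ℂ] E) := FiniteDimensional.proper ℂ _
  obtain ⟨C, -, hCfin, hC⟩ := finite_cover_balls_of_compact
    (isCompact_closedBall (0 : E →L[ℂ] E) 1) (show (0 : ℝ) < 1 / 8 by norm_num)
  obtain ⟨T, hT1, hT2⟩ := hGN.exists_subset_card_eq (hCfin.toFinset.card + 1)
  let s : Finset W := (T ×ˢ T).attach.biUnion fun p =>
    if h : p.1.1 = p.1.2 then ∅ else
      {⟨p.1.1⁻¹ * p.1.2,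
        G.mul_mem (G.inv_mem (hT1 (Finset.mem_product.mp p.2).1).1)
          (hT1 (Finset.mem_product.mp p.2).2).1,
        N.mul_mem (N.inv_mem (hT1 (Finset.mem_product.mp p.2).1).2)
          (hT1 (Finset.mem_product.mp p.2).2).2,
        fun h' => h (inv_mul_eq_one.mp h')⟩}
  have hs : ∀ i : ι, ∃ h ∈ s, D i h ≤ 1 / 4 := by
    intro i
    have h1 : ∀ g : K, ∃ c ∈ hCfin.toFinset, dist (i.1 g) c < 1 / 8 := by
      intro g
      have h2 : i.1 g ∈ Metric.closedBall (0 : E →L[ℂ] E) 1 :=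
        mem_closedBall_zero_iff.mpr (norm_rep_le i.2 g)
      obtain ⟨c, hc1, hc2⟩ := Set.mem_iUnion₂.mp (hC h2)
      exact ⟨c, hCfin.mem_toFinset.mpr hc1, hc2⟩
    choose c hc1 hc2 using h1
    obtain ⟨x, hx, y, hy, hxy, hcxy⟩ := Finset.exists_ne_map_eq_of_card_lt_of_maps_to
      (s := T) (t := hCfin.toFinset) (by omega) (f := c) (fun g _ => hc1 g)
    refine ⟨⟨x⁻¹ * y, G.mul_mem (G.inv_mem (hT1 hx).1) (hT1 hy).1,
      N.mul_mem (N.inv_mem (hT1 hx).2) (hT1 hy).2, fun h' => hxy (inv_mul_eq_one.mp h')⟩, ?_, ?_⟩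
    · refine Finset.mem_biUnion.mpr ⟨⟨(x, y), Finset.mem_product.mpr ⟨hx, hy⟩⟩,
        Finset.mem_attach _ _, ?_⟩
      rw [dif_neg hxy]
      exact Finset.mem_singleton_self _
    · show ‖i.1 (x⁻¹ * y) - 1‖ ≤ 1 / 4
      rw [D_inv_mul i.2, ← dist_eq_norm]
      have h3 := dist_triangle_right (i.1 y) (i.1 x) (c x)
      have h4 := hc2 x
      have h5 := hc2 y
      rw [← hcxy] at h5
      linarith
  obtain ⟨a, ha1, ha2, ha3⟩ := hE N hn hc (ne_bot_of_infinite hinf)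
  have h6 := small_of_op D (fun i w => norm_nonneg _) (fun i w => D_le_two i.2 _) hop
    ⟨a, ha1, ha2, ha3⟩ s
  choose u hu using fun n : ℕ => h6 (1 / ((n : ℝ) + 1)) Nat.one_div_pos_of_nat
  refine good_of_reps hS (fun n => (u n).1) (fun n => (u n).2.1) (fun n => (u n).2.2.2) ?_
  intro ρ hρ
  rw [tendsto_iff_norm_sub_tendsto_zero]
  exact squeeze_zero (fun n => norm_nonneg _) (fun n => hu n ⟨ρ, hρ⟩ (hs _))
    tendsto_one_div_add_atTop_nhds_zero_nat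

theorem eventually_commute {R : Type} [Ring R] [Algebra ℂ R] [FiniteDimensional ℂ R]
    (x y : ℕ → R) (hxy : ∀ i j, i < j → x i * y j = y j * x i)
    (hyy : ∀ i j, i < j → y i * y j = y j * y i) :
    ∀ᶠ k in atTop, x k * y k = y k * x k := by
  let S : ℕ → Set R := fun k => {r | ∃ i < k, r = x i ∨ r = y i}
  let A : ℕ →o Submodule ℂ R :=
    ⟨fun k => Subalgebra.toSubmodule (Algebra.adjoin ℂ (S k)), fun i j hij => by
      apply Subalgebra.toSubmodule.monotone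
      apply Algebra.adjoin_mono
      rintro r ⟨l, hl, hr⟩
      exact ⟨l, lt_of_lt_of_le hl hij, hr⟩⟩
  obtain ⟨n, hn⟩ := monotone_stabilizes_iff_noetherian.mpr inferInstance A
  filter_upwards [eventually_ge_atTop n] with k hk
  have h1 : A k = A (k + 1) := (hn k hk).symm.trans (hn (k + 1) (by omega))
  have h2 : x k ∈ A (k + 1) := Algebra.subset_adjoin ⟨k, Nat.lt_succ_self k, Or.inl rfl⟩
  rw [← h1] at h2
  have h3 : Commute (y k) (x k) := by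
    refine Algebra.commute_of_mem_adjoin_of_forall_mem_commute h2 ?_
    rintro r ⟨i, hi, rfl | rfl⟩
    · exact (hxy i k hi).symm
    · exact (hyy i k hi).symm
  exact h3.symm

theorem good_of_semiprime {G N₀ : Subgroup K} (hE : Ess G) (hD : Dense (G : Set K))
    (hS : Sep K E) (hn : N₀.Normal) (hc : IsClosed (N₀ : Set K)) (hinf : (N₀ : Set K).Infinite)
    (hp : ∀ a ∈ N₀, a ≠ 1 → ∃ t : K, a * (t * a * t⁻¹) ≠ (t * a * t⁻¹) * a) :
    Good G := by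
  by_contra hG
  let 𝒮 := {N : Subgroup K // N.Normal ∧ IsClosed (N : Set K) ∧ (N : Set K).Infinite ∧ N ≤ N₀}
  have hstep : ∀ N : 𝒮, ∃ N' : 𝒮, ∃ M : Subgroup K, M.Normal ∧ IsClosed (M : Set K) ∧ M ≠ ⊥ ∧
      M ≤ N.1 ∧ N'.1 ≤ N.1 ∧ ∀ a ∈ M, ∀ b ∈ N'.1, a * b = b * a := by
    rintro ⟨N, h1, h2, h3, h4⟩
    have h5 : ∃ a ∈ N, ∃ b ∈ N, a ≠ 1 ∧ b ≠ 1 ∧
        ∀ t : K, b * (t * a * t⁻¹) = (t * a * t⁻¹) * b := by
      by_contra hcon
      push Not at hcon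
      exact hG (good_of_prime hE hD hS h1 h2 h3 fun b hb a ha hb1 ha1 => hcon a ha b hb ha1 hb1)
    obtain ⟨a, ha, b, hb, ha1, hb1, hab⟩ := h5
    let Q : Subgroup K := Subgroup.centralizer {z | ∃ t : K, z = t * a * t⁻¹} ⊓ N
    have hQn : Q.Normal := by
      refine inf_normal ⟨fun x hx g => ?_⟩ h1
      rw [Subgroup.mem_centralizer_iff] at hx ⊢
      rintro _ ⟨t, rfl⟩
      have := hx _ ⟨g⁻¹ * t, rfl⟩
      calc t * a * t⁻¹ * (g * x * g⁻¹)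
          = g * (g⁻¹ * t * a * (g⁻¹ * t)⁻¹ * x) * g⁻¹ := by group
        _ = g * (x * (g⁻¹ * t * a * (g⁻¹ * t)⁻¹)) * g⁻¹ := by rw [this]
        _ = g * x * g⁻¹ * (t * a * t⁻¹) := by group
    have hQc : IsClosed (Q : Set K) := inf_closed (isClosed_centralizer _) h2
    have hbQ : b ∈ Q := by
      refine ⟨?_, hb⟩
      show b ∈ Subgroup.centralizer _
      rw [Subgroup.mem_centralizer_iff]
      rintro _ ⟨t, rfl⟩
      exact (hab t).symm
    let P : Subgroup K := Subgroup.centralizer (Q : Set K) ⊓ N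
    have hPn : P.Normal := inf_normal inferInstance h1
    have hPc : IsClosed (P : Set K) := inf_closed (isClosed_centralizer _) h2
    have haP : a ∈ P := by
      refine ⟨?_, ha⟩
      show a ∈ Subgroup.centralizer _
      rw [Subgroup.mem_centralizer_iff]
      intro q hq
      have h6 : q ∈ Subgroup.centralizer {z | ∃ t : K, z = t * a * t⁻¹} := hq.1
      exact (Subgroup.mem_centralizer_iff.mp h6 a ⟨1, by group⟩).symm
    have hPQ : ∀ p ∈ P, ∀ q ∈ Q, p * q = q * p := by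
      intro p hp' q hq
      have h6 : p ∈ Subgroup.centralizer (Q : Set K) := hp'.1
      exact (Subgroup.mem_centralizer_iff.mp h6 q hq).symm
    by_cases hfin : (Q : Set K).Finite
    · refine ⟨⟨P, hPn, hPc, infinite_centralizer_inf Q N hfin h3, inf_le_right.trans h4⟩, Q, hQn,
        hQc, fun h0 => hb1 ?_, inf_le_right, inf_le_right, fun q hq p hp' => (hPQ p hp' q hq).symm⟩
      rw [h0] at hbQ
      exact Subgroup.mem_bot.mp hbQ
    · refine ⟨⟨Q, hQn, hQc, hfin, inf_le_right.trans h4⟩, P, hPn, hPc, fun h0 => ha1 ?_,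
        inf_le_right, inf_le_right, hPQ⟩
      rw [h0] at haP
      exact Subgroup.mem_bot.mp haP
  choose nxt M hM using hstep
  let Nn : ℕ → 𝒮 := fun k => nxt^[k] ⟨N₀, hn, hc, hinf, le_rfl⟩
  have hNs : ∀ k, Nn (k + 1) = nxt (Nn k) := fun k => Function.iterate_succ_apply' _ _ _
  have hanti : Antitone fun k => (Nn k).1 := by
    apply antitone_nat_of_succ_le
    intro k
    rw [hNs]
    exact (hM _).2.2.2.2.1
  have hcomm : ∀ i j, i < j → ∀ a ∈ M (Nn i), ∀ b ∈ M (Nn j), a * b = b * a := by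
    intro i j hij a ha b hb
    refine (hM (Nn i)).2.2.2.2.2 a ha b ?_
    rw [← hNs]
    exact hanti (Nat.succ_le_of_lt hij) ((hM (Nn j)).2.2.2.1 hb)
  have h7 : ∀ k, ∃ x y : K, x ∈ G ∧ y ∈ G ∧ x ∈ M (Nn k) ∧ y ∈ M (Nn k) ∧ x * y ≠ y * x := by
    intro k
    obtain ⟨a, ha1, ha2, ha3⟩ := hE _ (hM (Nn k)).1 (hM (Nn k)).2.1 (hM (Nn k)).2.2.1
    obtain ⟨t, ht1, ht2⟩ := exists_conj_mem hD
      (hp a ((Nn k).2.2.2.2 ((hM (Nn k)).2.2.2.1 ha2)) ha3)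
    exact ⟨a, t * a * t⁻¹, ha1, G.mul_mem (G.mul_mem ht1 ha1) (G.inv_mem ht1), ha2,
      (hM (Nn k)).1.conj_mem a ha2 t, ht2⟩
  choose x y hx hy hxM hyM hxy using h7
  refine hG (good_of_reps hS (fun k => x k * y k * (x k)⁻¹ * (y k)⁻¹) (fun k => ?_)
    (fun k h => ?_) fun ρ _ => ?_)
  · exact G.mul_mem (G.mul_mem (G.mul_mem (hx k) (hy k)) (G.inv_mem (hx k))) (G.inv_mem (hy k))
  · apply hxy k
    rw [mul_inv_eq_one, mul_inv_eq_iff_eq_mul] at h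
    exact h
  · have h8 := eventually_commute (fun k => ρ (x k)) (fun k => ρ (y k))
      (fun i j hij => by rw [← map_mul, ← map_mul, hcomm i j hij _ (hxM i) _ (hyM j)])
      (fun i j hij => by rw [← map_mul, ← map_mul, hcomm i j hij _ (hyM i) _ (hyM j)])
    refine tendsto_const_nhds.congr' ?_
    filter_upwards [h8] with k hk
    rw [map_mul, map_mul, map_mul, hk, ← map_mul, ← map_mul, ← map_mul]
    have : y k * x k * (x k)⁻¹ * (y k)⁻¹ = 1 := by group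
    rw [this, map_one]

end Pool.Agent.H288Z.MG
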