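import Pool.Agent.H288Z.MG.Basic

set_option autoImplicit false
set_option linter.unusedSectionVars false
set_option linter.style.haveILetI false

/-!
The case of an infinite closed normal subgroup that is residually finite.
-/

namespace Pool.Agent.H288Z.MG

open Filter Topology
open scoped Pointwise

variable {K : Type} [Group K] [TopologicalSpace K] [IsTopologicalGroup K] [CompactSpace K]
  [T2Space K]

/-- `P` is a maximal proper closed normal subgroup of `K` inside `B`, of finite index in `B`. -/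
def MaxIn (B P : Subgroup K) : Prop :=
  P.Normal ∧ IsClosed (P : Set K) ∧ P ≤ B ∧ P ≠ B ∧ P.relIndex B ≠ 0 ∧
    ∀ Q : Subgroup K, Q.Normal → IsClosed (Q : Set K) → P ≤ Q → Q ≤ B → Q = P ∨ Q = B

/-- The intersection of `B` with all `P` that are maximal in `B`. -/
def rad (B : Subgroup K) : Subgroup K := B ⊓ ⨅ P : {P : Subgroup K // MaxIn B P}, P.1

/-- Closed normal subgroups of `K` that have finite index in `B` separate the points of `B`. -/
def ResFin (B : Subgroup K) : Prop :=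
  ∀ x ∈ B, x ≠ 1 → ∃ P : Subgroup K, P.Normal ∧ IsClosed (P : Set K) ∧ x ∉ P ∧ P.relIndex B ≠ 0

theorem mem_rad {B : Subgroup K} {x : K} : x ∈ rad B ↔ x ∈ B ∧ ∀ P, MaxIn B P → x ∈ P := by
  simp [rad, Subgroup.mem_iInf]

theorem rad_le (B : Subgroup K) : rad B ≤ B := inf_le_left

theorem rad_normal {B : Subgroup K} (hB : B.Normal) : (rad B).Normal := by
  refine ⟨fun x hx g => ?_⟩
  rw [mem_rad] at hx ⊢
  exact ⟨hB.conj_mem x hx.1 g, fun P hP => hP.1.conj_mem x (hx.2 P hP) g⟩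

theorem rad_closed {B : Subgroup K} (hB : IsClosed (B : Set K)) : IsClosed (rad B : Set K) := by
  unfold rad
  rw [Subgroup.coe_inf, Subgroup.coe_iInf]
  exact hB.inter (isClosed_iInter fun P => P.2.2.1)

theorem inf_normal {P Q : Subgroup K} (hP : P.Normal) (hQ : Q.Normal) : (P ⊓ Q).Normal :=
  ⟨fun x hx g => ⟨hP.conj_mem x hx.1 g, hQ.conj_mem x hx.2 g⟩⟩

theorem inf_closed {P Q : Subgroup K} (hP : IsClosed (P : Set K)) (hQ : IsClosed (Q : Set K)) :
    IsClosed ((P ⊓ Q : Subgroup K) : Set K) := by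
  rw [Subgroup.coe_inf]; exact hP.inter hQ

theorem sup_closed {P Q : Subgroup K} (hQn : Q.Normal) (hP : IsClosed (P : Set K))
    (hQ : IsClosed (Q : Set K)) : IsClosed ((P ⊔ Q : Subgroup K) : Set K) := by
  rw [Subgroup.mul_normal]
  exact (hP.isCompact.mul hQ.isCompact).isClosed

theorem mem_sup_normal {P Q : Subgroup K} (hQn : Q.Normal) {x : K} (hx : x ∈ P ⊔ Q) :
    ∃ p ∈ P, ∃ q ∈ Q, p * q = x := by
  have h : x ∈ ((P ⊔ Q : Subgroup K) : Set K) := hx
  rw [Subgroup.mul_normal] at h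
  exact Set.mem_mul.mp h

theorem exists_maxIn {B P₀ : Subgroup K} (hn : P₀.Normal) (hc : IsClosed (P₀ : Set K))
    (hle : P₀ ≤ B) (hne : P₀ ≠ B) (hi : P₀.relIndex B ≠ 0) : ∃ Q, MaxIn B Q ∧ P₀ ≤ Q := by
  classical
  have hex : ∃ n : ℕ, ∃ Q : Subgroup K, Q.Normal ∧ IsClosed (Q : Set K) ∧ P₀ ≤ Q ∧ Q ≤ B ∧
      Q ≠ B ∧ Q.relIndex B = n := ⟨_, P₀, hn, hc, le_rfl, hle, hne, rfl⟩
  obtain ⟨Q, h1, h2, h3, h4, h5, h6⟩ := Nat.find_spec hex
  have hnz : ∀ Q' : Subgroup K, P₀ ≤ Q' → Q'.relIndex B ≠ 0 := by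
    intro Q' hQ' h0
    have := Subgroup.relIndex_dvd_of_le_left B hQ'
    rw [h0] at this
    exact hi (Nat.eq_zero_of_zero_dvd this)
  refine ⟨Q, ⟨h1, h2, h4, h5, hnz Q h3, ?_⟩, h3⟩
  intro Q' k1 k2 k3 k4
  by_cases k5 : Q' = B
  · exact Or.inr k5
  · left
    have k6 : Nat.find hex ≤ Q'.relIndex B :=
      Nat.find_min' hex ⟨Q', k1, k2, h3.trans k3, k4, k5, rfl⟩
    have k7 := Subgroup.relIndex_mul_relIndex Q Q' B k3 k4
    have k8 := hnz Q' (h3.trans k3)
    have k9 := hnz Q h3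
    have k10 : Q.relIndex Q' = 1 := by
      rw [← h6, ← k7] at k6
      have k11 : Q.relIndex Q' ≠ 0 := by
        intro h0; rw [h0, zero_mul] at k7; exact k9 k7.symm
      have k12 : Q.relIndex Q' * Q'.relIndex B ≤ 1 * Q'.relIndex B := by rwa [one_mul]
      have := Nat.le_of_mul_le_mul_right k12 (Nat.pos_of_ne_zero k8)
      omega
    exact le_antisymm (Subgroup.relIndex_eq_one.mp k10) k3

theorem relIndex_rad_lt {B P : Subgroup K} (hBn : B.Normal) (hBc : IsClosed (B : Set K))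
    (hn : P.Normal) (hc : IsClosed (P : Set K)) (hi : P.relIndex B ≠ 0) (hle : ¬ B ≤ P) :
    P.relIndex (rad B) < P.relIndex B := by
  have hi' : (P ⊓ B).relIndex B ≠ 0 := by rwa [Subgroup.inf_relIndex_right]
  obtain ⟨Q, hQ, hPQ⟩ := exists_maxIn (inf_normal hn hBn) (inf_closed hc hBc) inf_le_right
    (fun h => hle (h ▸ inf_le_left)) hi'
  have h1 : rad B ≤ Q := fun x hx => (mem_rad.mp hx).2 Q hQ
  have h2 := Subgroup.relIndex_mul_relIndex (P ⊓ B) Q B hPQ hQ.2.2.1
  have h3 : (P ⊓ B).relIndex Q = P.relIndex Q := by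
    rw [← Subgroup.inf_relIndex_right (P ⊓ B) Q, ← Subgroup.inf_relIndex_right P Q, inf_assoc,
      inf_eq_right.mpr hQ.2.2.1]
  rw [h3, Subgroup.inf_relIndex_right] at h2
  have h4 : P.relIndex Q ≠ 0 := by
    intro h0; rw [h0, zero_mul] at h2; exact hi h2.symm
  have h5 : P.relIndex (rad B) ≤ P.relIndex Q := Subgroup.relIndex_le_of_le_right h1 h4
  have h6 : Q.relIndex B ≠ 1 := fun h =>
    hQ.2.2.2.1 (le_antisymm hQ.2.2.1 (Subgroup.relIndex_eq_one.mp h))
  have h7 := hQ.2.2.2.2.1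
  have h8 : 2 ≤ Q.relIndex B := by omega
  have h9 : P.relIndex Q * 2 ≤ P.relIndex Q * Q.relIndex B := Nat.mul_le_mul_left _ h8
  omega

theorem iter_normal {B : Subgroup K} (hB : B.Normal) (j : ℕ) : (rad^[j] B).Normal := by
  induction j with
  | zero => exact hB
  | succ j ih => rw [Function.iterate_succ_apply']; exact rad_normal ih

theorem iter_closed {B : Subgroup K} (hB : IsClosed (B : Set K)) (j : ℕ) :
    IsClosed ((rad^[j] B : Subgroup K) : Set K) := by
  induction j with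
  | zero => exact hB
  | succ j ih => rw [Function.iterate_succ_apply']; exact rad_closed ih

theorem iter_anti (B : Subgroup K) : Antitone fun j => (rad^[j] B : Subgroup K) := by
  apply antitone_nat_of_succ_le
  intro j
  rw [Function.iterate_succ_apply']
  exact rad_le _

theorem iter_le {B P : Subgroup K} (hBn : B.Normal) (hBc : IsClosed (B : Set K))
    (hn : P.Normal) (hc : IsClosed (P : Set K)) (hi : P.relIndex B ≠ 0) :
    rad^[P.relIndex B] B ≤ P := by
  have hnz : ∀ j, P.relIndex (rad^[j] B) ≠ 0 := fun j h0 =>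
    hi (Subgroup.relIndex_eq_zero_of_le_right (iter_anti B (Nat.zero_le j)) h0)
  have h : ∀ j, P.relIndex (rad^[j] B) + j ≤ P.relIndex B ∨ rad^[j] B ≤ P := by
    intro j
    induction j with
    | zero => left; simp
    | succ j ih =>
      by_cases h1 : rad^[j] B ≤ P
      · right
        exact (iter_anti B (Nat.le_succ j)).trans h1
      · left
        have h2 := relIndex_rad_lt (iter_normal hBn j) (iter_closed hBc j) hn hc (hnz j) h1
        rw [Function.iterate_succ_apply']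
        rcases ih with h3 | h3
        · omega
        · exact absurd h3 h1
  rcases h (P.relIndex B) with h1 | h1
  · have := hnz (P.relIndex B)
    omega
  · exact h1

theorem maxIn_inf {N N' P : Subgroup K} (hn' : N'.Normal) (hc' : IsClosed (N' : Set K))
    (hle : N' ≤ N) (hP : MaxIn N P) (h : ¬ N' ≤ P) : MaxIn N' (P ⊓ N') := by
  refine ⟨inf_normal hP.1 hn', inf_closed hP.2.1 hc', inf_le_right,
    fun h1 => h (h1 ▸ inf_le_left), ?_, ?_⟩
  · rw [Subgroup.inf_relIndex_right]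
    exact fun h0 => hP.2.2.2.2.1 (Subgroup.relIndex_eq_zero_of_le_right hle h0)
  · intro Q k1 k2 k3 k4
    haveI := hP.1
    rcases hP.2.2.2.2.2 (Q ⊔ P) (Subgroup.sup_normal Q P) (sup_closed hP.1 k2 hP.2.1)
      le_sup_right (sup_le (k4.trans hle) hP.2.2.1) with k5 | k5
    · left
      exact le_antisymm (le_inf (le_sup_left.trans k5.le) k4) k3
    · right
      refine le_antisymm k4 fun x hx => ?_
      have k6 : x ∈ Q ⊔ P := k5 ▸ hle hx
      obtain ⟨q, hq, p, hp, rfl⟩ := mem_sup_normal hP.1 k6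
      have k7 : p ∈ N' := (N'.mul_mem_cancel_left (k4 hq)).mp hx
      exact Q.mul_mem hq (k3 ⟨hp, k7⟩)

theorem rad_mono {N N' : Subgroup K} (hn' : N'.Normal) (hc' : IsClosed (N' : Set K))
    (hle : N' ≤ N) : rad N' ≤ rad N := by
  intro x hx
  rw [mem_rad] at hx ⊢
  refine ⟨hle hx.1, fun P hP => ?_⟩
  by_cases h : N' ≤ P
  · exact h hx.1
  · exact (hx.2 _ (maxIn_inf hn' hc' hle hP h)).1

theorem good_of_rad_bot {G N : Subgroup K} (hE : Ess G) (hn : N.Normal)
    (hc : IsClosed (N : Set K)) (hinf : (N : Set K).Infinite) (hr : rad N = ⊥) : Good G := by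
  have hsep : ∀ x ∈ N, x ≠ 1 → ∃ P, MaxIn N P ∧ x ∉ P := by
    intro x hx hx1
    by_contra hcon
    push Not at hcon
    have : x ∈ rad N := mem_rad.mpr ⟨hx, hcon⟩
    rw [hr] at this
    exact hx1 (Subgroup.mem_bot.mp this)
  let 𝒮 := {X : Subgroup K // X.Normal ∧ IsClosed (X : Set K) ∧ X ≤ N ∧ X.relIndex N ≠ 0}
  haveI : NoMinOrder 𝒮 := by
    refine ⟨fun X => ?_⟩
    have h1 := infinite_inf_of_relIndex X.2.2.2.2 hinf
    rw [inf_eq_left.mpr X.2.2.2.1] at h1
    obtain ⟨x, hx, hx1⟩ := (Subgroup.bot_or_exists_ne_one X.1).resolve_left (ne_bot_of_infinite h1)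
    obtain ⟨P, hP, hxP⟩ := hsep x (X.2.2.2.1 hx) hx1
    refine ⟨⟨X.1 ⊓ P, inf_normal X.2.1 hP.1, inf_closed X.2.2.1 hP.2.1,
      inf_le_left.trans X.2.2.2.1, Subgroup.relIndex_inf_ne_zero X.2.2.2.2 hP.2.2.2.2.1⟩, ?_⟩
    refine lt_of_le_of_ne (show X.1 ⊓ P ≤ X.1 from inf_le_left) fun h => hxP ?_
    have h2 : X.1 ⊓ P = X.1 := congrArg Subtype.val h
    rw [← h2] at hx
    exact hx.2
  obtain ⟨f, hf, -⟩ := Nat.exists_strictAnti' (α := 𝒮)
    ⟨N, hn, hc, le_rfl, by rw [Subgroup.relIndex_self]; exact one_ne_zero⟩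
  let Q : Subgroup K := ⨅ j, (f j).1
  have hQc : IsClosed (Q : Set K) := by
    simp only [Q, Subgroup.coe_iInf]
    exact isClosed_iInter fun j => (f j).2.2.1
  have hQn : Q.Normal := by
    refine ⟨fun x hx g => ?_⟩
    simp only [Q, Subgroup.mem_iInf] at hx ⊢
    exact fun j => (f j).2.1.conj_mem x (hx j) g
  obtain ⟨C, hC1, hC2, hC3, hC4, hC5⟩ := exists_min_closed (K := K) Set.univ
    {F | ∃ x ∈ N, F = {c | c⁻¹ * x ∈ Q}} (by
      rintro F ⟨x, -, rfl⟩
      exact hQc.preimage (f := fun c : K => c⁻¹ * x) (by fun_prop)) N hc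
    (fun t _ x hx => hn.conj_mem x hx t) (by
      rintro F ⟨x, hx, rfl⟩
      exact ⟨x, hx, by simp⟩)
  have hCn : C.Normal := ⟨fun x hx g => hC3 g trivial x hx⟩
  have hC4' : ∀ x ∈ N, ∃ c ∈ C, c⁻¹ * x ∈ Q := fun x hx => hC4 _ ⟨x, hx, rfl⟩
  have hCQ : ∀ y, y ∈ C → y ∈ Q → y = 1 := by
    intro y hyC hyQ
    by_contra hy1
    obtain ⟨P, hP, hyP⟩ := hsep y (hC1 hyC) hy1
    have hM := maxIn_inf hCn hC2 hC1 hP (fun h => hyP (h hyC))
    haveI := hM.1
    haveI := inf_normal hCn hQn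
    rcases hM.2.2.2.2.2 ((P ⊓ C) ⊔ (C ⊓ Q)) (Subgroup.sup_normal _ _)
      (sup_closed (inf_normal hCn hQn) hM.2.1 (inf_closed hC2 hQc)) le_sup_left
      (sup_le inf_le_right inf_le_left) with k | k
    · have : y ∈ (P ⊓ C) ⊔ (C ⊓ Q) := Subgroup.mem_sup_right ⟨hyC, hyQ⟩
      rw [k] at this
      exact hyP this.1
    · apply hM.2.2.2.1
      refine hC5 _ inf_le_right hM.2.1 (fun t _ x hx => hM.1.conj_mem x hx t) ?_
      rintro F ⟨x, hx, rfl⟩
      obtain ⟨c, hc1, hc2⟩ := hC4' x hx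
      have k2 : c ∈ (P ⊓ C) ⊔ (C ⊓ Q) := k.symm ▸ hc1
      obtain ⟨p, hp, q, hq, rfl⟩ := mem_sup_normal (inf_normal hCn hQn) k2
      refine ⟨p, hp, ?_⟩
      have k3 : p⁻¹ * x = q * ((p * q)⁻¹ * x) := by group
      show p⁻¹ * x ∈ Q
      rw [k3]
      exact Q.mul_mem hq.2 hc2
  refine good_of_chain hE (fun j => C ⊓ (f j).1) (fun j => inf_normal hCn (f j).2.1)
    (fun j => inf_closed hC2 (f j).2.2.1)
    (fun i j hij => inf_le_inf_left _ (hf.antitone hij)) (fun j => ?_) (fun x hx => ?_)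
  · have h1 : (f (j + 1)).1 < (f j).1 := hf (Nat.lt_succ_self j)
    obtain ⟨x, hx1, hx2⟩ := SetLike.exists_of_lt h1
    obtain ⟨c, hc1, hc2⟩ := hC4' x ((f j).2.2.2.1 hx1)
    have hc3 : c⁻¹ * x ∈ (f j).1 := Subgroup.mem_iInf.mp hc2 j
    have hc4 : c ∈ (f j).1 := by
      have := ((f j).1.mul_mem_cancel_right hx1).mp hc3
      exact (f j).1.inv_mem_iff.mp this
    intro hbot
    have hc5 : c ∈ C ⊓ (f j).1 := ⟨hc1, hc4⟩
    rw [hbot, Subgroup.mem_bot] at hc5
    rw [hc5, inv_one, one_mul] at hc2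
    exact hx2 (Subgroup.mem_iInf.mp hc2 (j + 1))
  · exact hCQ x (hx 0).1 (Subgroup.mem_iInf.mpr fun j => (hx j).2)

theorem good_of_resFin {G B : Subgroup K} (hE : Ess G) (hn : B.Normal)
    (hc : IsClosed (B : Set K)) (hinf : (B : Set K).Infinite) (hr : ResFin B) : Good G := by
  classical
  by_contra hG
  have hex : ∃ j, ((rad^[j] B : Subgroup K) : Set K).Finite := by
    by_contra hcon
    push Not at hcon
    refine hG (good_of_chain hE (fun j => rad^[j] B) (iter_normal hn) (iter_closed hc)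
      (iter_anti B) (fun j => ne_bot_of_infinite (hcon j)) fun x hx => ?_)
    by_contra hx1
    obtain ⟨P, h1, h2, h3, h4⟩ := hr x (hx 0) hx1
    exact h3 (iter_le hn hc h1 h2 h4 (hx _))
  have h0 : Nat.find hex ≠ 0 := fun h => hinf (by
    have := Nat.find_spec hex
    rw [h] at this
    exact this)
  obtain ⟨i, hi⟩ := Nat.exists_eq_succ_of_ne_zero h0
  have hNinf : ((rad^[i] B : Subgroup K) : Set K).Infinite := Nat.find_min hex (by omega)
  have hFfin : ((rad (rad^[i] B) : Subgroup K) : Set K).Finite := by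
    have := Nat.find_spec hex
    rw [hi, Function.iterate_succ_apply'] at this
    exact this
  set N : Subgroup K := rad^[i] B with hN
  have hNB : N ≤ B := iter_anti B (Nat.zero_le i)
  have hNn : N.Normal := iter_normal hn i
  have hNc : IsClosed (N : Set K) := iter_closed hc i
  let I := {x : K // x ∈ rad N ∧ x ≠ 1}
  haveI : Finite I := by
    have : {x : K | x ∈ rad N ∧ x ≠ 1}.Finite := hFfin.subset fun x hx => hx.1
    exact this.to_subtype
  choose P hP using fun x : I => hr x.1 (hNB (rad_le N x.2.1)) x.2.2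
  let P₀ : Subgroup K := ⨅ x : I, P x
  have hP₀n : P₀.Normal := by
    refine ⟨fun x hx g => ?_⟩
    simp only [P₀, Subgroup.mem_iInf] at hx ⊢
    exact fun j => (hP j).1.conj_mem x (hx j) g
  have hP₀c : IsClosed (P₀ : Set K) := by
    simp only [P₀, Subgroup.coe_iInf]
    exact isClosed_iInter fun j => (hP j).2.1
  have hP₀i : P₀.relIndex N ≠ 0 :=
    Subgroup.relIndex_iInf_ne_zero fun j h0 =>
      (hP j).2.2.2 (Subgroup.relIndex_eq_zero_of_le_right hNB h0)
  refine hG (good_of_rad_bot hE (inf_normal hP₀n hNn) (inf_closed hP₀c hNc)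
    (infinite_inf_of_relIndex hP₀i hNinf) ?_)
  rw [eq_bot_iff]
  intro x hx
  have h1 : x ∈ rad N := rad_mono (inf_normal hP₀n hNn) (inf_closed hP₀c hNc) inf_le_right hx
  have h2 : x ∈ P₀ := (rad_le _ hx).1
  by_contra hx1
  exact (hP ⟨x, h1, hx1⟩).2.2.1 (Subgroup.mem_iInf.mp h2 ⟨x, h1, hx1⟩)

end Pool.Agent.H288Z.MG
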