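import Pool.Agent.H288Z.MG.Compl

set_option autoImplicit false
set_option linter.unusedSectionVars false
set_option linter.style.haveILetI false

/-!
A compact group in which every countable subgroup has second countable closure is second countable.
-/

namespace Pool.Agent.H288Z.MG

open Filter Topology

variable {K : Type} [Group K] [TopologicalSpace K] [IsTopologicalGroup K] [CompactSpace K]
  [T2Space K]

/-- Modulo `N`, the sequence `d` visits every non-empty open set infinitely often. -/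
def FD (N : Subgroup K) (d : ℕ → K) : Prop :=
  ∀ U : Set K, IsOpen U → U.Nonempty → ∃ᶠ n in atTop, ∃ u ∈ U, (d n)⁻¹ * u ∈ N

theorem isOpen_sat (N : Subgroup K) {U : Set K} (hU : IsOpen U) :
    IsOpen {y : K | ∃ u ∈ U, y⁻¹ * u ∈ N} := by
  have : {y : K | ∃ u ∈ U, y⁻¹ * u ∈ N} = ⋃ m ∈ N, (fun y => y * m) ⁻¹' U := by
    ext y
    simp only [Set.mem_ofPred_eq, Set.mem_iUnion, Set.mem_preimage]
    constructor
    · rintro ⟨u, hu, hm⟩
      exact ⟨_, hm, by rwa [mul_inv_cancel_left]⟩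
    · rintro ⟨m, hm, hu⟩
      exact ⟨_, hu, by rwa [inv_mul_cancel_left]⟩
  rw [this]
  exact isOpen_biUnion fun m _ => hU.preimage (by fun_prop)

theorem exists_pibase (N : Subgroup K) {Y : Type} [TopologicalSpace Y] [T2Space Y]
    [SecondCountableTopology Y] (e : K → Y) (he : Continuous e)
    (hN : ∀ x y, e x = e y → x⁻¹ * y ∈ N) :
    ∃ W : ℕ → Set K, (∀ k, IsOpen (W k)) ∧ (∀ k, (W k).Nonempty) ∧
      ∀ U : Set K, IsOpen U → U.Nonempty → ∃ k, ∀ w ∈ W k, ∃ u ∈ U, w⁻¹ * u ∈ N := by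
  obtain ⟨B, hBc, -, hB⟩ := TopologicalSpace.exists_countable_basis Y
  have h1 : {b ∈ B | (e ⁻¹' b).Nonempty}.Countable := hBc.mono fun b hb => hb.1
  have h2 : {b ∈ B | (e ⁻¹' b).Nonempty}.Nonempty := by
    obtain ⟨b, hb, hb', -⟩ := hB.exists_subset_of_mem_open (Set.mem_univ (e 1)) isOpen_univ
    exact ⟨b, hb, 1, hb'⟩
  obtain ⟨f, hf⟩ := h1.exists_eq_range h2
  have h3 : ∀ k, f k ∈ B ∧ (e ⁻¹' f k).Nonempty := fun k =>
    (hf ▸ Set.mem_range_self k : f k ∈ {b ∈ B | (e ⁻¹' b).Nonempty})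
  refine ⟨fun k => e ⁻¹' f k, fun k => (hB.isOpen (h3 k).1).preimage he, fun k => (h3 k).2, ?_⟩
  rintro U hU ⟨x, hx⟩
  have h4 : IsClosed (e '' {y : K | ∃ u ∈ U, y⁻¹ * u ∈ N}ᶜ) :=
    (((isOpen_sat N hU).isClosed_compl.isCompact).image he).isClosed
  have h5 : e x ∈ (e '' {y : K | ∃ u ∈ U, y⁻¹ * u ∈ N}ᶜ)ᶜ := by
    rintro ⟨c, hc, hcx⟩
    exact hc ⟨x, hx, hN c x hcx⟩
  obtain ⟨b, hb, hb1, hb2⟩ := hB.exists_subset_of_mem_open h5 h4.isOpen_compl
  have h6 : b ∈ Set.range f := hf ▸ (⟨hb, x, hb1⟩ : b ∈ {b ∈ B | (e ⁻¹' b).Nonempty})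
  obtain ⟨k, rfl⟩ := h6
  refine ⟨k, fun w hw => ?_⟩
  by_contra hcon
  exact hb2 hw ⟨w, hcon, rfl⟩

theorem fd_succ {N N' : Subgroup K} {d : ℕ → K} (hd : FD N d) (W : ℕ → Set K)
    (hW1 : ∀ k, IsOpen (W k)) (hW2 : ∀ k, (W k).Nonempty)
    (hW3 : ∀ U : Set K, IsOpen U → U.Nonempty → ∃ k, ∀ w ∈ W k, ∃ u ∈ U, w⁻¹ * u ∈ N') :
    ∃ d' : ℕ → K, (∀ n, (d n)⁻¹ * d' n ∈ N) ∧ FD N' d' := by
  obtain ⟨φ, hφ, hφ'⟩ := extraction_forall_of_frequently
    (P := fun m n => ∃ u ∈ W (Nat.unpair m).1, (d n)⁻¹ * u ∈ N)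
    fun m => hd _ (hW1 _) (hW2 _)
  choose w hw using hφ'
  refine ⟨Function.extend φ w d, fun n => ?_, fun U hU hU' => ?_⟩
  · by_cases h : ∃ m, φ m = n
    · obtain ⟨m, rfl⟩ := h
      rw [hφ.injective.extend_apply]
      exact (hw m).2
    · rw [Function.extend_apply' _ _ _ h, inv_mul_cancel]
      exact N.one_mem
  · obtain ⟨k, hk⟩ := hW3 U hU hU'
    rw [frequently_atTop]
    intro a
    refine ⟨φ (Nat.pair k a), (Nat.right_le_pair k a).trans hφ.le_apply, ?_⟩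
    rw [hφ.injective.extend_apply]
    apply hk
    have := (hw (Nat.pair k a)).1
    rwa [Nat.unpair_pair] at this

theorem exists_max_fd : ∃ (N : Subgroup K) (d : ℕ → K), N.Normal ∧ IsClosed (N : Set K) ∧
    FD N d ∧ ∀ (N' : Subgroup K) (d' : ℕ → K), N'.Normal → IsClosed (N' : Set K) → FD N' d' →
      N' ≤ N → (∀ n, (d n)⁻¹ * d' n ∈ N) → N ≤ N' := by
  let P := {p : Subgroup K × (ℕ → K) // p.1.Normal ∧ IsClosed (p.1 : Set K) ∧ FD p.1 p.2}
  haveI : Nonempty P := ⟨⟨(⊤, fun _ => 1), inferInstance, by simp, fun U _ hU =>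
    Frequently.of_forall fun _ => hU.imp fun u hu => ⟨hu, Subgroup.mem_top _⟩⟩⟩
  let r : P → P → Prop := fun p q =>
    q.1.1 ≤ p.1.1 ∧ ∀ n, (p.1.2 n)⁻¹ * q.1.2 n ∈ p.1.1
  have hz := exists_maximal_of_nonempty_chains_bounded (r := r) ?_ ?_
  · obtain ⟨m, hm⟩ := hz
    exact ⟨m.1.1, m.1.2, m.2.1, m.2.2.1, m.2.2.2, fun N' d' h1 h2 h3 h4 h5 =>
      (hm ⟨(N', d'), h1, h2, h3⟩ ⟨h4, h5⟩).1⟩
  · intro c hc hne
    haveI : Nonempty c := hne.to_subtype
    have hrefl : ∀ p : P, r p p := fun p =>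
      ⟨le_rfl, fun n => by rw [inv_mul_cancel]; exact p.1.1.one_mem⟩
    have htot : ∀ p q : c, r p.1 q.1 ∨ r q.1 p.1 := by
      intro p q
      by_cases h : p.1 = q.1
      · rw [h]; exact Or.inl (hrefl _)
      · exact hc p.2 q.2 h
    have h1 : ∀ n, (⋂ p : c, {y : K | (p.1.1.2 n)⁻¹ * y ∈ p.1.1.1}).Nonempty := by
      intro n
      have hcl : ∀ p : c, IsClosed {y : K | (p.1.1.2 n)⁻¹ * y ∈ p.1.1.1} := fun p =>
        p.1.2.2.1.preimage (f := fun y => (p.1.1.2 n)⁻¹ * y) (by fun_prop)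
      have hsub : ∀ p q : c, r p.1 q.1 → {y : K | (q.1.1.2 n)⁻¹ * y ∈ q.1.1.1} ⊆
          {y : K | (p.1.1.2 n)⁻¹ * y ∈ p.1.1.1} := by
        intro p q h y hy
        have := p.1.1.1.mul_mem (h.2 n) (h.1 hy)
        rwa [mul_assoc, mul_inv_cancel_left] at this
      apply IsCompact.nonempty_iInter_of_directed_nonempty_isCompact_isClosed _ _ _
        (fun p => (hcl p).isCompact) hcl
      · intro p q
        rcases htot p q with h | h
        · exact ⟨q, hsub p q h, subset_rfl⟩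
        · exact ⟨p, subset_rfl, hsub q p h⟩
      · intro p
        exact ⟨p.1.1.2 n, by simp⟩
    choose d hd using h1
    simp only [Set.mem_iInter, Set.mem_ofPred_eq] at hd
    let N : Subgroup K := ⨅ p : c, p.1.1.1
    have hN : ∀ x, x ∈ N ↔ ∀ p : c, x ∈ p.1.1.1 := fun x => Subgroup.mem_iInf
    refine ⟨⟨(N, d), ⟨fun x hx g => (hN _).mpr fun p => p.1.2.1.conj_mem x ((hN x).mp hx p) g⟩,
      ?_, ?_⟩, fun p hp => ⟨fun x hx => (hN x).mp hx ⟨p, hp⟩, fun n => hd n ⟨p, hp⟩⟩⟩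
    · simp only [N, Subgroup.coe_iInf]
      exact isClosed_iInter fun p => p.1.2.2.1
    · rintro U hU ⟨x, hx⟩
      obtain ⟨V, hV1, hV2, hV3⟩ := exists_mem_nhds_isClosed_subset (hU.mem_nhds hx)
      let T : c → Set (K × K) := fun p =>
        {z | z.1 ∈ {y : K | ∃ u ∈ U, y⁻¹ * u ∈ N}ᶜ ∧ z.2 ∈ V ∧ z.1⁻¹ * z.2 ∈ p.1.1.1}
      have h2 : ∃ p, T p ⊆ ∅ := by
        apply exists_subset_nhds_of_compactSpace
        · intro p q
          rcases htot p q with h | h
          · exact ⟨q, fun z hz => ⟨hz.1, hz.2.1, h.1 hz.2.2⟩, subset_rfl⟩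
          · exact ⟨p, subset_rfl, fun z hz => ⟨hz.1, hz.2.1, h.1 hz.2.2⟩⟩
        · intro p
          exact ((isOpen_sat N hU).isClosed_compl.preimage continuous_fst).inter
            ((hV2.preimage continuous_snd).inter
              (p.1.2.2.1.preimage (f := fun z : K × K => z.1⁻¹ * z.2) (by fun_prop)))
        · intro z hz
          rw [Set.mem_iInter] at hz
          obtain ⟨p⟩ := ‹Nonempty c›
          exact absurd ⟨z.2, hV3 (hz p).2.1, (hN _).mpr fun q => (hz q).2.2⟩ (hz p).1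
      obtain ⟨p, hp⟩ := h2
      refine (p.1.2.2.2 (interior V) isOpen_interior ⟨x, mem_interior_iff_mem_nhds.mpr hV1⟩).mono ?_
      rintro n ⟨v, hv, hv'⟩
      by_contra hcon
      refine hp (a := (d n, v)) ⟨hcon, interior_subset hv, ?_⟩
      have := p.1.1.1.mul_mem (p.1.1.1.inv_mem (hd n p)) hv'
      rwa [mul_inv_rev, inv_inv, mul_assoc, mul_inv_cancel_left] at this
  · rintro a b c ⟨h1, h2⟩ ⟨h3, h4⟩
    refine ⟨h3.trans h1, fun n => ?_⟩
    have := a.1.1.mul_mem (h2 n) (h1 (h4 n))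
    rwa [mul_assoc, mul_inv_cancel_left] at this

theorem secondCountable_of_sep
    (h : ∀ d : ℕ → K,
      SecondCountableTopology (Subgroup.closure (Set.range d)).topologicalClosure) :
    SecondCountableTopology K := by
  obtain ⟨N, d, hn, hcl, hd, hmax⟩ := exists_max_fd (K := K)
  let L := (Subgroup.closure (Set.range d)).topologicalClosure
  haveI : SecondCountableTopology L := h d
  haveI : CompactSpace L :=
    isCompact_iff_compactSpace.mp (Subgroup.isClosed_topologicalClosure _).isCompact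
  let q : L →* K ⧸ N := (QuotientGroup.mk' N).comp L.subtype
  have hqc : Continuous q := QuotientGroup.continuous_mk.comp continuous_subtype_val
  have hqs : Function.Surjective q := by
    intro z
    by_contra hz
    have h1 : IsOpen ((QuotientGroup.mk : K → K ⧸ N) ⁻¹' (Set.range q)ᶜ) :=
      (isCompact_range hqc).isClosed.isOpen_compl.preimage QuotientGroup.continuous_mk
    obtain ⟨x, rfl⟩ := QuotientGroup.mk_surjective z
    obtain ⟨n, u, hu, hu'⟩ := (hd _ h1 ⟨x, hz⟩).exists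
    refine hu ⟨⟨d n, Subgroup.le_topologicalClosure _ (Subgroup.subset_closure ⟨n, rfl⟩)⟩, ?_⟩
    exact QuotientGroup.eq.mpr hu'
  have hq : IsQuotientMap q := hqc.isClosedMap.isQuotientMap hqc hqs
  haveI : SecondCountableTopology (K ⧸ N) :=
    hq.secondCountableTopology (MonoidHom.isOpenQuotientMap_of_isQuotientMap hq).isOpenMap
  have hbot : ∀ x ∈ N, x = 1 := by
    intro x hx
    by_contra hx1
    obtain ⟨ι, _, _, ρ, hρ, hρx⟩ := Pool.LatH472.PW K x hx1
    haveI : SecondCountableTopology (Matrix ι ι ℂ) :=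
      inferInstanceAs (SecondCountableTopology (ι → ι → ℂ))
    obtain ⟨W, hW1, hW2, hW3⟩ := exists_pibase (N ⊓ ρ.ker)
      (Y := (K ⧸ N) × Matrix ι ι ℂ) (fun y => (QuotientGroup.mk y, (ρ y).1))
      (QuotientGroup.continuous_mk.prodMk (continuous_subtype_val.comp hρ)) (by
        intro y z hyz
        refine ⟨QuotientGroup.eq.mp (congrArg Prod.fst hyz), ?_⟩
        have h1 : ρ y = ρ z := Subtype.ext (congrArg Prod.snd hyz)
        show ρ (y⁻¹ * z) = 1
        rw [map_mul, ← h1, ← map_mul, inv_mul_cancel, map_one])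
    obtain ⟨d', hd1, hd2⟩ := fd_succ hd W hW1 hW2 hW3
    exact hρx (hmax _ d' (inf_normal hn (MonoidHom.normal_ker ρ)) (inf_closed hcl (ker_closed ρ hρ))
      hd2 inf_le_left hd1 hx).2
  have hinj : Function.Injective (QuotientGroup.mk : K → K ⧸ N) := by
    intro y z hyz
    exact inv_mul_eq_one.mp (hbot _ (QuotientGroup.eq.mp hyz))
  exact (QuotientGroup.continuous_mk.isClosedEmbedding hinj).isEmbedding.secondCountableTopology

end Pool.Agent.H288Z.MG
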