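import Pool.Agent.H288Z.MG.Nil

set_option autoImplicit false
set_option linter.unusedSectionVars false
set_option linter.style.haveILetI false

/-!
Totally minimal precompact solvable groups of countable tightness are metrizable.
-/

namespace Pool.Agent.H288Z.MG

open Filter Topology

/-- `G` is dense in every closed normal subgroup. -/
def TD {K : Type} [Group K] [TopologicalSpace K] (G : Subgroup K) : Prop :=
  ∀ N : Subgroup K, N.Normal → IsClosed (N : Set K) → (N : Set K) ⊆ closure ((G : Set K) ∩ N)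

section

variable {K : Type} [Group K] [TopologicalSpace K] [IsTopologicalGroup K] [CompactSpace K]
  [T2Space K]

theorem secondCountable_abelian_of_td {G : Subgroup K} (hD : TD G) (hT : Tight (G : Set K))
    (A : Subgroup K) [hn : A.Normal] (hA : IsClosed (A : Set K))
    (hc : ∀ a ∈ A, ∀ b ∈ A, a * b = b * a) [(𝓝 (1 : K ⧸ A)).IsCountablyGenerated] :
    SecondCountableTopology A := by
  haveI : CompactSpace A := isCompact_iff_compactSpace.mp hA.isCompact
  letI : CommGroup A :=
    { (inferInstance : Group A) with mul_comm := fun a b => Subtype.ext (hc a a.2 b b.2) }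
  let cn : K → A → A := fun k a => ⟨k * a * k⁻¹, hn.conj_mem _ a.2 k⟩
  have hcn : Continuous fun p : K × A => cn p.1 p.2 := by
    apply Continuous.subtype_mk
    fun_prop
  let cj : K → (A →ₜ* Circle) →* (A →ₜ* Circle) := fun k =>
    { toFun := fun χ => χ.comp ⟨(MulAut.conjNormal k : MulAut A).toMonoidHom,
        hcn.comp (continuous_const.prodMk continuous_id)⟩
      map_one' := rfl
      map_mul' := fun _ _ => rfl }
  have hcj : ∀ k χ a, cj k χ a = χ (cn k a) := fun _ _ _ => rfl
  have hmul : ∀ k g χ, cj k (cj g χ) = cj (g * k) χ := by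
    intro k g χ
    ext1 a
    rw [hcj, hcj, hcj]
    congr 1
    apply Subtype.ext
    show g * (k * a * k⁻¹) * g⁻¹ = g * k * a * (g * k)⁻¹
    group
  have hAcj : ∀ b ∈ A, ∀ χ, cj b χ = χ := by
    intro b hb χ
    ext1 a
    rw [hcj]
    congr 1
    apply Subtype.ext
    show b * a * b⁻¹ = a
    rw [hc b hb a a.2, mul_inv_cancel_right]
  let L := G.subgroupOf A
  have hperp : ∀ Y : Subgroup (A →ₜ* Circle), (∀ k, ∀ ψ ∈ Y, cj k ψ ∈ Y) →
      ∀ χ : A →ₜ* Circle, (∀ l ∈ L, l ∈ perp Y → χ l = 1) → χ ∈ Y := by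
    intro Y hY χ hχ
    refine mem_of_perp Y χ fun a ha => char_closure χ (B := (L : Set A) ∩ perp Y)
      (fun l hl => hχ l hl.1 hl.2) ?_
    have h1 := hD ((perp Y).map A.subtype) ⟨by
      rintro _ ⟨b, hb, rfl⟩ g
      exact ⟨cn g b, mem_perp.mpr fun ψ hψ => mem_perp.mp hb _ (hY g ψ hψ), rfl⟩⟩
      (map_closed _ continuous_subtype_val _ (perp_closed Y)) ⟨a, ha, rfl⟩
    rw [IsInducing.subtypeVal.closure_eq_preimage_closure_image]
    refine closure_mono ?_ h1
    rintro _ ⟨hg, b, hb, rfl⟩
    exact ⟨b, ⟨hg, hb⟩, rfl⟩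
  obtain ⟨V, hV⟩ := (𝓝 (1 : K ⧸ A)).exists_antitone_basis
  let X : ℕ → Subgroup (A →ₜ* Circle) := fun n =>
    { carrier := {χ | ∀ k v : K, (v : K ⧸ A) ∈ V n → cj (k * v * k⁻¹) χ = χ}
      mul_mem' := fun {χ ψ} h1 h2 k v hv => by rw [map_mul, h1 k v hv, h2 k v hv]
      one_mem' := fun k v _ => map_one _
      inv_mem' := fun {χ} h1 k v hv => by rw [map_inv, h1 k v hv] }
  have hXinv : ∀ n k, ∀ ψ ∈ X n, cj k ψ ∈ X n := by
    intro n g ψ hψ k v hv
    have h1 : g * (k * v * k⁻¹) = (g * k) * v * (g * k)⁻¹ * g := by group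
    rw [hmul, h1, ← hmul, hψ _ v hv]
  have hXc : ∀ n, Countable (Additive (X n)) := by
    intro n
    let σ : K → (Additive (X n) →ₗ[ℤ] Additive (X n)) := fun k => (MonoidHom.toAdditive
      (((cj k).comp (X n).subtype).codRestrict (X n) fun χ => hXinv n k _ χ.2)).toIntLinearMap
    have hσ : ∀ k y, (σ k y).toMul.1 = cj k y.toMul.1 := fun _ _ => rfl
    have hext : ∀ y z : Additive (X n), y.toMul.1 = z.toMul.1 → y = z := fun y z h =>
      Additive.toMul.injective (Subtype.ext h)
    have hfin : (Set.range σ).Finite := by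
      obtain ⟨t, -, ht⟩ := isCompact_univ.elim_nhds_subcover
        (fun k : K => {x : K | ((x * k⁻¹ : K) : K ⧸ A) ∈ V n}) fun k _ => by
          have h1 : Continuous fun x : K => ((x * k⁻¹ : K) : K ⧸ A) :=
            QuotientGroup.continuous_mk.comp (by fun_prop)
          apply h1.continuousAt.preimage_mem_nhds
          rw [mul_inv_cancel]
          exact hV.mem n
      refine (t.finite_toSet.image σ).subset ?_
      rintro _ ⟨x, rfl⟩
      obtain ⟨k, hk, hx⟩ := Set.mem_iUnion₂.mp (ht (Set.mem_univ x))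
      refine ⟨k, hk, LinearMap.ext fun y => hext _ _ ?_⟩
      have h1 := y.toMul.2 1 _ hx
      rw [one_mul, inv_one, mul_one] at h1
      rw [hσ, hσ, ← inv_mul_cancel_right x k, ← hmul, h1]
    haveI := hfin.fintype
    refine countable_of_td (F := Set.range σ) Subtype.val ⟨σ 1, 1, rfl⟩
      (fun y => hext _ _ (hAcj 1 A.one_mem _)) ?_ _
      (ct_kerAt (L := L) (hT.preimage IsInducing.subtypeVal) (X n) (hperp _ (hXinv n))) ?_
    · rintro ⟨_, k, rfl⟩ ⟨_, g, rfl⟩
      exact ⟨⟨σ (g * k), _, rfl⟩, fun y => hext _ _ (hmul k g _)⟩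
    · intro Y hY x hx
      have h1 : ¬ ∀ l ∈ L, l ∈ perp (toChars Y) → x.toMul.1 l = 1 := fun h =>
        hx (mem_of_toChars (hperp _ (fun k ψ hψ => by
          obtain ⟨y, hy, rfl⟩ := mem_toChars.mp hψ
          exact mem_toChars.mpr ⟨σ k y, hY ⟨σ k, k, rfl⟩ y hy, rfl⟩) _ h))
      push Not at h1
      obtain ⟨l, hl1, hl2, hl3⟩ := h1
      exact ⟨_, ⟨l, hl1, rfl⟩,
        fun y hy => mem_perp.mp hl2 _ (mem_toChars.mpr ⟨y, hy, rfl⟩), hl3⟩
  have hcover : ∀ χ, ∃ n, χ ∈ X n := by
    intro χ
    have h1 : ∀ᶠ v in 𝓝 (1 : K), ∀ p ∈ (Set.univ : Set (K × A)),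
        χ (cn (p.1 * v * p.1⁻¹) p.2) * (χ p.2)⁻¹ ∈ Circle.centeredArc (Real.pi / 2) := by
      refine isCompact_univ.eventually_forall_of_forall_eventually fun p _ => ?_
      have h2 : Continuous fun z : K × (K × A) =>
          χ (cn (z.2.1 * z.1 * z.2.1⁻¹) z.2.2) * (χ z.2.2)⁻¹ :=
        (χ.continuous_toFun.comp (hcn.comp (f := fun z : K × (K × A) =>
          (z.2.1 * z.1 * z.2.1⁻¹, z.2.2)) (by fun_prop))).mul
          (χ.continuous_toFun.comp (by fun_prop)).inv
      refine h2.continuousAt.eventually_mem ((Circle.isOpen_centeredArc _).mem_nhds ?_)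
      show cj (p.1 * 1 * p.1⁻¹) χ p.2 * (χ p.2)⁻¹ ∈ _
      rw [mul_one, mul_inv_cancel, hAcj 1 A.one_mem, mul_inv_cancel,
        Circle.mem_centeredArc (by linarith [Real.pi_pos])]
      simp [Real.pi_pos]
    have h2 : ∀ᶠ v in 𝓝 (1 : K), ∀ k, cj (k * v * k⁻¹) χ = χ := by
      filter_upwards [h1] with v hv k
      ext1 a
      rw [← mul_inv_eq_one]
      refine Circle.eq_one_of_forall_pow_mem_centeredArc_pi_div_two fun m _ => ?_
      have h3 := hv (k, a ^ m) trivial
      rw [← hcj, map_pow, map_pow, ← inv_pow, ← mul_pow] at h3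
      exact h3
    obtain ⟨n, hn'⟩ := hV.mem_iff.mp
      ((QuotientGroup.isOpenMap_coe (N := A)).image_mem_nhds h2)
    refine ⟨n, fun k v hv => ?_⟩
    obtain ⟨o, ho, hov⟩ := hn' hv
    have h3 : k * v * k⁻¹ = k * o * k⁻¹ * (k * (o⁻¹ * v) * k⁻¹) := by group
    rw [h3, ← hmul, ho k, hAcj _ (hn.conj_mem _ (QuotientGroup.eq.mp hov) k)]
  haveI : Countable (A →ₜ* Circle) :=
    Function.Surjective.countable (f := fun y : Σ n, Additive (X n) => y.2.toMul.1) fun χ =>
      (hcover χ).elim fun n h => ⟨⟨n, Additive.ofMul ⟨χ, h⟩⟩, rfl⟩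
  exact secondCountable_of_dual

theorem TD.quotient {G : Subgroup K} (hD : TD G) (A : Subgroup K) [A.Normal] :
    TD (G.map (QuotientGroup.mk' A)) := by
  intro N hN hc x hx
  obtain ⟨x, rfl⟩ := QuotientGroup.mk_surjective x
  have h1 := hD (N.comap (QuotientGroup.mk' A)) (hN.comap _)
    (hc.preimage QuotientGroup.continuous_mk) hx
  exact map_mem_closure QuotientGroup.continuous_mk h1 fun g hg => ⟨⟨g, hg.1, rfl⟩, hg.2⟩

theorem Tight.quotient {G : Subgroup K} (hD : TD G) (hT : Tight (G : Set K)) (A : Subgroup K)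
    [hn : A.Normal] (hA : IsClosed (A : Set K)) :
    Tight ((G.map (QuotientGroup.mk' A) : Subgroup (K ⧸ A)) : Set (K ⧸ A)) := by
  rintro B hB _ ⟨x, hx, rfl⟩ hxB
  obtain ⟨B₀, h1, h2, h3⟩ := hT ((G : Set K) ∩ (QuotientGroup.mk' A) ⁻¹' B) Set.inter_subset_left
    x hx (by
      rw [mem_closure_iff] at hxB ⊢
      intro U hU hxU
      obtain ⟨_, ⟨u, hu, rfl⟩, hb⟩ := hxB _ (QuotientGroup.isOpenMap_coe (N := A) U hU)
        ⟨x, hxU, rfl⟩
      obtain ⟨g, hg, hgu⟩ := hB hb
      obtain ⟨a, ha1, ha2, ha3⟩ := mem_closure_iff.mp (hD A hn hA (QuotientGroup.eq.mp hgu))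
        ((fun a => g * a) ⁻¹' U) (hU.preimage (by fun_prop))
        (show g * (g⁻¹ * u) ∈ U by rwa [mul_inv_cancel_left])
      refine ⟨g * a, ha1, G.mul_mem hg ha2, ?_⟩
      show QuotientGroup.mk' A (g * a) ∈ B
      rw [map_mul, hgu, QuotientGroup.mk'_apply, (QuotientGroup.eq_one_iff a).mpr ha3, mul_one]
      exact hb)
  exact ⟨QuotientGroup.mk' A '' B₀, Set.image_subset_iff.mpr fun b hb => (h1 hb).2, h2.image _,
    map_mem_closure QuotientGroup.continuous_mk h3 fun b hb => ⟨b, hb, rfl⟩⟩

end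

theorem secondCountable_of_solvable (n : ℕ) : ∀ (K : Type) [Group K] [TopologicalSpace K]
    [IsTopologicalGroup K] [CompactSpace K] [T2Space K] (G : Subgroup K), TD G →
    Tight (G : Set K) → derivedSeries K n = ⊥ → SecondCountableTopology K := by
  induction n with
  | zero =>
    intro K _ _ _ _ _ G _ _ h
    haveI : Subsingleton K := Subgroup.subsingleton_iff.mp (subsingleton_of_top_le_bot h.le)
    infer_instance
  | succ n ih =>
    intro K _ _ _ _ _ G hD hT h
    let A := (derivedSeries K n).topologicalClosure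
    haveI : A.Normal := Subgroup.is_normal_topologicalClosure _
    haveI hA : IsClosed (A : Set K) := Subgroup.isClosed_topologicalClosure _
    haveI : SecondCountableTopology (K ⧸ A) := by
      refine ih (K ⧸ A) _ (hD.quotient A) (hT.quotient hD A hA) ?_
      rw [← map_derivedSeries_eq (QuotientGroup.mk'_surjective A), Subgroup.map_eq_bot_iff,
        QuotientGroup.ker_mk']
      exact Subgroup.le_topologicalClosure _
    have h1 : ⁅A, A⁆ = ⊥ := by
      have h2 := commutator_closure_le (derivedSeries K n) (derivedSeries K n)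
      rwa [← derivedSeries_succ, h, closure_bot, le_bot_iff] at h2
    haveI := secondCountable_abelian_of_td hD hT A hA fun a ha b hb =>
      commutatorElement_eq_one_iff_mul_comm.mp
        (Subgroup.mem_bot.mp (h1 ▸ Subgroup.commutator_mem_commutator ha hb))
    refine secondCountable_of_sub A (QuotientGroup.mk' A) QuotientGroup.continuous_mk
      fun N _ h2 h3 => eq_bot_iff.mpr fun x hx => h3 x ?_ hx
    rw [QuotientGroup.ker_mk'] at h2
    exact h2 hx

/-- `G` is minimal: no strictly coarser Hausdorff group topology exists. -/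
def Minimal (G : Type) [Group G] [t : TopologicalSpace G] : Prop :=
  ∀ τ : TopologicalSpace G, @IsTopologicalGroup G τ _ → @T2Space G τ → t ≤ τ → τ = t

/-- `G` is totally minimal: every quotient by a closed normal subgroup is minimal. -/
def TotallyMinimal (G : Type) [Group G] [TopologicalSpace G] : Prop :=
  ∀ (N : Subgroup G) [N.Normal], IsClosed (N : Set G) → Minimal (G ⧸ N)

/-- Countable tightness. -/
def CountablyTight (X : Type) [TopologicalSpace X] : Prop :=
  ∀ (A : Set X) (x : X), x ∈ closure A → ∃ B ⊆ A, B.Countable ∧ x ∈ closure B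

variable {G : Type} [Group G] [TopologicalSpace G] [IsTopologicalGroup G]

theorem td_of_totallyMinimal {K : Type} [Group K] [TopologicalSpace K] [IsTopologicalGroup K]
    [CompactSpace K] [T2Space K] (ι : G →* K) (hc : Continuous ι) (hd : DenseRange ι)
    (h : TotallyMinimal G) : TD ι.range := by
  intro N hN hcl
  let M := (ι.range ⊓ N).topologicalClosure
  haveI hM : IsClosed (M : Set K) := Subgroup.isClosed_topologicalClosure _
  have hMN : M ≤ N := Subgroup.topologicalClosure_minimal _ inf_le_right hcl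
  haveI : M.Normal := by
    refine ⟨fun x hx k => ?_⟩
    have h1 : Continuous fun p : K × K => p.1 * p.2 * p.1⁻¹ := by fun_prop
    exact map_mem_closure₂ (f := fun k x => k * x * k⁻¹) h1 (hd k) hx fun a ha b hb =>
      ⟨ι.range.mul_mem (ι.range.mul_mem ha hb.1) (ι.range.inv_mem ha), hN.conj_mem b hb.2 a⟩
  haveI : (N.comap ι).Normal := hN.comap ι
  have hle : N.comap ι ≤ M.comap ι := fun g hg =>
    Subgroup.le_topologicalClosure _ ⟨⟨g, rfl⟩, hg⟩
  let j : G ⧸ N.comap ι →* K ⧸ M := QuotientGroup.map _ _ ι hle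
  have hjc : Continuous j := (QuotientGroup.isQuotientMap_mk _).continuous_iff.mpr
    (QuotientGroup.continuous_mk.comp hc)
  have hjd : DenseRange j := by
    have h1 : DenseRange ((QuotientGroup.mk : K → K ⧸ M) ∘ ι) :=
      QuotientGroup.mk_surjective.denseRange.comp hd QuotientGroup.continuous_mk
    exact DenseRange.of_comp (g := (QuotientGroup.mk : G → G ⧸ N.comap ι)) h1
  have hj1 : ∀ g : G, j g ∈ N.map (QuotientGroup.mk' M) → (g : G ⧸ N.comap ι) = 1 := by
    rintro g ⟨y, hy, hyg⟩
    have h1 := N.mul_mem hy (hMN (QuotientGroup.eq.mp hyg))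
    rw [mul_inv_cancel_left] at h1
    exact (QuotientGroup.eq_one_iff g).mpr h1
  have hji : Function.Injective j := by
    rw [injective_iff_map_eq_one]
    intro g hg
    obtain ⟨g, rfl⟩ := QuotientGroup.mk_surjective g
    exact hj1 g (hg ▸ Subgroup.one_mem _)
  have hE := ess_of_minimal j hjc hjd hji (h _ (hcl.preimage hc))
  have h2 : N.map (QuotientGroup.mk' M) = ⊥ := by
    by_contra hne
    obtain ⟨_, ⟨g, rfl⟩, hg2, hg3⟩ := hE _ (hN.map _ (QuotientGroup.mk'_surjective M))
      (map_closed _ QuotientGroup.continuous_mk N hcl) hne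
    obtain ⟨g, rfl⟩ := QuotientGroup.mk_surjective g
    exact hg3 (by rw [hj1 g hg2, map_one])
  rw [Subgroup.map_eq_bot_iff, QuotientGroup.ker_mk'] at h2
  exact h2

/-- Every totally minimal precompact solvable group of countable tightness is metrizable. -/
theorem metrizable_of_solvable [T2Space G] (hS : Group.IsSolvable G) (h : Precompact G)
    (hmin : TotallyMinimal G) (hT : CountablyTight G) : TopologicalSpace.MetrizableSpace G := by
  obtain ⟨K, _, _, _, _, _, ι, hι, hd, hi⟩ := exists_compactification h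
  obtain ⟨n, hn⟩ := hS.solvable
  have h1 : ∀ m, derivedSeries K m ≤ ((derivedSeries G m).map ι).topologicalClosure := by
    intro m
    induction m with
    | zero =>
      intro x _
      rw [derivedSeries_zero, ← MonoidHom.range_eq_map]
      exact hd x
    | succ m ih =>
      rw [derivedSeries_succ, derivedSeries_succ, Subgroup.map_commutator]
      exact (Subgroup.commutator_mono ih ih).trans (commutator_closure_le _ _)
  haveI := secondCountable_of_solvable n K _ (td_of_totallyMinimal ι hι.continuous hd hmin)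
    (tight_range hι hT) (le_bot_iff.mp (by simpa only [hn, Subgroup.map_bot, closure_bot] using h1 n))
  exact (IsEmbedding.mk hι hi).metrizableSpace

end Pool.Agent.H288Z.MG
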